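import Pool.Agent.Lib.MP_8ebc20_an.R.DatI

/-!
# RCI: tail balls, trap discs and internal chains checked by the kernel (generated)
-/

set_option autoImplicit false

namespace Pool.Agent.JH


theorem tb_ok0 : chkTail tb0 tb1 = true := by decide +kernel

theorem tb_ok1 : chkTail tb1 tb2 = true := by decide +kernel

theorem tb_ok2 : chkTail tb2 tb0 = true := by decide +kernel

theorem tb_ok3 : chkTail tb3 tb1 = true := by decide +kernel

theorem tb_ok4 : chkTail tb4 tb5 = true := by decide +kernel

theorem tb_ok5 : chkTail tb5 tb2 = true := by decide +kernel

theorem tb_ok6 : chkTail tb6 tb5 = true := by decide +kernel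

theorem tb_ok7 : chkTail tb7 tb8 = true := by decide +kernel

theorem tb_ok8 : chkTail tb8 tb0 = true := by decide +kernel

theorem tb_ok9 : chkTail tb9 tb8 = true := by decide +kernel

theorem tb_ok10 : chkTail tb10 tb10 = true := by decide +kernel

theorem tb_ok11 : chkTail tb11 tb11 = true := by decide +kernel

/-- the discs of the last level -/
def lastL : List (List Dd) → List Dd
  | [] => []
  | [L] => L
  | _ :: L :: Ls => lastL (L :: Ls)

theorem last_ok0 : (lastL ray0).all (fun D => chkIn D tb0) = true := by decide +kernel

theorem last_ok1 : (lastL ray1).all (fun D => chkIn D tb1) = true := by decide +kernel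

theorem last_ok2 : (lastL ray2).all (fun D => chkIn D tb2) = true := by decide +kernel

theorem last_ok3 : (lastL ray3).all (fun D => chkIn D tb0) = true := by decide +kernel

theorem last_ok4 : (lastL ray4).all (fun D => chkIn D tb1) = true := by decide +kernel

theorem last_ok5 : (lastL ray5).all (fun D => chkIn D tb2) = true := by decide +kernel

theorem last_ok6 : (lastL ray6).all (fun D => chkIn D tb3) = true := by decide +kernel

theorem last_ok7 : (lastL ray7).all (fun D => chkIn D tb4) = true := by decide +kernel

theorem last_ok8 : (lastL ray8).all (fun D => chkIn D tb5) = true := by decide +kernel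

theorem last_ok9 : (lastL ray9).all (fun D => chkIn D tb6) = true := by decide +kernel

theorem last_ok10 : (lastL ray10).all (fun D => chkIn D tb4) = true := by decide +kernel

theorem last_ok11 : (lastL ray11).all (fun D => chkIn D tb5) = true := by decide +kernel

theorem last_ok12 : (lastL ray12).all (fun D => chkIn D tb7) = true := by decide +kernel

theorem last_ok13 : (lastL ray13).all (fun D => chkIn D tb8) = true := by decide +kernel

theorem last_ok14 : (lastL ray14).all (fun D => chkIn D tb9) = true := by decide +kernel

theorem last_ok15 : (lastL ray15).all (fun D => chkIn D tb7) = true := by decide +kernel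

theorem last_ok16 : (lastL ray16).all (fun D => chkIn D tb8) = true := by decide +kernel

theorem last_ok17 : (lastL ray17).all (fun D => chkIn D tb10) = true := by decide +kernel

theorem last_ok18 : (lastL ray18).all (fun D => chkIn D tb10) = true := by decide +kernel

theorem last_ok19 : (lastL ray19).all (fun D => chkIn D tb10) = true := by decide +kernel

theorem last_ok20 : (lastL ray20).all (fun D => chkIn D tb11) = true := by decide +kernel

theorem last_ok21 : (lastL ray21).all (fun D => chkIn D tb11) = true := by decide +kernel

theorem trp_ok0 : (stp trp0 fun D => chkIn D trp1) = true := by decide +kernel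

theorem trp_ok1 : (stp trp1 fun D => chkIn D trp2) = true := by decide +kernel

theorem trp_ok2 : (stp trp2 fun D => chkIn D trp3) = true := by decide +kernel

theorem trp_ok3 : (stp trp3 fun D => chkIn D trp4) = true := by decide +kernel

theorem trp_ok4 : (stp trp4 fun D => chkIn D trp5) = true := by decide +kernel

theorem trp_ok5 : (stp trp5 fun D => chkIn D trp0) = true := by decide +kernel

theorem cr_okX : chkTo 0 crX trp0 = true := by decide +kernel

theorem cr_okU : chkTo 3 crU trp0 = true := by decide +kernel

theorem cr_okW : chkTo 2 crW trp0 = true := by decide +kernel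

theorem ch_okF : chkChain trp0 chF = true := by decide +kernel

theorem ch_okX : chkChain trp0 chX = true := by decide +kernel

theorem ch_okU : chkChain trp0 chU = true := by decide +kernel

theorem ch_okW : chkChain trp0 chW = true := by decide +kernel

theorem chF_in : chF.all (fun p => chkIn p.2 tb0) = true := by decide +kernel

theorem path_okF : chkPath ptF [tb0, tb1, tb2, tb0, tb1, tb2, dY] = true := by decide +kernel

theorem path_okX : chkPath ptX [tb3, tb1, tb2, tb0, tb1, tb2, dY] = true := by decide +kernel

theorem path_okU : chkPath ptU [tb4, tb5, tb2, dY] = true := by decide +kernel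

theorem path_okUp : chkPath ptUp [tb6, tb5, tb2, dY] = true := by decide +kernel

theorem path_okW : chkPath ptW [tb7, tb8, dY] = true := by decide +kernel

theorem path_okWp : chkPath ptWp [tb9, tb8, dY] = true := by decide +kernel

end Pool.Agent.JH
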