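import Pool.Agent.Lib.MP_8ebc20_an.R.Snd
import Pool.Agent.Lib.MP_8ebc20_an.R.DatI

/-!
# R.CRIT: location of the critical points

PROOF.  Put `s = c ^ 2` and let `σ_X, σ_U, σ_W` be the squares of the (exact rational) centres of the discs `crX`, `crU`, `crW`.
Polynomial identity `7 s ^ 3 + 5 ga s ^ 2 + 3 gb s + gc = 7 (s - σ_X) (s - σ_U) (s - σ_W) + e₂ s ^ 2 + e₁ s + e₀` with
`‖e_i‖ ≤ 10 ^ (-8)` (`e₂ ≈ 2.8e-9 + 1.0e-10 I`, `e₁ ≈ 2.6e-9 + 2.2e-9 I`, `e₀ ≈ -1.9e-10 + 3.0e-10 I`; `norm_num`).  If the left side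
is `0` then `‖c‖ ≤ 2` (`7 * 64 > 5 * 3.6 * 16 + 3 * 4.1 * 4 + 2.4`; for `‖c‖ > 2` divide by `‖c‖ ^ 6`), `‖s‖ ≤ 4`, so
`‖s - σ_X‖ ‖s - σ_U‖ ‖s - σ_W‖ ≤ 10 ^ (-7)`.  The distances of the `σ`'s are `≥ 0.7`, so two of the three factors are
`≥ 0.35`, and the third is `≤ 10 ^ (-6)`.  `s - σ = (c - z) (c + z)` with `z` the centre, `‖z‖ ≥ 0.49`, and one of `‖c - z‖, ‖c + z‖`
is `≥ ‖z‖ ≥ 0.49` (their sum is `≥ 2 ‖z‖`), so the other is `≤ 10 ^ (-5) < 4294967 / 2 ^ 32`.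
-/

set_option autoImplicit false

namespace Pool.Agent.JH

open Set Metric Filter Topology

private theorem nle {w : ℂ} {r : ℝ} (hr : 0 ≤ r) (h : w.re * w.re + w.im * w.im ≤ r ^ 2) : ‖w‖ ≤ r := by
  rw [Complex.norm_def, Real.sqrt_le_left hr, Complex.normSq_apply]
  exact h

private theorem nge {w : ℂ} {r : ℝ} (h : r ^ 2 ≤ w.re * w.re + w.im * w.im) : r ≤ ‖w‖ := by
  rw [Complex.norm_def, Complex.normSq_apply]
  exact Real.le_sqrt_of_sq_le h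

private noncomputable def sX : ℂ := ⟨-7654528 / 10000000, -3301857 / 10000000⟩
private noncomputable def sU : ℂ := ⟨-2048252 / 10000000, 1286920 / 10000000⟩
private noncomputable def sW : ℂ := ⟨-12730256 / 10000000, -10373456 / 10000000⟩

private noncomputable def f2 : ℂ := 5 * ga + 7 * (sX + sU + sW)
private noncomputable def f1 : ℂ := 3 * gb - 7 * (sX * sU + sX * sW + sU * sW)
private noncomputable def f0 : ℂ := gc + 7 * (sX * sU * sW)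

private theorem n_f2 : ‖f2‖ ≤ 1 / 1000000 := by
  apply nle (by norm_num)
  simp only [f2, sX, sU, sW, ga, Complex.add_re, Complex.add_im, Complex.mul_re, Complex.mul_im,
    Complex.re_ofNat, Complex.im_ofNat]
  norm_num

private theorem n_f1 : ‖f1‖ ≤ 1 / 1000000 := by
  apply nle (by norm_num)
  simp only [f1, sX, sU, sW, gb, Complex.add_re, Complex.add_im, Complex.sub_re, Complex.sub_im,
    Complex.mul_re, Complex.mul_im, Complex.re_ofNat, Complex.im_ofNat]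
  norm_num

private theorem n_f0 : ‖f0‖ ≤ 1 / 1000000 := by
  apply nle (by norm_num)
  simp only [f0, sX, sU, sW, gc, Complex.add_re, Complex.add_im, Complex.mul_re, Complex.mul_im,
    Complex.re_ofNat, Complex.im_ofNat]
  norm_num

private theorem factor (s : ℂ) : 7 * s ^ 3 + 5 * ga * s ^ 2 + 3 * gb * s + gc =
    7 * ((s - sX) * (s - sU) * (s - sW)) + (f2 * s ^ 2 + f1 * s + f0) := by
  unfold f2 f1 f0
  ring

private theorem bound_s {s : ℂ} (h : 7 * s ^ 3 + 5 * ga * s ^ 2 + 3 * gb * s + gc = 0) : ‖s‖ ≤ 4 := by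
  have h1 : 7 * s ^ 3 = -(5 * ga * s ^ 2 + 3 * gb * s + gc) := by linear_combination h
  have h2 : 7 * ‖s‖ ^ 3 ≤ 5 * (36 / 10) * ‖s‖ ^ 2 + 3 * (41 / 10) * ‖s‖ + 24 / 10 := by
    calc 7 * ‖s‖ ^ 3 = ‖7 * s ^ 3‖ := by rw [norm_mul, norm_pow]; norm_num
      _ = ‖5 * ga * s ^ 2 + 3 * gb * s + gc‖ := by rw [h1, norm_neg]
      _ ≤ ‖5 * ga * s ^ 2‖ + ‖3 * gb * s‖ + ‖gc‖ := norm_add₃_le
      _ = 5 * ‖ga‖ * ‖s‖ ^ 2 + 3 * ‖gb‖ * ‖s‖ + ‖gc‖ := by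
          rw [norm_mul, norm_mul, norm_mul, norm_mul, norm_pow]; norm_num
      _ ≤ _ := by
          have := norm_ga; have := norm_gb; have := norm_gc
          gcongr
  by_contra hcon
  rw [not_le] at hcon
  have h3 : 0 ≤ (‖s‖ - 4) := by linarith
  nlinarith [mul_nonneg h3 (sq_nonneg ‖s‖), mul_nonneg h3 h3, norm_nonneg s]

private theorem prod_small {s : ℂ} (h : 7 * s ^ 3 + 5 * ga * s ^ 2 + 3 * gb * s + gc = 0) :
    ‖s - sX‖ * ‖s - sU‖ * ‖s - sW‖ ≤ 3 / 1000000 := by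
  have hs := bound_s h
  rw [factor] at h
  have h1 : 7 * ((s - sX) * (s - sU) * (s - sW)) = -(f2 * s ^ 2 + f1 * s + f0) := by
    linear_combination h
  have h2 : 7 * (‖s - sX‖ * ‖s - sU‖ * ‖s - sW‖) ≤ 1 / 1000000 * 4 ^ 2 + 1 / 1000000 * 4 + 1 / 1000000 := by
    calc 7 * (‖s - sX‖ * ‖s - sU‖ * ‖s - sW‖) = ‖7 * ((s - sX) * (s - sU) * (s - sW))‖ := by
          rw [norm_mul, norm_mul, norm_mul]; norm_num
      _ = ‖f2 * s ^ 2 + f1 * s + f0‖ := by rw [h1, norm_neg]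
      _ ≤ ‖f2 * s ^ 2‖ + ‖f1 * s‖ + ‖f0‖ := norm_add₃_le
      _ = ‖f2‖ * ‖s‖ ^ 2 + ‖f1‖ * ‖s‖ + ‖f0‖ := by rw [norm_mul, norm_mul, norm_pow]
      _ ≤ _ := by
          have := n_f2; have := n_f1; have := n_f0
          gcongr
  linarith

private theorem d_XU : 7 / 10 ≤ ‖sX - sU‖ := by
  apply nge
  simp only [sX, sU, Complex.sub_re, Complex.sub_im]
  norm_num

private theorem d_XW : 7 / 10 ≤ ‖sX - sW‖ := by
  apply nge
  simp only [sX, sW, Complex.sub_re, Complex.sub_im]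
  norm_num

private theorem d_UW : 7 / 10 ≤ ‖sU - sW‖ := by
  apply nge
  simp only [sU, sW, Complex.sub_re, Complex.sub_im]
  norm_num

private theorem three {s a b d : ℂ} (hab : 7 / 10 ≤ ‖a - b‖) (had : 7 / 10 ≤ ‖a - d‖)
    (ha : ‖s - a‖ < 35 / 100) (h : ‖s - a‖ * ‖s - b‖ * ‖s - d‖ ≤ 3 / 1000000) :
    ‖s - a‖ ≤ 5 / 100000 := by
  have h1 : 35 / 100 ≤ ‖s - b‖ := by
    have : a - b = (s - b) - (s - a) := by ring
    have h2 : ‖a - b‖ ≤ ‖s - b‖ + ‖s - a‖ := by rw [this]; exact norm_sub_le _ _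
    linarith
  have h3 : 35 / 100 ≤ ‖s - d‖ := by
    have : a - d = (s - d) - (s - a) := by ring
    have h2 : ‖a - d‖ ≤ ‖s - d‖ + ‖s - a‖ := by rw [this]; exact norm_sub_le _ _
    linarith
  have h4 : ‖s - a‖ * (35 / 100) * (35 / 100) ≤ ‖s - a‖ * ‖s - b‖ * ‖s - d‖ := by
    gcongr
  linarith [norm_nonneg (s - a)]

private theorem dist_of {c z σ : ℂ} (hz : 49 / 100 ≤ ‖z‖) (hσ : ‖z ^ 2 - σ‖ ≤ 1 / 1000000)
    (h : ‖c ^ 2 - σ‖ ≤ 5 / 100000) : ‖c - z‖ ≤ 1 / 2000 ∨ ‖-c - z‖ ≤ 1 / 2000 := by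
  have h1 : ‖c ^ 2 - z ^ 2‖ ≤ 6 / 100000 := by
    have : c ^ 2 - z ^ 2 = (c ^ 2 - σ) - (z ^ 2 - σ) := by ring
    rw [this]
    exact (norm_sub_le _ _).trans (by linarith)
  have h2 : ‖c - z‖ * ‖-c - z‖ ≤ 6 / 100000 := by
    rw [← norm_mul]
    have : (c - z) * (-c - z) = -(c ^ 2 - z ^ 2) := by ring
    rw [this, norm_neg]
    exact h1
  have h3 : 98 / 100 ≤ ‖c - z‖ + ‖-c - z‖ := by
    have h4 : ‖(c - z) + (-c - z)‖ ≤ ‖c - z‖ + ‖-c - z‖ := norm_add_le _ _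
    have h5 : (c - z) + (-c - z) = -(2 * z) := by ring
    rw [h5, norm_neg, norm_mul] at h4
    have h6 : ‖(2 : ℂ)‖ = 2 := by norm_num
    rw [h6] at h4
    linarith
  rcases le_total ‖c - z‖ ‖-c - z‖ with h4 | h4
  · left
    by_contra hcon
    rw [not_le] at hcon
    have h5 : 49 / 100 ≤ ‖-c - z‖ := by linarith
    have h6 : (1 / 2000 : ℝ) * (49 / 100) ≤ ‖c - z‖ * ‖-c - z‖ := by gcongr
    norm_num at h6
    linarith
  · right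
    by_contra hcon
    rw [not_le] at hcon
    have h5 : 49 / 100 ≤ ‖c - z‖ := by linarith
    have h6 : (49 / 100 : ℝ) * (1 / 2000) ≤ ‖c - z‖ * ‖-c - z‖ := by gcongr
    norm_num at h6
    linarith

private theorem fin_of {c : ℂ} {D : Dd} {σ : ℂ} (hr : D.r = 4294967) (hz : 49 / 100 ≤ ‖D.c‖)
    (hσ : ‖D.c ^ 2 - σ‖ ≤ 1 / 1000000) (h : ‖c ^ 2 - σ‖ ≤ 5 / 100000) : c ∈ D.CB ∨ -c ∈ D.CB := by
  have hR : (1 / 2000 : ℝ) ≤ D.R := by rw [Dd.R, hr]; norm_num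
  rcases dist_of hz hσ h with h1 | h1
  · left
    rw [Dd.CB, mem_closedBall, dist_eq_norm]
    exact h1.trans hR
  · right
    rw [Dd.CB, mem_closedBall, dist_eq_norm]
    exact h1.trans hR

private theorem cX1 : 49 / 100 ≤ ‖crX.c‖ := by
  apply nge
  simp only [Dd.c, cpt, crX]
  norm_num

private theorem cU1 : 49 / 100 ≤ ‖crU.c‖ := by
  apply nge
  simp only [Dd.c, cpt, crU]
  norm_num

private theorem cW1 : 49 / 100 ≤ ‖crW.c‖ := by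
  apply nge
  simp only [Dd.c, cpt, crW]
  norm_num

private theorem cX2 : ‖crX.c ^ 2 - sX‖ ≤ 1 / 1000000 := by
  apply nle (by norm_num)
  simp only [Dd.c, cpt, crX, sX, pow_two, Complex.sub_re, Complex.sub_im, Complex.mul_re, Complex.mul_im]
  norm_num

private theorem cU2 : ‖crU.c ^ 2 - sU‖ ≤ 1 / 1000000 := by
  apply nle (by norm_num)
  simp only [Dd.c, cpt, crU, sU, pow_two, Complex.sub_re, Complex.sub_im, Complex.mul_re, Complex.mul_im]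
  norm_num

private theorem cW2 : ‖crW.c ^ 2 - sW‖ ≤ 1 / 1000000 := by
  apply nle (by norm_num)
  simp only [Dd.c, cpt, crW, sW, pow_two, Complex.sub_re, Complex.sub_im, Complex.mul_re, Complex.mul_im]
  norm_num

theorem crit_loc {c : ℂ} (hc : g7.derivative.eval c = 0) :
    ∃ D ∈ [crX, crU, crW], c ∈ D.CB ∨ -c ∈ D.CB := by
  have h : 7 * (c ^ 2) ^ 3 + 5 * ga * (c ^ 2) ^ 2 + 3 * gb * (c ^ 2) + gc = 0 := by
    rw [← hc, deriv_g7]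
    ring
  have hp := prod_small h
  by_cases hX : ‖c ^ 2 - sX‖ < 35 / 100
  · exact ⟨crX, by simp, fin_of rfl cX1 cX2 (three d_XU d_XW hX hp)⟩
  by_cases hU : ‖c ^ 2 - sU‖ < 35 / 100
  · refine ⟨crU, by simp, fin_of rfl cU1 cU2 (three (a := sU) (b := sX) (d := sW) ?_ d_UW hU ?_)⟩
    · rw [norm_sub_rev]; exact d_XU
    · linarith [mul_comm ‖c ^ 2 - sX‖ ‖c ^ 2 - sU‖, mul_comm (‖c ^ 2 - sX‖ * ‖c ^ 2 - sU‖) ‖c ^ 2 - sW‖,
        (by ring : ‖c ^ 2 - sU‖ * ‖c ^ 2 - sX‖ * ‖c ^ 2 - sW‖ = ‖c ^ 2 - sX‖ * ‖c ^ 2 - sU‖ * ‖c ^ 2 - sW‖)]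
  by_cases hW : ‖c ^ 2 - sW‖ < 35 / 100
  · refine ⟨crW, by simp, fin_of rfl cW1 cW2 (three (a := sW) (b := sX) (d := sU) ?_ ?_ hW ?_)⟩
    · rw [norm_sub_rev]; exact d_XW
    · rw [norm_sub_rev]; exact d_UW
    · linarith [(by ring : ‖c ^ 2 - sW‖ * ‖c ^ 2 - sX‖ * ‖c ^ 2 - sU‖ = ‖c ^ 2 - sX‖ * ‖c ^ 2 - sU‖ * ‖c ^ 2 - sW‖)]
  exfalso
  rw [not_lt] at hX hU hW
  have h6 : (35 / 100 : ℝ) * (35 / 100) * (35 / 100) ≤ ‖c ^ 2 - sX‖ * ‖c ^ 2 - sU‖ * ‖c ^ 2 - sW‖ := by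
    gcongr
  norm_num at h6
  linarith

end Pool.Agent.JH
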