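import Pool.Agent.Lib.MP_8ebc20_an_R.STrap
import Pool.Agent.Lib.MP_8ebc20_an.R.Crit
import Pool.Agent.Lib.MP_8ebc20_an.R.CI

/-!
# R.TRAP7: the polynomial `g7` is hyperbolic
-/

set_option autoImplicit false

namespace Pool.Agent.JH

open Polynomial Set Metric Filter Topology

section gen

variable {f : ℂ[X]}

theorem hyp_of_traps' (hd : 2 ≤ f.natDegree) (hm : f.Monic) {m : ℕ} {φ : ℕ → ℕ}
    (hφ : ∀ i < m, φ i < m) {c : ℕ → ℂ}
    {r : ℕ → ℝ}
    (htr : ∀ i < m, ∀ z ∈ closedBall (c i) (r i), ev f z ∈ ball (c (φ i)) (r (φ i)))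
    (hcr : ∀ ζ : ℂ, f.derivative.eval ζ = 0 → ∃ n i : ℕ, i < m ∧
      (ev f)^[n] ζ ∈ closedBall (c i) (r i)) :
    Hyp f (frontier (KSet f)) ∧ ∀ i < m, closedBall (c i) (r i) ⊆ interior (KSet f) := by
  -- orbits stay in the union of the discs
  have horb : ∀ n : ℕ, ∀ i < m, ∀ z ∈ closedBall (c i) (r i), ∃ j < m,
      (ev f)^[n] z ∈ closedBall (c j) (r j) := by
    intro n
    induction n with
    | zero => intro i hi z hz; exact ⟨i, hi, hz⟩
    | succ n ih =>
      intro i hi z hz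
      rw [Function.iterate_succ_apply]
      exact ih _ (hφ i hi) _ (ball_subset_closedBall (htr i hi z hz))
  have hbdd : Bornology.IsBounded (⋃ i ∈ Finset.range m, closedBall (c i) (r i)) := by
    rw [Bornology.isBounded_biUnion_finset]
    exact fun i _ => isBounded_closedBall
  have hK : ∀ i < m, closedBall (c i) (r i) ⊆ KSet f := by
    intro i hi z hz
    refine hbdd.subset ?_
    rintro _ ⟨n, rfl⟩
    obtain ⟨j, hj, hjz⟩ := horb n i hi z hz
    exact mem_biUnion (Finset.mem_coe.2 (Finset.mem_range.2 hj)) hjz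
  have hint : ∀ i < m, closedBall (c i) (r i) ⊆ interior (KSet f) := by
    intro i hi z hz
    refine it_pre_int hd 1 ?_
    have h1 := htr i hi z hz
    have h2 : ball (c (φ i)) (r (φ i)) ⊆ interior (KSet f) :=
      interior_maximal (ball_subset_closedBall.trans (hK _ (hφ i hi))) isOpen_ball
    exact h2 h1
  have hcrit : ∀ ζ : ℂ, f.derivative.eval ζ = 0 → ζ ∈ interior (KSet f) := by
    intro ζ hζ
    obtain ⟨n, i, hi, hn⟩ := hcr ζ hζ
    exact it_pre_int hd n (hint i hi hn)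
  refine ⟨⟨hd, hm, rfl, fun ζ hζ => interior_subset (hcrit ζ hζ), ?_⟩, hint⟩
  -- the postcritical set
  have hder : f.derivative ≠ 0 := by
    intro h0
    have := Polynomial.derivative_eq_zero.1 h0
    omega
  have hfin : {ζ : ℂ | f.derivative.eval ζ = 0}.Finite := by
    refine (f.derivative.roots.toFinset.finite_toSet).subset ?_
    intro ζ hζ
    rw [Finset.mem_coe, Multiset.mem_toFinset, Polynomial.mem_roots hder]
    exact hζ
  have hcr' : ∀ ζ : ℂ, ∃ n : ℕ, f.derivative.eval ζ = 0 →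
      ∃ i < m, (ev f)^[n] ζ ∈ closedBall (c i) (r i) := by
    intro ζ
    by_cases hζ : f.derivative.eval ζ = 0
    · obtain ⟨n, i, hi, hn⟩ := hcr ζ hζ
      exact ⟨n, fun _ => ⟨i, hi, hn⟩⟩
    · exact ⟨0, fun h => absurd h hζ⟩
  choose N hN using hcr'
  set A : Set ℂ := (⋃ ζ ∈ {ζ : ℂ | f.derivative.eval ζ = 0},
    ((Finset.range (N ζ)).image (fun j => (ev f)^[j] ζ) : Set ℂ)) ∪
    ⋃ i ∈ Finset.range m, closedBall (c i) (r i) with hA
  have hAc : IsClosed A := by
    refine IsClosed.union ?_ ?_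
    · exact hfin.isClosed_biUnion fun ζ _ => (Finset.finite_toSet _).isClosed
    · exact (Finset.range m).finite_toSet.isClosed_biUnion fun i _ => isClosed_closedBall
  have hAint : A ⊆ interior (KSet f) := by
    rintro w (hw | hw)
    · obtain ⟨ζ, hζ, hw⟩ := mem_iUnion₂.1 hw
      rw [Finset.mem_coe, Finset.mem_image] at hw
      obtain ⟨j, hj, rfl⟩ := hw
      rw [Finset.mem_range] at hj
      obtain ⟨i, hi, hn⟩ := hN ζ hζ
      refine it_pre_int hd (N ζ - j) ?_
      rw [← Function.iterate_add_apply, Nat.sub_add_cancel hj.le]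
      exact hint i hi hn
    · obtain ⟨i, hi, hw⟩ := mem_iUnion₂.1 hw
      exact hint i (Finset.mem_range.1 (Finset.mem_coe.1 hi)) hw
  have hPC : PC f ⊆ A := by
    refine closure_minimal ?_ hAc
    rintro w ⟨ζ, n, -, hζ, rfl⟩
    rcases lt_or_ge n (N ζ) with h | h
    · left
      refine mem_biUnion (show ζ ∈ {ζ : ℂ | f.derivative.eval ζ = 0} from hζ) ?_
      rw [Finset.mem_coe, Finset.mem_image]
      exact ⟨n, Finset.mem_range.2 h, rfl⟩
    · right
      obtain ⟨i, hi, hn⟩ := hN ζ hζ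
      obtain ⟨j, hj, hjz⟩ := horb (n - N ζ) i hi _ hn
      rw [← Function.iterate_add_apply, Nat.sub_add_cancel h] at hjz
      exact mem_biUnion (Finset.mem_coe.2 (Finset.mem_range.2 hj)) hjz
  exact (disjoint_interior_frontier (s := KSet f)).mono_left (hPC.trans hAint)

end gen

/-- the trap discs -/
def trpN : ℕ → Dd
  | 0 => trp0
  | 1 => trp1
  | 2 => trp2
  | 3 => trp3
  | 4 => trp4
  | _ => trp5

/-- centres of the trap discs and of the opposite discs -/
noncomputable def trpC (i : ℕ) : ℂ := if i < 6 then (trpN i).c else -(trpN (i - 6)).c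

/-- radii -/
noncomputable def trpR (i : ℕ) : ℝ := if i < 6 then (trpN i).R else (trpN (i - 6)).R

/-- the cyclic permutation -/
def trpF (i : ℕ) : ℕ := if i < 6 then (i + 1) % 6 else (i - 6 + 1) % 6 + 6

theorem trap_step {D T : Dd} (h : (stp D fun D => chkIn D T) = true) {z : ℂ} (hz : z ∈ D.CB) :
    gF z ∈ T.B := by
  obtain ⟨D', h1, h2⟩ := stp_sound D
  rw [h1] at h
  exact in_sound h (h2 hz)

theorem trpN_step (i : ℕ) (hi : i < 6) {z : ℂ} (hz : z ∈ (trpN i).CB) :
    gF z ∈ (trpN ((i + 1) % 6)).B := by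
  interval_cases i
  · exact trap_step trp_ok0 hz
  · exact trap_step trp_ok1 hz
  · exact trap_step trp_ok2 hz
  · exact trap_step trp_ok3 hz
  · exact trap_step trp_ok4 hz
  · exact trap_step trp_ok5 hz

theorem neg_dist (c z : ℂ) : ‖z - -c‖ = ‖-z - c‖ := by
  rw [← norm_neg]
  congr 1
  ring

theorem neg_mem_CB {D : Dd} {z : ℂ} : z ∈ closedBall (-D.c) D.R ↔ -z ∈ D.CB := by
  rw [Dd.CB, mem_closedBall, mem_closedBall, dist_eq_norm, dist_eq_norm, neg_dist]

theorem neg_mem_B {D : Dd} {z : ℂ} : z ∈ ball (-D.c) D.R ↔ -z ∈ D.B := by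
  rw [Dd.B, mem_ball, mem_ball, dist_eq_norm, dist_eq_norm, neg_dist]

theorem gF_it_neg (n : ℕ) (z : ℂ) : gF^[n] (-z) = -gF^[n] z := by
  induction n generalizing z with
  | zero => rfl
  | succ n ih => rw [Function.iterate_succ_apply, Function.iterate_succ_apply, gF_neg, ih]

theorem hyp7' : Hyp g7 (frontier (KSet g7)) ∧
    ∀ i < 12, closedBall (trpC i) (trpR i) ⊆ interior (KSet g7) := by
  refine hyp_of_traps' (φ := trpF) (by rw [natDegree_g7]; norm_num) monic_g7 ?_ ?_ ?_
  · intro i hi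
    unfold trpF
    split_ifs <;> omega
  · intro i hi z hz
    rw [ev_g7]
    by_cases h6 : i < 6
    · have h7 : (i + 1) % 6 < 6 := Nat.mod_lt _ (by norm_num)
      simp only [trpC, trpR, trpF, if_pos h6, if_pos h7] at hz ⊢
      exact trpN_step i h6 hz
    · have h7 : ¬ ((i - 6 + 1) % 6 + 6 < 6) := by omega
      simp only [trpC, trpR, trpF, if_neg h6, if_neg h7, Nat.add_sub_cancel] at hz ⊢
      rw [neg_mem_B, ← gF_neg]
      exact trpN_step (i - 6) (by omega) (neg_mem_CB.mp hz)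
  · intro ζ hζ
    rw [ev_g7]
    have key : ∀ D ∈ [crX, crU, crW], ∀ z ∈ D.CB, ∃ n : ℕ, gF^[n] z ∈ trp0.B := by
      intro D hD z hz
      simp only [List.mem_cons, List.not_mem_nil, or_false] at hD
      rcases hD with rfl | rfl | rfl
      · exact ⟨_, to_sound cr_okX z hz⟩
      · exact ⟨_, to_sound cr_okU z hz⟩
      · exact ⟨_, to_sound cr_okW z hz⟩
    obtain ⟨D, hD, h | h⟩ := crit_loc hζ
    · obtain ⟨n, hn⟩ := key D hD _ h
      refine ⟨n, 0, by norm_num, ?_⟩
      simp only [trpC, trpR, trpN, if_pos (by norm_num : (0:ℕ) < 6)]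
      exact ball_subset_closedBall hn
    · obtain ⟨n, hn⟩ := key D hD _ h
      refine ⟨n, 6, by norm_num, ?_⟩
      simp only [trpC, trpR, trpN, if_neg (by norm_num : ¬ (6:ℕ) < 6), Nat.sub_self]
      rw [neg_mem_CB, ← gF_it_neg]
      exact ball_subset_closedBall hn

theorem hyp7 : Hyp g7 (frontier (KSet g7)) := hyp7'.1

theorem trp0_int : trp0.CB ⊆ interior (KSet g7) := by
  have := hyp7'.2 0 (by norm_num)
  simp only [trpC, trpR, trpN, if_pos (by norm_num : (0:ℕ) < 6)] at this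
  exact this

end Pool.Agent.JH
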