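import Pool.Agent.Lib.MP_8ebc20_an.R.Data

/-!
# RC0: ray certificates checked by the kernel (generated)
-/

set_option autoImplicit false

namespace Pool.Agent.JH


theorem rc0 : chkAll ray0 ray1 gs0 = true := by decide +kernel

theorem rc1 : chkAll ray1 ray2 gs0 = true := by decide +kernel

theorem rc2 : chkAll ray2 ray3 gs0 = true := by decide +kernel

theorem rc3 : chkAll ray3 ray4 gs0 = true := by decide +kernel

end Pool.Agent.JH
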