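import Pool.Agent.Lib.MP_8ebc20_an.R.Data

/-!
# RC2: ray certificates checked by the kernel (generated)
-/

set_option autoImplicit false

namespace Pool.Agent.JH


theorem rc8 : chkAll ray8 ray5 gs0 = true := by decide +kernel

theorem rc9 : chkAll ray9 ray8 gs0 = true := by decide +kernel

theorem rc10 : chkAll ray10 ray11 gs0 = true := by decide +kernel

theorem rc11 : chkAll ray11 ray2 gs0 = true := by decide +kernel

end Pool.Agent.JH
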