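import Pool.Agent.Lib.MP_8ebc20_an.R.Data

/-!
# RC3: ray certificates checked by the kernel (generated)
-/

set_option autoImplicit false

namespace Pool.Agent.JH


theorem rc12 : chkAll ray12 ray13 gs0 = true := by decide +kernel

theorem rc13 : chkAll ray13 ray0 gs0 = true := by decide +kernel

theorem rc14 : chkAll ray14 ray13 gs0 = true := by decide +kernel

theorem rc15 : chkAll ray15 ray16 gs0 = true := by decide +kernel

end Pool.Agent.JH
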