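import Pool.Agent.Lib.MP_8ebc20_an.R.Data

/-!
# RC4: ray certificates checked by the kernel (generated)
-/

set_option autoImplicit false

namespace Pool.Agent.JH


theorem rc16 : chkAll ray16 ray3 gs0 = true := by decide +kernel

theorem rc17 : chkAll ray17 ray18 gs0 = true := by decide +kernel

theorem rc18 : chkAll ray18 ray19 gs0 = true := by decide +kernel

theorem rc19 : chkAll ray19 ray17 gs0 = true := by decide +kernel

end Pool.Agent.JH
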