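import Pool.Agent.Lib.MP_8ebc20_an.R.Data

/-!
# RC5: ray certificates checked by the kernel (generated)
-/

set_option autoImplicit false

namespace Pool.Agent.JH


theorem rc20 : chkAll ray20 ray20 gs0 = true := by decide +kernel

theorem rc21 : chkAll ray21 ray21 gs0 = true := by decide +kernel

end Pool.Agent.JH
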