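import Pool.Agent.Lib.MP_8ebc20_an.R.Tab
import Pool.Agent.Lib.MP_8ebc20_an.R.Trap7

/-!
# R.CELL: connected sets in the interior of `K` with prescribed points in the closure
-/

set_option autoImplicit false

namespace Pool.Agent.JH

open Polynomial Set Metric Filter Topology

/-! ### chains -/

/-- the union of the closed discs of a chain -/
def chSet : List (ℕ × Dd) → Set ℂ
  | [] => ∅
  | p :: ps => p.2.CB ∪ chSet ps

theorem Dd.c_mem (D : Dd) : D.c ∈ D.CB := mem_closedBall_self D.R_nonneg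

theorem chSet_mem : ∀ (l : List (ℕ × Dd)) (p : ℕ × Dd), p ∈ l → p.2.CB ⊆ chSet l
  | [], _, h => absurd h (by simp)
  | a :: l, p, h => by
    rcases List.mem_cons.mp h with rfl | h
    · exact subset_union_left
    · exact (chSet_mem l p h).trans subset_union_right

theorem it_pre7 (n : ℕ) {z : ℂ} (h : gF^[n] z ∈ interior (KSet g7)) : z ∈ interior (KSet g7) := by
  rw [← ev_g7] at h
  exact it_pre_int (by rw [natDegree_g7]; norm_num) n h

theorem chk_int {n : ℕ} {D : Dd} (h : chkTo n D trp0 = true) : D.CB ⊆ interior (KSet g7) :=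
  fun z hz => it_pre7 n (trp0_int (ball_subset_closedBall (to_sound h z hz)))

theorem CB_preconn (D : Dd) : IsPreconnected D.CB := (convex_closedBall _ _).isPreconnected

theorem chain_sound : ∀ l : List (ℕ × Dd), chkChain trp0 l = true →
    IsPreconnected (chSet l) ∧ chSet l ⊆ interior (KSet g7)
  | [], h => by simp [chkChain] at h
  | [p], h => by
    have h' : chSet [p] = p.2.CB := by simp [chSet]
    rw [h']
    exact ⟨CB_preconn _, chk_int h⟩
  | p :: p' :: ps, h => by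
    simp only [chkChain, Bool.and_eq_true] at h
    obtain ⟨⟨h1, h2⟩, h3⟩ := h
    obtain ⟨g1, g2⟩ := chain_sound (p' :: ps) h3
    refine ⟨?_, ?_⟩
    · exact IsPreconnected.union p'.2.c (cen_sound h2) (chSet_mem (p' :: ps) p' (by simp) p'.2.c_mem)
        (CB_preconn _) g1
    · exact union_subset (chk_int h1) g2

/-! ### inverse branches on the tail balls -/

open Classical in
/-- the inverse branch -/
noncomputable def inv7 (p : Fin 12) (w : ℂ) : ℂ :=
  if h : w ∈ gF '' (tbI p).B then h.choose else 0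

theorem inv7_spec {p : Fin 12} {w : ℂ} (hw : w ∈ (tbI (fpI p)).B) :
    inv7 p w ∈ (tbI p).B ∧ gF (inv7 p w) = w := by
  have h : w ∈ gF '' (tbI p).B := (tail_sound (tail_chk p)).2.1 hw
  unfold inv7
  rw [dif_pos h]
  exact h.choose_spec

theorem B_sub_CB (D : Dd) : D.B ⊆ D.CB := ball_subset_closedBall

theorem inv7_uniq {p : Fin 12} {z : ℂ} (hz : z ∈ (tbI p).B) (hw : gF z ∈ (tbI (fpI p)).B) :
    inv7 p (gF z) = z := by
  obtain ⟨h1, h2⟩ := inv7_spec hw
  exact (tail_sound (tail_chk p)).1 (B_sub_CB _ h1) (B_sub_CB _ hz) h2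

/-- the radii -/
theorem tbI_pos (p : Fin 12) : 0 < (tbI p).R := by
  have h : ∀ p : Fin 12, 0 < (tbI p).r := by decide
  unfold Dd.R
  have := h p
  positivity

/-- expansion, normalized by the radii -/
theorem exists_lam : ∃ lam : ℝ, 0 < lam ∧ lam < 1 ∧ ∀ p : Fin 12, ∀ x ∈ (tbI p).CB,
    ∀ y ∈ (tbI p).CB, ‖x - y‖ / (tbI p).R ≤ lam * (‖gF x - gF y‖ / (tbI (fpI p)).R) := by
  have h : ∀ p : Fin 12, ∃ m : ℝ, m < 1 ∧ ∀ x ∈ (tbI p).CB,
      ∀ y ∈ (tbI p).CB, ‖x - y‖ / (tbI p).R ≤ m * (‖gF x - gF y‖ / (tbI (fpI p)).R) := by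
    intro p
    obtain ⟨_, _, l, hl, h1, h2⟩ := tail_sound (tail_chk p)
    have hR := tbI_pos p
    have hR' := tbI_pos (fpI p)
    have h3 : (tbI (fpI p)).R < l * (tbI p).R := by
      have := norm_nonneg (gF (tbI p).c - (tbI (fpI p)).c)
      linarith
    refine ⟨(tbI (fpI p)).R / (l * (tbI p).R), (div_lt_one (by positivity)).2 h3, fun x hx y hy => ?_⟩
    have h4 := h2 x hx y hy
    have h5 : (tbI (fpI p)).R / (l * (tbI p).R) * (‖gF x - gF y‖ / (tbI (fpI p)).R) =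
        (‖gF x - gF y‖ / l) / (tbI p).R := by
      field_simp
    rw [h5]
    gcongr
    rw [le_div_iff₀ hl]
    linarith
  choose m hm1 hm2 using h
  obtain ⟨p0, -, hp0⟩ := Finset.exists_max_image (Finset.univ : Finset (Fin 12)) m ⟨0, by simp⟩
  refine ⟨max (m p0) (1 / 2), by positivity, by
    rw [max_lt_iff]; exact ⟨hm1 p0, by norm_num⟩, fun p x hx y hy => ?_⟩
  refine (hm2 p x hx y hy).trans ?_
  have hR' := tbI_pos (fpI p)
  have : 0 ≤ ‖gF x - gF y‖ / (tbI (fpI p)).R := by positivity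
  exact mul_le_mul_of_nonneg_right ((hp0 p (by simp)).trans (le_max_left _ _)) this

theorem inv7_cont (p : Fin 12) : ContinuousOn (inv7 p) (tbI (fpI p)).B := by
  obtain ⟨lam, h0, h1, hl⟩ := exists_lam
  have hR := tbI_pos p
  have hR' := tbI_pos (fpI p)
  rw [Metric.continuousOn_iff]
  intro w hw ε hε
  refine ⟨ε * (tbI (fpI p)).R / (tbI p).R, by positivity, fun w' hw' hd => ?_⟩
  obtain ⟨a1, a2⟩ := inv7_spec hw
  obtain ⟨b1, b2⟩ := inv7_spec hw'
  have := hl p _ (B_sub_CB _ b1) _ (B_sub_CB _ a1)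
  rw [a2, b2, div_le_iff₀ hR] at this
  rw [dist_eq_norm] at hd ⊢
  refine this.trans_lt ?_
  have h3 : ‖w' - w‖ / (tbI (fpI p)).R < ε / (tbI p).R := by
    rw [div_lt_div_iff₀ hR' hR]
    rw [lt_div_iff₀ hR] at hd
    exact hd
  have h4 : lam * (‖w' - w‖ / (tbI (fpI p)).R) ≤ 1 * (‖w' - w‖ / (tbI (fpI p)).R) := by gcongr
  calc lam * (‖w' - w‖ / (tbI (fpI p)).R) * (tbI p).R
      ≤ 1 * (‖w' - w‖ / (tbI (fpI p)).R) * (tbI p).R := by gcongr
    _ < ε / (tbI p).R * (tbI p).R := by rw [one_mul]; gcongr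
    _ = ε := by field_simp

/-- compositions -/
noncomputable def invK : ℕ → Fin 12 → ℂ → ℂ
  | 0, _ => id
  | k + 1, p => inv7 p ∘ invK k (fpI p)

theorem it_fp (k : ℕ) (p : Fin 12) : fpI^[k + 1] p = fpI^[k] (fpI p) := rfl

theorem invK_spec : ∀ (k : ℕ) (p : Fin 12) {w : ℂ}, w ∈ (tbI (fpI^[k] p)).B →
    invK k p w ∈ (tbI p).B ∧ gF^[k] (invK k p w) = w
  | 0, _, _, hw => ⟨hw, rfl⟩
  | k + 1, p, w, hw => by
    obtain ⟨h1, h2⟩ := invK_spec k (fpI p) hw
    obtain ⟨h3, h4⟩ := inv7_spec h1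
    refine ⟨h3, ?_⟩
    rw [Function.iterate_succ_apply]
    simp only [invK, Function.comp_apply]
    rw [h4, h2]

theorem invK_cont : ∀ (k : ℕ) (p : Fin 12), ContinuousOn (invK k p) (tbI (fpI^[k] p)).B
  | 0, _ => continuousOn_id
  | k + 1, p => (inv7_cont p).comp (invK_cont k (fpI p)) fun _ hw => (invK_spec k (fpI p) hw).1

theorem invK_uniq : ∀ (k : ℕ) (p : Fin 12) {z : ℂ},
    (∀ j ≤ k, gF^[j] z ∈ (tbI (fpI^[j] p)).B) → invK k p (gF^[k] z) = z
  | 0, _, _, _ => rfl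
  | k + 1, p, z, h => by
    have h1 : invK k (fpI p) (gF^[k] (gF z)) = gF z :=
      invK_uniq k (fpI p) fun j hj => h (j + 1) (by omega)
    rw [Function.iterate_succ_apply]
    simp only [invK, Function.comp_apply]
    rw [h1]
    exact inv7_uniq (h 0 (by omega)) (h 1 (by omega))

variable {pt : Fin 12 → ℂ}

theorem invK_contr (hpt : ∀ p, pt p ∈ (tbI p).CB) (hf : ∀ p, gF (pt p) = pt (fpI p)) {lam : ℝ}
    (h0 : 0 < lam)
    (hl : ∀ p : Fin 12, ∀ x ∈ (tbI p).CB, ∀ y ∈ (tbI p).CB,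
      ‖x - y‖ / (tbI p).R ≤ lam * (‖gF x - gF y‖ / (tbI (fpI p)).R)) :
    ∀ (k : ℕ) (p : Fin 12) {w : ℂ}, w ∈ (tbI (fpI^[k] p)).B →
      ‖invK k p w - pt p‖ / (tbI p).R ≤
        lam ^ k * (‖w - pt (fpI^[k] p)‖ / (tbI (fpI^[k] p)).R)
  | 0, _, _, _ => by simp [invK]
  | k + 1, p, w, hw => by
    obtain ⟨h1, h2⟩ := invK_spec k (fpI p) hw
    obtain ⟨h3, h4⟩ := inv7_spec h1
    have h5 := hl p _ (B_sub_CB _ h3) _ (hpt p)
    rw [h4, hf] at h5
    have h6 := invK_contr hpt hf h0 hl k (fpI p) hw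
    refine h5.trans ?_
    rw [pow_succ', mul_assoc]
    exact mul_le_mul_of_nonneg_left h6 h0.le

/-! ### the set near `ω` -/

theorem dY_eq : dY = ⟨-772028618, 3661395120, 8811968⟩ := rfl

theorem fp6 : fpI^[6] 0 = 0 := by decide

theorem chF_sub : chSet chF ⊆ (tbI 0).B := by
  have h := chF_in
  rw [List.all_eq_true] at h
  have key : ∀ l : List (ℕ × Dd), (∀ p ∈ l, p.2.CB ⊆ tb0.B) → chSet l ⊆ tb0.B := by
    intro l
    induction l with
    | nil => intro _; exact empty_subset _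
    | cons a l ih =>
      intro hl
      exact union_subset (hl a (by simp)) (ih fun p hp => hl p (List.mem_cons_of_mem _ hp))
  exact key chF fun p hp => in_sound (h p hp)

theorem dY_sub : dY.CB ⊆ chSet chF := chSet_mem chF (30, dY) (by simp [chF, dY])

/-- the cell near `ω` -/
noncomputable def cE : Set ℂ := ⋃ m : ℕ, (invK 6 0)^[m] '' chSet chF

theorem maps6 : MapsTo (invK 6 0) (tbI 0).B (tbI 0).B := fun w hw => by
  have := (invK_spec 6 0 (w := w) (by rw [fp6]; exact hw)).1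
  exact this

theorem cont6 : ContinuousOn (invK 6 0) (tbI 0).B := by
  have := invK_cont 6 0
  rwa [fp6] at this

theorem maps6_it (m : ℕ) : MapsTo (invK 6 0)^[m] (tbI 0).B (tbI 0).B := maps6.iterate m

theorem cont6_it (m : ℕ) : ContinuousOn (invK 6 0)^[m] (tbI 0).B := by
  induction m with
  | zero => exact continuousOn_id
  | succ m ih =>
    rw [Function.iterate_succ]
    exact ih.comp cont6 maps6

theorem path_ptF : (∀ j ≤ 6, gF^[j] ptF.c ∈ (tbI (fpI^[j] 0)).B) ∧ gF^[6] ptF.c ∈ dY.B := by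
  have h := path_sound path_okF _ ptF.c_mem
  have h6 : gF^[6] ptF.c ∈ dY.B := h 6 (by simp)
  refine ⟨fun j hj => ?_, h6⟩
  interval_cases j
  · exact h 0 (by simp)
  · exact h 1 (by simp)
  · exact h 2 (by simp)
  · exact h 3 (by simp)
  · exact h 4 (by simp)
  · exact h 5 (by simp)
  · exact chF_sub (dY_sub (B_sub_CB _ h6))

theorem ptF_mem : ptF.c ∈ chSet chF := by
  have : ptF.c = (⟨-770745625, 3651789740, 5178653⟩ : Dd).c := rfl
  rw [this]
  exact chSet_mem chF (36, ⟨-770745625, 3651789740, 5178653⟩) (by simp [chF]) (Dd.c_mem _)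

theorem ptF_eq : invK 6 0 (gF^[6] ptF.c) = ptF.c := invK_uniq 6 0 path_ptF.1

theorem cE_sub : cE ⊆ (tbI 0).B := by
  refine iUnion_subset fun m => ?_
  rintro _ ⟨x, hx, rfl⟩
  exact maps6_it m (chF_sub hx)

theorem it_invK (m : ℕ) {w : ℂ} (hw : w ∈ (tbI 0).B) : ∃ n : ℕ, gF^[n] ((invK 6 0)^[m] w) = w := by
  induction m with
  | zero => exact ⟨0, rfl⟩
  | succ m ih =>
    obtain ⟨n, hn⟩ := ih
    refine ⟨n + 6, ?_⟩
    rw [Function.iterate_succ_apply' (invK 6 0), Function.iterate_add_apply]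
    rw [(invK_spec 6 0 (w := (invK 6 0)^[m] w) (by rw [fp6]; exact maps6_it m hw)).2, hn]

theorem cE_int : cE ⊆ interior (KSet g7) := by
  refine iUnion_subset fun m => ?_
  rintro _ ⟨x, hx, rfl⟩
  obtain ⟨n, hn⟩ := it_invK m (chF_sub hx)
  exact it_pre7 n (by rw [hn]; exact (chain_sound chF ch_okF).2 hx)

theorem cE_preconn : IsPreconnected cE := by
  refine IsPreconnected.iUnion_of_chain (fun m => ?_) (fun m => ?_)
  · exact (chain_sound chF ch_okF).1.image _ ((cont6_it m).mono chF_sub)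
  · refine ⟨(invK 6 0)^[m] ptF.c, ⟨_, ptF_mem, rfl⟩, ?_⟩
    refine ⟨gF^[6] ptF.c, dY_sub (B_sub_CB _ path_ptF.2), ?_⟩
    have e : (invK 6 0)^[Order.succ m] (gF^[6] ptF.c) =
        (invK 6 0)^[m] (invK 6 0 (gF^[6] ptF.c)) := Function.iterate_succ_apply (invK 6 0) m _
    rw [e, ptF_eq]

theorem dY_cE : dY.CB ⊆ cE := by
  refine dY_sub.trans ?_
  intro x hx
  exact mem_iUnion.2 ⟨0, x, hx, rfl⟩

theorem om_near (hpt : ∀ p, pt p ∈ (tbI p).CB) (hf : ∀ p, gF (pt p) = pt (fpI p)) (ε : ℝ)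
    (hε : 0 < ε) : ∃ e ∈ cE, ‖e - pt 0‖ / (tbI 0).R < ε := by
  obtain ⟨lam, h0, h1, hl⟩ := exists_lam
  set y : ℂ := dY.c with hy
  have hyB : y ∈ (tbI 0).B := chF_sub (dY_sub dY.c_mem)
  have key : ∀ m : ℕ, ‖(invK 6 0)^[m] y - pt 0‖ / (tbI 0).R ≤
      (lam ^ 6) ^ m * (‖y - pt 0‖ / (tbI 0).R) := by
    intro m
    induction m with
    | zero => simp
    | succ m ih =>
      rw [Function.iterate_succ_apply' (invK 6 0)]
      have := invK_contr hpt hf h0 hl 6 0 (w := (invK 6 0)^[m] y) (by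
        rw [fp6]; exact maps6_it m hyB)
      rw [fp6] at this
      refine this.trans ?_
      rw [pow_succ' (lam ^ 6), mul_assoc]
      exact mul_le_mul_of_nonneg_left ih (by positivity)
  have hlim : Tendsto (fun m : ℕ => (lam ^ 6) ^ m * (‖y - pt 0‖ / (tbI 0).R)) atTop (𝓝 0) := by
    have := (tendsto_pow_atTop_nhds_zero_of_lt_one (r := lam ^ 6) (by positivity)
      (pow_lt_one₀ h0.le h1 (by norm_num))).mul_const (‖y - pt 0‖ / (tbI 0).R)
    rwa [zero_mul] at this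
  obtain ⟨m, hm⟩ := (hlim.eventually_lt_const hε).exists
  exact ⟨(invK 6 0)^[m] y, mem_iUnion.2 ⟨m, y, dY_sub dY.c_mem, rfl⟩, (key m).trans_lt hm⟩

theorem near_pt (hpt : ∀ p, pt p ∈ (tbI p).CB) (hf : ∀ p, gF (pt p) = pt (fpI p)) (k : ℕ)
    (p : Fin 12) (hk : fpI^[k] p = 0) : pt p ∈ closure (invK k p '' cE) := by
  obtain ⟨lam, h0, h1, hl⟩ := exists_lam
  rw [Metric.mem_closure_iff]
  intro ε hε
  have hR := tbI_pos p
  obtain ⟨e, he, he'⟩ := om_near hpt hf (ε / (tbI p).R) (by positivity)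
  refine ⟨invK k p e, ⟨e, he, rfl⟩, ?_⟩
  have := invK_contr hpt hf h0 hl k p (w := e) (by rw [hk]; exact cE_sub he)
  rw [hk] at this
  rw [dist_comm, dist_eq_norm]
  have h2 : lam ^ k ≤ 1 := pow_le_one₀ h0.le h1.le
  have h3 : 0 ≤ ‖e - pt 0‖ / (tbI 0).R := div_nonneg (norm_nonneg _) (Dd.R_nonneg _)
  have h4 : lam ^ k * (‖e - pt 0‖ / (tbI 0).R) ≤ 1 * (‖e - pt 0‖ / (tbI 0).R) := by gcongr
  have h5 : ‖invK k p e - pt p‖ / (tbI p).R < ε / (tbI p).R := by linarith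
  exact (div_lt_div_iff_of_pos_right hR).1 h5

theorem side (k : ℕ) (p : Fin 12) (hk : fpI^[k] p = 0) {a : ℂ}
    (ha : ∀ j < k, gF^[j] a ∈ (tbI (fpI^[j] p)).B) (ha' : gF^[k] a ∈ dY.CB) :
    IsPreconnected (invK k p '' cE) ∧ invK k p '' cE ⊆ interior (KSet g7) ∧
      a ∈ invK k p '' cE := by
  have hc := invK_cont k p
  rw [hk] at hc
  refine ⟨cE_preconn.image _ (hc.mono cE_sub), ?_, ⟨gF^[k] a, dY_cE ha', invK_uniq k p ?_⟩⟩
  · rintro _ ⟨e, he, rfl⟩
    refine it_pre7 k ?_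
    rw [(invK_spec k p (w := e) (by rw [hk]; exact cE_sub he)).2]
    exact cE_int he
  · intro j hj
    rcases hj.lt_or_eq with h | rfl
    · exact ha j h
    · rw [hk]
      exact cE_sub (dY_cE ha')

theorem cell_gen (hpt : ∀ p, pt p ∈ (tbI p).CB) (hf : ∀ p, gF (pt p) = pt (fpI p)) (k k' : ℕ)
    (p p' : Fin 12) (hk : fpI^[k] p = 0) (hk' : fpI^[k'] p' = 0) {a a' : ℂ}
    (ha : ∀ j < k, gF^[j] a ∈ (tbI (fpI^[j] p)).B) (ha' : gF^[k] a ∈ dY.CB)
    (hb : ∀ j < k', gF^[j] a' ∈ (tbI (fpI^[j] p')).B) (hb' : gF^[k'] a' ∈ dY.CB)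
    {l : List (ℕ × Dd)} (hl : chkChain trp0 l = true) (h1 : a ∈ chSet l) (h2 : a' ∈ chSet l) :
    ∃ P : Set ℂ, P ⊆ interior (KSet g7) ∧ IsPreconnected P ∧ pt p ∈ closure P ∧
      pt p' ∈ closure P := by
  obtain ⟨s1, s2, s3⟩ := side k p hk ha ha'
  obtain ⟨t1, t2, t3⟩ := side k' p' hk' hb hb'
  obtain ⟨c1, c2⟩ := chain_sound l hl
  refine ⟨invK k p '' cE ∪ chSet l ∪ invK k' p' '' cE, union_subset (union_subset s2 c2) t2, ?_,
    closure_mono (subset_union_left.trans subset_union_left) (near_pt hpt hf k p hk),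
    closure_mono subset_union_right (near_pt hpt hf k' p' hk')⟩
  exact IsPreconnected.union a' (Or.inr h2) t3 (IsPreconnected.union a s3 h1 s1 c1) t1

theorem path_of {D : Dd} {Ts : List Dd} (h : chkPath D Ts = true) (k : ℕ) (hk : k < Ts.length) :
    gF^[k] D.c ∈ (Ts[k]).B := path_sound h _ D.c_mem k hk

/-- the cell of `X` -/
theorem cell_X (hpt : ∀ p, pt p ∈ (tbI p).CB) (hf : ∀ p, gF (pt p) = pt (fpI p)) :
    ∃ P : Set ℂ, P ⊆ interior (KSet g7) ∧ IsPreconnected P ∧ pt 0 ∈ closure P ∧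
      pt 3 ∈ closure P := by
  refine cell_gen hpt hf 0 6 0 3 (by decide) (by decide) (a := dY.c) (a' := ptX.c)
    (fun j hj => absurd hj (by omega)) dY.c_mem (fun j hj => ?_) ?_ ch_okX ?_ ?_
  · interval_cases j
    · exact path_of path_okX 0 (by simp)
    · exact path_of path_okX 1 (by simp)
    · exact path_of path_okX 2 (by simp)
    · exact path_of path_okX 3 (by simp)
    · exact path_of path_okX 4 (by simp)
    · exact path_of path_okX 5 (by simp)
  · exact B_sub_CB _ (path_of path_okX 6 (by simp))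
  · exact chSet_mem chX (30, dY) (by simp [chX, dY]) dY.c_mem
  · have : ptX.c = (⟨-812992030, 4022766483, 4824758⟩ : Dd).c := rfl
    rw [this]
    exact chSet_mem chX (36, ⟨-812992030, 4022766483, 4824758⟩) (by simp [chX]) (Dd.c_mem _)

/-- the cell of `U` -/
theorem cell_U (hpt : ∀ p, pt p ∈ (tbI p).CB) (hf : ∀ p, gF (pt p) = pt (fpI p)) :
    ∃ P : Set ℂ, P ⊆ interior (KSet g7) ∧ IsPreconnected P ∧ pt 4 ∈ closure P ∧
      pt 6 ∈ closure P := by
  refine cell_gen hpt hf 3 3 4 6 (by decide) (by decide) (a := ptU.c) (a' := ptUp.c)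
    (fun j hj => ?_) ?_ (fun j hj => ?_) ?_ ch_okU ?_ ?_
  · interval_cases j
    · exact path_of path_okU 0 (by simp)
    · exact path_of path_okU 1 (by simp)
    · exact path_of path_okU 2 (by simp)
  · exact B_sub_CB _ (path_of path_okU 3 (by simp))
  · interval_cases j
    · exact path_of path_okUp 0 (by simp)
    · exact path_of path_okUp 1 (by simp)
    · exact path_of path_okUp 2 (by simp)
  · exact B_sub_CB _ (path_of path_okUp 3 (by simp))
  · have : ptU.c = (⟨297875532, 1946004879, 7113275⟩ : Dd).c := rfl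
    rw [this]
    exact chSet_mem chU (33, ⟨297875532, 1946004879, 7113275⟩) (by simp [chU]) (Dd.c_mem _)
  · have : ptUp.c = (⟨850912481, 2100088809, 6028000⟩ : Dd).c := rfl
    rw [this]
    exact chSet_mem chU (33, ⟨850912481, 2100088809, 6028000⟩) (by simp [chU]) (Dd.c_mem _)

/-- the cell of `W` -/
theorem cell_W (hpt : ∀ p, pt p ∈ (tbI p).CB) (hf : ∀ p, gF (pt p) = pt (fpI p)) :
    ∃ P : Set ℂ, P ⊆ interior (KSet g7) ∧ IsPreconnected P ∧ pt 7 ∈ closure P ∧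
      pt 9 ∈ closure P := by
  refine cell_gen hpt hf 2 2 7 9 (by decide) (by decide) (a := ptW.c) (a' := ptWp.c)
    (fun j hj => ?_) ?_ (fun j hj => ?_) ?_ ch_okW ?_ ?_
  · interval_cases j
    · exact path_of path_okW 0 (by simp)
    · exact path_of path_okW 1 (by simp)
  · exact B_sub_CB _ (path_of path_okW 2 (by simp))
  · interval_cases j
    · exact path_of path_okWp 0 (by simp)
    · exact path_of path_okWp 1 (by simp)
  · exact B_sub_CB _ (path_of path_okWp 2 (by simp))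
  · have : ptW.c = (⟨-1713961976, 5391600827, 4742183⟩ : Dd).c := rfl
    rw [this]
    exact chSet_mem chW (32, ⟨-1713961976, 5391600827, 4742183⟩) (by simp [chW]) (Dd.c_mem _)
  · have : ptWp.c = (⟨-2022844649, 4993217833, 5426379⟩ : Dd).c := rfl
    rw [this]
    exact chSet_mem chW (32, ⟨-2022844649, 4993217833, 5426379⟩) (by simp [chW]) (Dd.c_mem _)

end Pool.Agent.JH
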