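import Mathlib

/-!
# RCHK: exact integer arithmetic on discs (definitions)

All numbers are scaled by `2 ^ 32`; the polynomial is
`f z = z ^ 7 + a z ^ 5 + b z ^ 3 + c z`, `a = (201 + 111 I) / 64`, `b = (183 + 184 I) / 64`,
`c = (128 + 75 I) / 64`.
-/

set_option autoImplicit false

namespace Pool.Agent.JH

/-- forces the kernel to evaluate `n` -/
def fN {α : Type} (n : Nat) (k : Nat → α) : α :=
  match n with
  | 0 => k 0
  | m + 1 => k (m + 1)

/-- forces the kernel to evaluate `a` -/
def fZ {α : Type} (a : Int) (k : Int → α) : α :=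
  match a with
  | Int.ofNat n => fN n fun n => k (Int.ofNat n)
  | Int.negSucc n => fN n fun n => k (Int.negSucc n)

/-- a disc with centre `(x + y I) / 2 ^ 32` and radius `r / 2 ^ 32` -/
structure Dd where
  x : Int
  y : Int
  r : Nat

/-- one Newton step for the square root of `S`, rounded up -/
def nwt (S g : Nat) : Nat := Nat.add (Nat.div (Nat.add g (Nat.div S g)) 2) 1

/-- an upper bound of the square root of `p ^ 2 + r ^ 2` -/
def upp (p r : Nat) : Nat :=
  fN (Nat.add (Nat.mul p p) (Nat.mul r r)) fun S =>
  fN (nwt S (Nat.add (Nat.add (bif Nat.ble p r then r else p) (Nat.div (bif Nat.ble p r then p else r) 3)) 1)) fun g =>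
  nwt S g

/-- an upper bound of the norm of `a + b I` -/
def upn (a b : Int) : Nat := fN a.natAbs fun p => fN b.natAbs fun r => upp p r

/-- a lower bound of the norm of `a + b I` -/
def lon (a b : Int) : Nat :=
  fN a.natAbs fun p => fN b.natAbs fun r => Nat.div (Nat.add (Nat.mul p p) (Nat.mul r r)) (upp p r)

/-- exact value and bounds of the Taylor coefficients -/
structure Co where
  fx : Int
  fy : Int
  l1 : Nat
  n1 : Nat
  n2 : Nat
  n3 : Nat
  n4 : Nat
  n5 : Nat
  n6 : Nat

/-- `k` applied to the product -/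
def cm {α : Type} (a b c d : Int) (k : Int → Int → α) : α :=
  fZ (a * c - b * d) fun p => fZ (a * d + b * c) fun r => k p r

def ax : Int := 3707795558815619874816
def ay : Int := 2047588592181760229376
def bx : Int := 62271673146531738813797553160013582696448
def by' : Int := 62611955513452677277260927767445350907904
def cx : Int := 803469022129495137770981046170581301261101496891396417650688
def cy : Int := 470782630154001057287684206740574981207676658334802588467200
def den : Nat := 401734511064747568885490523085290650630550748445698208825344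

/-- upper bound of the norm of the value at `Z` of `Z * (C₀ + W (B₀ + W A₀))` etc. -/
def coK {α : Type} (x y : Int) (k : Co → α) : α :=
  cm x y x y fun u v =>
  fZ (64 * u) fun u6 => fZ (64 * v) fun v6 =>
  fN (cm u v (5 * ax + 7 * u6) (5 * ay + 7 * v6) fun p r =>
    cm u v (3 * bx + p) (3 * by' + r) fun p r => upn (cx + p) (cy + r)) fun n1 =>
  fN (cm u v (5 * ax + 7 * u6) (5 * ay + 7 * v6) fun p r =>
    cm u v (3 * bx + p) (3 * by' + r) fun p r => lon (cx + p) (cy + r)) fun l1 =>
  fN (cm u v (10 * ax + 21 * u6) (10 * ay + 21 * v6) fun p r =>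
    cm x y (3 * bx + p) (3 * by' + r) fun p r => upn p r) fun n2 =>
  fN (cm u v (10 * ax + 35 * u6) (10 * ay + 35 * v6) fun p r => upn (bx + p) (by' + r)) fun n3 =>
  fN (cm x y (5 * ax + 35 * u6) (5 * ay + 35 * v6) fun p r => upn p r) fun n4 =>
  fN (upn (ax + 21 * u6) (ay + 21 * v6)) fun n5 =>
  fN (upn (448 * x) (448 * y)) fun n6 =>
  cm u v (ax + u6) (ay + v6) fun p r =>
  cm u v (bx + p) (by' + r) fun p r =>
  cm x y (cx + p) (cy + r) fun fx fy =>
  k ⟨fx, fy, l1, n1, n2, n3, n4, n5, n6⟩

/-- `f` is injective on the closed disc of radius `R` -/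
def chkInj (co : Co) (R : Nat) : Bool :=
  Nat.ble (Nat.succ (R * (2 * co.n2 + R * (3 * co.n3 + R * (4 * co.n4 + R * (5 * co.n5 + R * (6 * co.n6 + R * 448))))))) co.l1

/-- the image of the disc of radius `r` contains the disc `t` -/
def chkCov (co : Co) (r : Nat) (t : Dd) : Bool :=
  Nat.ble (upn (den * t.x - co.fx) (den * t.y - co.fy) + t.r * den +
    r * (r * (co.n2 + r * (co.n3 + r * (co.n4 + r * (co.n5 + r * (co.n6 + r * 64))))))) (co.l1 * r)

/-- the disc `D` contains the lift of the targets which starts in `prev` -/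
def chkSeg (prev : Dd) (tgs : List Dd) (D : Dd) : Bool :=
  coK D.x D.y fun co =>
    fN (upn (D.x - prev.x) (D.y - prev.y) + prev.r) fun R =>
    chkInj co R && chkInj co D.r && tgs.all (chkCov co D.r)

/-- a disc containing the image of the closed disc -/
def stp {α : Type} (D : Dd) (k : Dd → α) : α :=
  coK D.x D.y fun co =>
    fZ (co.fx / den) fun x => fZ (co.fy / den) fun y =>
    fN (D.r * (co.n1 + D.r * (co.n2 + D.r * (co.n3 + D.r * (co.n4 + D.r * (co.n5 + D.r * (co.n6 + D.r * 64)))))) / den + 3)
      fun r => k ⟨x, y, r⟩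

def itr {α : Type} : Nat → Dd → (Dd → α) → α
  | 0, D, k => k D
  | n + 1, D, k => stp D fun D => itr n D k

/-- the closed disc `D` is contained in the open disc `T` -/
def chkIn (D T : Dd) : Bool := Nat.ble (Nat.succ (upn (D.x - T.x) (D.y - T.y) + D.r)) T.r

/-- expansion: `t.r + |f c - t| < (expansion factor) * r` -/
def chkExp (co : Co) (r : Nat) (t : Dd) : Bool :=
  Nat.ble (Nat.succ (upn (den * t.x - co.fx) (den * t.y - co.fy) + t.r * den +
    r * (r * (2 * co.n2 + r * (3 * co.n3 + r * (4 * co.n4 + r * (5 * co.n5 + r * (6 * co.n6 + r * 448)))))))) (co.l1 * r)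

/-- tail balls: `B` is mapped expandingly over `B'` -/
def chkTail (B B' : Dd) : Bool :=
  coK B.x B.y fun co => chkInj co B.r && chkCov co B.r B' && chkExp co B.r B'

/-- check one ray at one level -/
def chkRay : Dd → List Dd → List Nat → List Dd → Bool
  | _, [], [], [] => true
  | prev, tg, g :: gs, D :: Ds =>
    Nat.ble 1 g && Nat.ble g tg.length && chkSeg prev (tg.take g) D && chkRay D (tg.drop g) gs Ds
  | _, _, _, _ => false

/-- the last element -/
def lastD : List Dd → Dd
  | [] => ⟨0, 0, 0⟩
  | [D] => D
  | _ :: D :: Ds => lastD (D :: Ds)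

/-- check all levels of one ray: own discs, discs of the image ray, groupings -/
def chkAll : List (List Dd) → List (List Dd) → List (List Nat) → Bool
  | [_], _, [] => true
  | L :: L' :: Ls, T :: Ts, g :: gs => chkRay (lastD L) T g L' && chkAll (L' :: Ls) Ts gs
  | _, _, _ => false

/-- the disc of level `0` of the ray with direction `(ux + uy I) / 2 ^ 20`, between the moduli `lo` and `hi` -/
def lev0D (ux uy : Int) (hi lo : Nat) : Dd :=
  ⟨(hi + lo) * ux * 2048, (hi + lo) * uy * 2048, (hi - lo) * 2147483648 + hi * 107374184⟩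

/-- the discs of level `0` -/
def lev0 (ux uy : Int) : List Nat → List Dd
  | hi :: lo :: xs => lev0D ux uy hi lo :: lev0 ux uy (lo :: xs)
  | _ => []

/-- the iterates of the disc `D` lie in the successive discs of the list -/
def chkPath : Dd → List Dd → Bool
  | _, [] => true
  | D, [T] => chkIn D T
  | D, T :: T' :: Ts => chkIn D T && stp D fun D => chkPath D (T' :: Ts)

/-- `n` iterates of `D` end in `T` -/
def chkTo (n : Nat) (D T : Dd) : Bool := itr n D fun D => chkIn D T

/-- the centre of `D'` lies in the closed disc `D` -/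
def chkCen (D D' : Dd) : Bool := Nat.ble (upn (D.x - D'.x) (D.y - D'.y)) D.r

/-- a chain of discs, each mapped into `T` by the given iterate, each containing the next centre -/
def chkChain (T : Dd) : List (Nat × Dd) → Bool
  | [] => false
  | [p] => chkTo p.1 p.2 T
  | p :: p' :: ps => chkTo p.1 p.2 T && chkCen p.2 p'.2 && chkChain T (p' :: ps)

end Pool.Agent.JH
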