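import Pool.Agent.Lib.MP_8ebc20_an.R.Def
import Pool.Agent.Lib.MP_8ebc20_an.Bas2
import Pool.Agent.Lib.MP_8ebc20_an_R.STay

/-!
# R.TAY: Taylor expansion of the polynomial, injectivity and covering of discs

PROOFS. `taylor`: `ring`.  `TB.expand`: `x = c + h`, `y = c + k`, `‖h‖, ‖k‖ ≤ R`: by `taylor`
`gF x - gF y = ∑ j, t_j (h ^ j - k ^ j)`, and `‖h ^ j - k ^ j‖ ≤ j R ^ (j - 1) ‖h - k‖` (induction on `j`:
`h ^ (j + 1) - k ^ (j + 1) = h ^ j (h - k) + (h ^ j - k ^ j) k`).  `TB.injOn`: from `expand`.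
`TB.image`: `taylor`.
`TB.cover`: let `ρ' = b.cov r`.  For `‖z - c‖ = r`, `ρ' ≤ ‖gF z - gF c‖` (`taylor`).  The set
`A = gF '' ball c r` is open (open mapping theorem: `AnalyticOnNhd.is_constant_or_isOpen` for the entire nonconstant `gF`, or
`differentiable_gF`...; or `Pool.Agent.JH.isOpenMap_ev` of `Bas2.lean` for `g7`, with `ev_g7`), and
`A ∩ ball (gF c) ρ'` is relatively closed in `ball (gF c) ρ'`: if `gF z_n → w`, `z_n ∈ ball c r`, pass to a
subsequence `z_n → z ∈ closedBall c r`, `gF z = w`; `‖z - c‖ = r` is impossible as `‖w - gF c‖ < ρ'`.  The ball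
`ball (gF c) ρ'` is preconnected and `gF c ∈ A` (if `0 < ρ'`).  Finally `ball w ρ ⊆ ball (gF c) ρ'`.
-/

set_option autoImplicit false

namespace Pool.Agent.JH

open Set Metric Filter Topology

/-- Taylor coefficients -/
noncomputable def t1 (c : ℂ) : ℂ := 7 * c ^ 6 + 5 * ga * c ^ 4 + 3 * gb * c ^ 2 + gc
noncomputable def t2 (c : ℂ) : ℂ := 21 * c ^ 5 + 10 * ga * c ^ 3 + 3 * gb * c
noncomputable def t3 (c : ℂ) : ℂ := 35 * c ^ 4 + 10 * ga * c ^ 2 + gb
noncomputable def t4 (c : ℂ) : ℂ := 35 * c ^ 3 + 5 * ga * c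
noncomputable def t5 (c : ℂ) : ℂ := 21 * c ^ 2 + ga
noncomputable def t6 (c : ℂ) : ℂ := 7 * c

theorem taylor (c h : ℂ) : gF (c + h) =
    gF c + t1 c * h + t2 c * h ^ 2 + t3 c * h ^ 3 + t4 c * h ^ 4 + t5 c * h ^ 5 + t6 c * h ^ 6 + h ^ 7 := by
  unfold gF t1 t2 t3 t4 t5 t6
  ring

/-- bounds for the Taylor coefficients -/
structure Bd where
  l1 : ℝ
  n1 : ℝ
  n2 : ℝ
  n3 : ℝ
  n4 : ℝ
  n5 : ℝ
  n6 : ℝ

/-- a lower bound of the expansion factor on the disc of radius `R` -/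
def Bd.inj (b : Bd) (R : ℝ) : ℝ :=
  b.l1 - R * (2 * b.n2 + R * (3 * b.n3 + R * (4 * b.n4 + R * (5 * b.n5 + R * (6 * b.n6 + R * 7)))))

/-- the radius of the covered disc -/
def Bd.cov (b : Bd) (r : ℝ) : ℝ :=
  b.l1 * r - r * (r * (b.n2 + r * (b.n3 + r * (b.n4 + r * (b.n5 + r * (b.n6 + r))))))

/-- a bound for the size of the image -/
def Bd.img (b : Bd) (r : ℝ) : ℝ :=
  r * (b.n1 + r * (b.n2 + r * (b.n3 + r * (b.n4 + r * (b.n5 + r * (b.n6 + r))))))

/-- `b` bounds the Taylor coefficients at `c` -/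
structure TB (c : ℂ) (b : Bd) : Prop where
  l1 : b.l1 ≤ ‖t1 c‖
  n1 : ‖t1 c‖ ≤ b.n1
  n2 : ‖t2 c‖ ≤ b.n2
  n3 : ‖t3 c‖ ≤ b.n3
  n4 : ‖t4 c‖ ≤ b.n4
  n5 : ‖t5 c‖ ≤ b.n5
  n6 : ‖t6 c‖ ≤ b.n6

private noncomputable def tc (c : ℂ) (k : ℕ) : ℂ :=
  match k with
  | 0 => gF c
  | 1 => t1 c
  | 2 => t2 c
  | 3 => t3 c
  | 4 => t4 c
  | 5 => t5 c
  | 6 => t6 c
  | 7 => 1
  | _ => 0

private theorem gF_sum (c z : ℂ) : gF z = ∑ k ∈ Finset.range (6 + 2), tc c k * (z - c) ^ k := by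
  have h := taylor c (z - c)
  rw [add_sub_cancel] at h
  rw [h]
  simp only [Finset.sum_range_succ, Finset.sum_range_zero, tc]
  ring

theorem TB.expand {c : ℂ} {b : Bd} (h : TB c b) {R : ℝ} {x y : ℂ} (hx : x ∈ closedBall c R)
    (hy : y ∈ closedBall c R) : b.inj R * ‖x - y‖ ≤ ‖gF x - gF y‖ := by
  have hR : 0 ≤ R := dist_nonneg.trans (mem_closedBall.1 hx)
  refine le_trans ?_ (two_point (n := 6) (gF_sum c) hx hy)
  refine mul_le_mul_of_nonneg_right ?_ (norm_nonneg _)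
  simp only [Finset.sum_range_succ, Finset.sum_range_zero, tc, norm_one]
  have h2 : R * (2 * ‖t2 c‖ + R * (3 * ‖t3 c‖ + R * (4 * ‖t4 c‖ + R * (5 * ‖t5 c‖ +
      R * (6 * ‖t6 c‖ + R * 7))))) ≤
      R * (2 * b.n2 + R * (3 * b.n3 + R * (4 * b.n4 + R * (5 * b.n5 + R * (6 * b.n6 + R * 7))))) := by
    gcongr
    · exact h.n2
    · exact h.n3
    · exact h.n4
    · exact h.n5
    · exact h.n6
  have h1 := h.l1
  unfold Bd.inj
  push_cast
  refine le_trans (sub_le_sub h1 h2) (le_of_eq ?_)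
  ring

theorem TB.injOn {c : ℂ} {b : Bd} (h : TB c b) {R : ℝ} (hR : 0 < b.inj R) :
    InjOn gF (closedBall c R) := by
  intro x hx y hy hxy
  have h1 := h.expand hx hy
  rw [hxy, sub_self, norm_zero] at h1
  have h2 : ‖x - y‖ ≤ 0 := by
    by_contra h3
    rw [not_le] at h3
    exact absurd (mul_pos hR h3) (not_lt.2 h1)
  exact sub_eq_zero.1 (norm_le_zero_iff.1 h2)

theorem TB.image {c : ℂ} {b : Bd} (h : TB c b) {r : ℝ} {x : ℂ} (hx : x ∈ closedBall c r) :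
    ‖gF x - gF c‖ ≤ b.img r := by
  have hr : 0 ≤ r := dist_nonneg.trans (mem_closedBall.1 hx)
  have h1 := disc_image (n := 7) (T := tc c) (F := gF) (gF_sum c) hx
  refine h1.trans ?_
  simp only [Finset.sum_range_succ, Finset.sum_range_zero, tc, norm_one]
  have h2 : r * (‖t1 c‖ + r * (‖t2 c‖ + r * (‖t3 c‖ + r * (‖t4 c‖ + r * (‖t5 c‖ + r * (‖t6 c‖ + r)))))) ≤
      b.img r := by
    unfold Bd.img
    gcongr
    · exact h.n1
    · exact h.n2
    · exact h.n3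
    · exact h.n4
    · exact h.n5
    · exact h.n6
  refine le_trans (le_of_eq ?_) h2
  ring

private theorem TB.low {c : ℂ} {b : Bd} (h : TB c b) {r : ℝ} {x : ℂ} (hx : dist x c = r) :
    b.cov r ≤ ‖gF x - gF c‖ := by
  have hr : 0 ≤ r := hx ▸ dist_nonneg
  have h1 := one_point (n := 6) (gF_sum c) (mem_closedBall.2 hx.le)
  rw [← dist_eq_norm x c, hx] at h1
  refine le_trans ?_ h1
  simp only [Finset.sum_range_succ, Finset.sum_range_zero, tc, norm_one]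
  have h2 : r * (r * (‖t2 c‖ + r * (‖t3 c‖ + r * (‖t4 c‖ + r * (‖t5 c‖ +
      r * (‖t6 c‖ + r)))))) ≤
      r * (r * (b.n2 + r * (b.n3 + r * (b.n4 + r * (b.n5 + r * (b.n6 + r)))))) := by
    gcongr
    · exact h.n2
    · exact h.n3
    · exact h.n4
    · exact h.n5
    · exact h.n6
  have h3 : b.l1 * r ≤ ‖t1 c‖ * r := mul_le_mul_of_nonneg_right h.l1 hr
  unfold Bd.cov
  refine le_trans (sub_le_sub h3 h2) (le_of_eq ?_)
  ring

theorem TB.cover {c : ℂ} {b : Bd} (h : TB c b) {r : ℝ} (hr : 0 ≤ r) {w : ℂ} {ρ : ℝ}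
    (hw : ‖w - gF c‖ + ρ ≤ b.cov r) : ball w ρ ⊆ gF '' ball c r := by
  have key : ball (gF c) (b.cov r) ⊆ gF '' ball c r := by
    rcases le_or_gt (b.cov r) 0 with h0 | h0
    · rw [ball_eq_empty.2 h0]; exact empty_subset _
    have hr0 : 0 < r := by
      rcases hr.eq_or_lt with h1 | h1
      · rw [← h1] at h0
        simp [Bd.cov] at h0
      · exact h1
    have hopen : IsOpenMap gF := by
      rw [← ev_g7]
      refine isOpenMap_ev ?_
      rw [natDegree_g7]; norm_num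
    refine IsPreconnected.subset_of_closure_inter_subset (convex_ball (gF c) (b.cov r)).isPreconnected
      (hopen _ isOpen_ball) ⟨gF c, mem_ball_self h0, c, mem_ball_self hr0, rfl⟩ ?_
    rintro p ⟨hp1, hp2⟩
    have h2 : closure (gF '' ball c r) ⊆ gF '' closedBall c r :=
      closure_minimal (image_mono ball_subset_closedBall)
        ((isCompact_closedBall c r).image continuous_gF).isClosed
    obtain ⟨z, hz, rfl⟩ := h2 hp1
    refine ⟨z, ?_, rfl⟩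
    rcases (mem_closedBall.1 hz).lt_or_eq with h3 | h3
    · exact h3
    · exfalso
      have h4 := h.low h3
      rw [mem_ball, dist_eq_norm] at hp2
      linarith
  refine Subset.trans (fun p hp => ?_) key
  rw [mem_ball, dist_eq_norm] at hp ⊢
  calc ‖p - gF c‖ = ‖(p - w) + (w - gF c)‖ := by congr 1; ring
    _ ≤ ‖p - w‖ + ‖w - gF c‖ := norm_add_le _ _
    _ < b.cov r := by linarith

end Pool.Agent.JH
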