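import Pool.Agent.Lib.MP_8ebc20_an.R.Num
import Pool.Agent.Lib.MP_8ebc20_an.R.Tay

/-!
# R.COS: soundness of the computation of the Taylor coefficients

PROOF of `coK_sound`.  Unfold `coK`, `cm` and use `fN_eq`, `fZ_eq`; the witness `co` is the structure with the resulting
entries.  With `Z = x + y I` (Gaussian integer, cast to `ℂ`), `q = 2 ^ 32`, `cpt x y = Z / q`:
`64 q ^ 7 gF (Z / q) = Z (C' + W (B' + W (A' + 64 W)))`, `W = Z ^ 2`, `A' = 64 q² ga = ax + ay I`, `B' = 64 q⁴ gb = bx + by' I`,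
`C' = 64 q⁶ gc = cx + cy I` (`norm_num [ax, ga]`), and similarly
`64 q ^ 6 t1 = C' + W (3 B' + W (5 A' + 448 W))`, `64 q ^ 5 t2 = Z (3 B' + W (10 A' + 1344 W))`,
`64 q ^ 4 t3 = B' + W (10 A' + 2240 W)`, `64 q ^ 3 t4 = Z (5 A' + 2240 W)`, `64 q ^ 2 t5 = A' + 1344 W`, `64 q t6 = 448 Z`
(`Complex.ext`, `push_cast`, `ring`).  Then `norm_le_upn` and `lon_le_norm`.
-/

set_option autoImplicit false

namespace Pool.Agent.JH

open Set Metric Filter Topology

/-- the scaled point -/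
noncomputable def cpt (x y : ℤ) : ℂ := ⟨(x : ℝ) / 2 ^ 32, (y : ℝ) / 2 ^ 32⟩

/-- the entries of `co` are correct at the point `cpt x y` -/
structure CoOK (x y : ℤ) (co : Co) : Prop where
  val : gF (cpt x y) = ⟨(co.fx : ℝ) / (64 * 2 ^ 224), (co.fy : ℝ) / (64 * 2 ^ 224)⟩
  l1 : (co.l1 : ℝ) / (64 * 2 ^ 192) ≤ ‖t1 (cpt x y)‖
  n1 : ‖t1 (cpt x y)‖ ≤ (co.n1 : ℝ) / (64 * 2 ^ 192)
  n2 : ‖t2 (cpt x y)‖ ≤ (co.n2 : ℝ) / (64 * 2 ^ 160)
  n3 : ‖t3 (cpt x y)‖ ≤ (co.n3 : ℝ) / (64 * 2 ^ 128)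
  n4 : ‖t4 (cpt x y)‖ ≤ (co.n4 : ℝ) / (64 * 2 ^ 96)
  n5 : ‖t5 (cpt x y)‖ ≤ (co.n5 : ℝ) / (64 * 2 ^ 64)
  n6 : ‖t6 (cpt x y)‖ ≤ (co.n6 : ℝ) / (64 * 2 ^ 32)

/-- the real bounds given by `co` -/
noncomputable def Co.bd (co : Co) : Bd :=
  { l1 := (co.l1 : ℝ) / (64 * 2 ^ 192)
    n1 := (co.n1 : ℝ) / (64 * 2 ^ 192)
    n2 := (co.n2 : ℝ) / (64 * 2 ^ 160)
    n3 := (co.n3 : ℝ) / (64 * 2 ^ 128)
    n4 := (co.n4 : ℝ) / (64 * 2 ^ 96)
    n5 := (co.n5 : ℝ) / (64 * 2 ^ 64)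
    n6 := (co.n6 : ℝ) / (64 * 2 ^ 32) }

theorem CoOK.tb {x y : ℤ} {co : Co} (h : CoOK x y co) : TB (cpt x y) co.bd :=
  ⟨h.l1, h.n1, h.n2, h.n3, h.n4, h.n5, h.n6⟩

/-- the Gaussian integer `a + b I` -/
private noncomputable def G (a b : ℤ) : ℂ := ⟨(a : ℝ), (b : ℝ)⟩

private theorem G_mul (a b c d : ℤ) : G (a * c - b * d) (a * d + b * c) = G a b * G c d := by
  apply Complex.ext <;> simp [G]

private theorem G_add (a b c d : ℤ) : G (a + c) (b + d) = G a b + G c d := by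
  apply Complex.ext <;> simp [G]

private theorem G_smul (n a b : ℤ) : G (n * a) (n * b) = (n : ℂ) * G a b := by
  apply Complex.ext <;> simp [G]

private theorem G_pt (x y : ℤ) : G x y = 2 ^ 32 * cpt x y := by
  have h : (2 : ℂ) ^ 32 = ((4294967296 : ℝ) : ℂ) := by norm_num
  rw [h]
  apply Complex.ext
  · rw [Complex.re_ofReal_mul]; simp only [G, cpt]; ring
  · rw [Complex.im_ofReal_mul]; simp only [G, cpt]; ring

private theorem G_A : G ax ay = 64 * 2 ^ 64 * ga := by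
  have h : (64 : ℂ) * 2 ^ 64 = ((1180591620717411303424 : ℝ) : ℂ) := by norm_num
  rw [h]
  apply Complex.ext
  · rw [Complex.re_ofReal_mul]; norm_num [G, ax, ga]
  · rw [Complex.im_ofReal_mul]; norm_num [G, ay, ga]

private theorem G_B : G bx by' = 64 * 2 ^ 128 * gb := by
  have h : (64 : ℂ) * 2 ^ 128 = ((64 * 2 ^ 128 : ℝ) : ℂ) := by norm_num
  rw [h]
  apply Complex.ext
  · rw [Complex.re_ofReal_mul]; norm_num [G, bx, gb]
  · rw [Complex.im_ofReal_mul]; norm_num [G, by', gb]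

private theorem G_C : G cx cy = 64 * 2 ^ 192 * gc := by
  have h : (64 : ℂ) * 2 ^ 192 = ((64 * 2 ^ 192 : ℝ) : ℂ) := by norm_num
  rw [h]
  apply Complex.ext
  · rw [Complex.re_ofReal_mul]; norm_num [G, cx, gc]
  · rw [Complex.im_ofReal_mul]; norm_num [G, cy, gc]

private theorem G_upn {a b : ℤ} {K : ℝ} (hK : 0 < K) {t : ℂ} (h : G a b = (K : ℂ) * t) :
    ‖t‖ ≤ (upn a b : ℝ) / K := by
  have h1 : ‖G a b‖ ≤ upn a b := norm_le_upn a b
  rw [h, norm_mul, Complex.norm_real, Real.norm_of_nonneg hK.le] at h1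
  rw [le_div_iff₀ hK]
  linarith

private theorem G_lon {a b : ℤ} {K : ℝ} (hK : 0 < K) {t : ℂ} (h : G a b = (K : ℂ) * t) :
    (lon a b : ℝ) / K ≤ ‖t‖ := by
  have h1 : (lon a b : ℝ) ≤ ‖G a b‖ := lon_le_norm a b
  rw [h, norm_mul, Complex.norm_real, Real.norm_of_nonneg hK.le] at h1
  rw [div_le_iff₀ hK]
  linarith

private theorem G_val {a b : ℤ} {K : ℝ} (hK : 0 < K) {t : ℂ} (h : G a b = (K : ℂ) * t) :
    t = ⟨(a : ℝ) / K, (b : ℝ) / K⟩ := by
  have hK' : (K : ℂ) ≠ 0 := by exact_mod_cast hK.ne'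
  have h1 : t = G a b / (K : ℂ) := by rw [h]; field_simp
  rw [h1]
  apply Complex.ext
  · rw [Complex.div_ofReal_re]; rfl
  · rw [Complex.div_ofReal_im]; rfl

theorem coK_sound (x y : ℤ) : ∃ co : Co, CoOK x y co ∧ ∀ (α : Type) (k : Co → α), coK x y k = k co := by
  refine ⟨coK x y fun c => c, ?_, fun α k => ?_⟩
  · simp only [coK, cm, fZ_eq, fN_eq]
    constructor
    · apply G_val (by positivity)
      simp only [G_mul, G_add, G_smul, G_pt x y, G_A, G_B, G_C]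
      unfold gF
      push_cast
      ring
    · apply G_lon (by positivity)
      simp only [G_mul, G_add, G_smul, G_pt x y, G_A, G_B, G_C]
      unfold t1
      push_cast
      ring
    · apply G_upn (by positivity)
      simp only [G_mul, G_add, G_smul, G_pt x y, G_A, G_B, G_C]
      unfold t1
      push_cast
      ring
    · apply G_upn (by positivity)
      simp only [G_mul, G_add, G_smul, G_pt x y, G_A, G_B, G_C]
      unfold t2
      push_cast
      ring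
    · apply G_upn (by positivity)
      simp only [G_mul, G_add, G_smul, G_pt x y, G_A, G_B, G_C]
      unfold t3
      push_cast
      ring
    · apply G_upn (by positivity)
      simp only [G_mul, G_add, G_smul, G_pt x y, G_A, G_B, G_C]
      unfold t4
      push_cast
      ring
    · apply G_upn (by positivity)
      simp only [G_mul, G_add, G_smul, G_pt x y, G_A, G_B, G_C]
      unfold t5
      push_cast
      ring
    · apply G_upn (by positivity)
      simp only [G_mul, G_add, G_smul, G_pt x y, G_A, G_B, G_C]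
      unfold t6
      push_cast
      ring
  · simp only [coK, cm, fZ_eq, fN_eq]

end Pool.Agent.JH
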