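import Pool.Agent.Lib.MP_8ebc20_an.Defs

/-!
# R.DEF: the polynomial of degree 7
-/

set_option autoImplicit false

namespace Pool.Agent.JH

open Polynomial Set Metric Filter Topology

/-- the coefficient of `z ^ 5` -/
noncomputable def ga : ℂ := ⟨201 / 64, 111 / 64⟩

/-- the coefficient of `z ^ 3` -/
noncomputable def gb : ℂ := ⟨183 / 64, 184 / 64⟩

/-- the coefficient of `z` -/
noncomputable def gc : ℂ := ⟨128 / 64, 75 / 64⟩

/-- the polynomial -/
noncomputable def g7 : ℂ[X] := X ^ 7 + C ga * X ^ 5 + C gb * X ^ 3 + C gc * X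

/-- the polynomial map -/
noncomputable def gF (z : ℂ) : ℂ := z ^ 7 + ga * z ^ 5 + gb * z ^ 3 + gc * z

theorem ev_g7 : ev g7 = gF := by
  funext z
  simp [ev, g7, gF]

theorem continuous_gF : Continuous gF := by
  unfold gF
  fun_prop

theorem differentiable_gF : Differentiable ℂ gF := by
  unfold gF
  fun_prop

theorem natDegree_g7 : g7.natDegree = 7 := by
  unfold g7
  compute_degree!

theorem monic_g7 : g7.Monic := by
  unfold g7
  monicity!

theorem gF_neg (z : ℂ) : gF (-z) = -gF z := by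
  unfold gF
  ring

theorem deriv_g7 (z : ℂ) :
    g7.derivative.eval z = 7 * z ^ 6 + 5 * ga * z ^ 4 + 3 * gb * z ^ 2 + gc := by
  simp [g7]
  ring

theorem norm_ga : ‖ga‖ ≤ 36 / 10 := by
  rw [Complex.norm_def, Real.sqrt_le_left (by norm_num)]
  norm_num [ga, Complex.normSq_apply]

theorem norm_gb : ‖gb‖ ≤ 41 / 10 := by
  rw [Complex.norm_def, Real.sqrt_le_left (by norm_num)]
  norm_num [gb, Complex.normSq_apply]

theorem norm_gc : ‖gc‖ ≤ 24 / 10 := by
  rw [Complex.norm_def, Real.sqrt_le_left (by norm_num)]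
  norm_num [gc, Complex.normSq_apply]

end Pool.Agent.JH
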