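import Pool.Agent.Lib.MP_8ebc20_an.R.Tab

/-!
# R.DIR: the directions of the 22 rays
-/

set_option autoImplicit false

namespace Pool.Agent.JH

open Set Metric Filter Topology

/-- Taylor polynomial of the cosine -/
noncomputable def tcos (q : ℝ) : ℝ :=
  1 - q ^ 2 / 2 + q ^ 4 / 24 - q ^ 6 / 720 + q ^ 8 / 40320 - q ^ 10 / 3628800 +
    q ^ 12 / 479001600 - q ^ 14 / 87178291200

/-- Taylor polynomial of the sine -/
noncomputable def tsin (q : ℝ) : ℝ :=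
  q - q ^ 3 / 6 + q ^ 5 / 120 - q ^ 7 / 5040 + q ^ 9 / 362880 - q ^ 11 / 39916800 +
    q ^ 13 / 6227020800 - q ^ 15 / 1307674368000

theorem texp (q : ℝ) (h0 : 0 ≤ q) (h : q ≤ 16 / 5) :
    ‖Complex.exp ((q : ℂ) * Complex.I) - (⟨tcos q, tsin q⟩ : ℂ)‖ ≤ 1 / 10000 := by
  have hn : ‖(q : ℂ) * Complex.I‖ = q := by
    rw [norm_mul, Complex.norm_I, mul_one, Complex.norm_real, Real.norm_of_nonneg h0]
  have h1 := Complex.exp_bound' (x := (q : ℂ) * Complex.I) (n := 16) (by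
    rw [hn]; norm_num; linarith)
  have h2 : ∑ m ∈ Finset.range 16, ((q : ℂ) * Complex.I) ^ m / (m.factorial : ℂ) =
      (⟨tcos q, tsin q⟩ : ℂ) := by
    have hI2 : Complex.I ^ 2 = -1 := Complex.I_sq
    have e : (⟨tcos q, tsin q⟩ : ℂ) = (tcos q : ℂ) + (tsin q : ℂ) * Complex.I := by
      apply Complex.ext <;> simp
    rw [e]
    simp only [Finset.sum_range_succ, Finset.sum_range_zero, Nat.factorial, tcos, tsin]
    push_cast
    have p3 : Complex.I ^ 3 = -Complex.I := Complex.I_pow_three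
    have p4 : Complex.I ^ 4 = 1 := Complex.I_pow_four
    simp only [mul_pow]
    have p5 : Complex.I ^ 5 = Complex.I := by rw [show 5 = 4 + 1 from rfl, pow_add, p4]; ring
    have p6 : Complex.I ^ 6 = -1 := by rw [show 6 = 4 + 2 from rfl, pow_add, p4, hI2]; ring
    have p7 : Complex.I ^ 7 = -Complex.I := by rw [show 7 = 4 + 3 from rfl, pow_add, p4, p3]; ring
    have p8 : Complex.I ^ 8 = 1 := by rw [show 8 = 4 * 2 from rfl, pow_mul, p4]; ring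
    have p9 : Complex.I ^ 9 = Complex.I := by rw [show 9 = 8 + 1 from rfl, pow_add, p8]; ring
    have p10 : Complex.I ^ 10 = -1 := by rw [show 10 = 8 + 2 from rfl, pow_add, p8, hI2]; ring
    have p11 : Complex.I ^ 11 = -Complex.I := by rw [show 11 = 8 + 3 from rfl, pow_add, p8, p3]; ring
    have p12 : Complex.I ^ 12 = 1 := by rw [show 12 = 4 * 3 from rfl, pow_mul, p4]; ring
    have p13 : Complex.I ^ 13 = Complex.I := by rw [show 13 = 12 + 1 from rfl, pow_add, p12]; ring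
    have p14 : Complex.I ^ 14 = -1 := by rw [show 14 = 12 + 2 from rfl, pow_add, p12, hI2]; ring
    have p15 : Complex.I ^ 15 = -Complex.I := by
      rw [show 15 = 12 + 3 from rfl, pow_add, p12, p3]; ring
    rw [hI2, p3, p4, p5, p6, p7, p8, p9, p10, p11, p12, p13, p14, p15]
    ring
  rw [h2, hn] at h1
  refine h1.trans ?_
  have h3 : q ^ 16 ≤ (16 / 5) ^ 16 := pow_le_pow_left₀ h0 h 16
  have h4 : ((16 : ℕ).factorial : ℝ) = 20922789888000 := by norm_num [Nat.factorial]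
  rw [h4]
  calc q ^ 16 / 20922789888000 * 2 ≤ (16 / 5) ^ 16 / 20922789888000 * 2 := by gcongr
    _ ≤ 1 / 10000 := by norm_num

theorem norm_exp_sub (x y : ℝ) :
    ‖Complex.exp ((x : ℂ) * Complex.I) - Complex.exp ((y : ℂ) * Complex.I)‖ ≤ |x - y| := by
  have h1 : Complex.exp ((x : ℂ) * Complex.I) - Complex.exp ((y : ℂ) * Complex.I) =
      Complex.exp ((y : ℂ) * Complex.I) * (Complex.exp (Complex.I * ((x - y : ℝ) : ℂ)) - 1) := by
    rw [mul_sub, ← Complex.exp_add, mul_one]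
    congr 2
    push_cast
    ring
  rw [h1, norm_mul, Complex.norm_exp_ofReal_mul_I, one_mul]
  have := Real.norm_exp_I_mul_ofReal_sub_one_le (x := x - y)
  rwa [Real.norm_eq_abs] at this

/-- a direction from its Taylor approximation; `m` is `10 ^ 5` times the angle in radians -/
theorem dir_aux {θ u v : ℝ} (m : ℕ) (h1 : |2 * Real.pi * θ - m / 100000| ≤ 1 / 50000)
    (h2 : (m : ℝ) / 100000 ≤ 16 / 5) (_ : True) (h3 : |tcos (m / 100000) - u| ≤ 1 / 10000)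
    (h4 : |tsin (m / 100000) - v| ≤ 1 / 10000) (_ : True) :
    ‖Complex.exp (2 * Real.pi * (θ : ℂ) * Complex.I) - (⟨u, v⟩ : ℂ)‖ ≤ 1 / 1000 := by
  have e1 := norm_exp_sub (2 * Real.pi * θ) (m / 100000)
  have e2 := texp (m / 100000) (by positivity) h2
  have e3 : ‖(⟨tcos (m / 100000), tsin (m / 100000)⟩ : ℂ) - ⟨u, v⟩‖ ≤ 1 / 5000 := by
    refine (Complex.norm_le_abs_re_add_abs_im _).trans ?_
    simp only [Complex.sub_re, Complex.sub_im]
    linarith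
  have e4 : Complex.exp (2 * Real.pi * (θ : ℂ) * Complex.I) - (⟨u, v⟩ : ℂ) =
      (Complex.exp (((2 * Real.pi * θ : ℝ) : ℂ) * Complex.I) -
        Complex.exp (((m / 100000 : ℝ) : ℂ) * Complex.I)) +
      (Complex.exp (((m / 100000 : ℝ) : ℂ) * Complex.I) -
        ⟨tcos (m / 100000), tsin (m / 100000)⟩) +
      (⟨tcos (m / 100000), tsin (m / 100000)⟩ - ⟨u, v⟩) := by
    push_cast
    ring
  rw [e4]
  refine (norm_add₃_le).trans ?_
  linarith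

theorem dir_ok0 : ‖Complex.exp (2 * Real.pi * ((18490444 / 40353264 : ℝ) : ℂ) * Complex.I) -
    (⟨((-1012643 : ℤ) : ℝ) / 2 ^ 20, ((272149 : ℤ) : ℝ) / 2 ^ 20⟩ : ℂ)‖ ≤ 1 / 1000 := by
  have h1 := Real.pi_gt_d6
  have h2 := Real.pi_lt_d6
  refine dir_aux 287905 ?_ ?_ ?_ ?_ ?_ ?_
  · rw [abs_le]; constructor <;> push_cast <;> linarith
  · norm_num
  · norm_num
  · norm_num [tcos, abs_le]
  · norm_num [tsin, abs_le]
  · norm_num

theorem dir_ok1 : ‖Complex.exp (2 * Real.pi * ((8373316 / 40353264 : ℝ) : ℂ) * Complex.I) -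
    (⟨((276689 : ℤ) : ℝ) / 2 ^ 20, ((1011412 : ℤ) : ℝ) / 2 ^ 20⟩ : ℂ)‖ ≤ 1 / 1000 := by
  have h1 := Real.pi_gt_d6
  have h2 := Real.pi_lt_d6
  refine dir_aux 130376 ?_ ?_ ?_ ?_ ?_ ?_
  · rw [abs_le]; constructor <;> push_cast <;> linarith
  · norm_num
  · norm_num
  · norm_num [tcos, abs_le]
  · norm_num [tsin, abs_le]
  · norm_num

theorem dir_ok2 : ‖Complex.exp (2 * Real.pi * ((18259948 / 40353264 : ℝ) : ℂ) * Complex.I) -
    (⟨((-1002226 : ℤ) : ℝ) / 2 ^ 20, ((308309 : ℤ) : ℝ) / 2 ^ 20⟩ : ℂ)‖ ≤ 1 / 1000 := by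
  have h1 := Real.pi_gt_d6
  have h2 := Real.pi_lt_d6
  refine dir_aux 284316 ?_ ?_ ?_ ?_ ?_ ?_
  · rw [abs_le]; constructor <;> push_cast <;> linarith
  · norm_num
  · norm_num
  · norm_num [tcos, abs_le]
  · norm_num [tsin, abs_le]
  · norm_num

theorem dir_ok3 : ‖Complex.exp (2 * Real.pi * ((6759844 / 40353264 : ℝ) : ℂ) * Complex.I) -
    (⟨((519431 : ℤ) : ℝ) / 2 ^ 20, ((910881 : ℤ) : ℝ) / 2 ^ 20⟩ : ℂ)‖ ≤ 1 / 1000 := by
  have h1 := Real.pi_gt_d6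
  have h2 := Real.pi_lt_d6
  refine dir_aux 105254 ?_ ?_ ?_ ?_ ?_ ?_
  · rw [abs_le]; constructor <;> push_cast <;> linarith
  · norm_num
  · norm_num
  · norm_num [tcos, abs_le]
  · norm_num [tsin, abs_le]
  · norm_num

theorem dir_ok4 : ‖Complex.exp (2 * Real.pi * ((6965644 / 40353264 : ℝ) : ℂ) * Complex.I) -
    (⟨((489981 : ℤ) : ℝ) / 2 ^ 20, ((927055 : ℤ) : ℝ) / 2 ^ 20⟩ : ℂ)‖ ≤ 1 / 1000 := by
  have h1 := Real.pi_gt_d6
  have h2 := Real.pi_lt_d6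
  refine dir_aux 108458 ?_ ?_ ?_ ?_ ?_ ?_
  · rw [abs_le]; constructor <;> push_cast <;> linarith
  · norm_num
  · norm_num
  · norm_num [tcos, abs_le]
  · norm_num [tsin, abs_le]
  · norm_num

theorem dir_ok5 : ‖Complex.exp (2 * Real.pi * ((8406244 / 40353264 : ℝ) : ℂ) * Complex.I) -
    (⟨((271500 : ℤ) : ℝ) / 2 ^ 20, ((1012818 : ℤ) : ℝ) / 2 ^ 20⟩ : ℂ)‖ ≤ 1 / 1000 := by
  have h1 := Real.pi_gt_d6
  have h2 := Real.pi_lt_d6
  refine dir_aux 130889 ?_ ?_ ?_ ?_ ?_ ?_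
  · rw [abs_le]; constructor <;> push_cast <;> linarith
  · norm_num
  · norm_num
  · norm_num [tcos, abs_le]
  · norm_num [tsin, abs_le]
  · norm_num

theorem dir_ok6 : ‖Complex.exp (2 * Real.pi * ((6960940 / 40353264 : ℝ) : ℂ) * Complex.I) -
    (⟨((490660 : ℤ) : ℝ) / 2 ^ 20, ((926696 : ℤ) : ℝ) / 2 ^ 20⟩ : ℂ)‖ ≤ 1 / 1000 := by
  have h1 := Real.pi_gt_d6
  have h2 := Real.pi_lt_d6
  refine dir_aux 108385 ?_ ?_ ?_ ?_ ?_ ?_
  · rw [abs_le]; constructor <;> push_cast <;> linarith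
  · norm_num
  · norm_num
  · norm_num [tcos, abs_le]
  · norm_num [tsin, abs_le]
  · norm_num

theorem dir_ok7 : ‖Complex.exp (2 * Real.pi * ((19936420 / 40353264 : ℝ) : ℂ) * Complex.I) -
    (⟨((-1047843 : ℤ) : ℝ) / 2 ^ 20, ((39210 : ℤ) : ℝ) / 2 ^ 20⟩ : ℂ)‖ ≤ 1 / 1000 := by
  have h1 := Real.pi_gt_d6
  have h2 := Real.pi_lt_d6
  refine dir_aux 310419 ?_ ?_ ?_ ?_ ?_ ?_
  · rw [abs_le]; constructor <;> push_cast <;> linarith
  · norm_num
  · norm_num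
  · norm_num [tcos, abs_le]
  · norm_num [tsin, abs_le]
  · norm_num

theorem dir_ok8 : ‖Complex.exp (2 * Real.pi * ((18495148 / 40353264 : ℝ) : ℂ) * Complex.I) -
    (⟨((-1012842 : ℤ) : ℝ) / 2 ^ 20, ((271407 : ℤ) : ℝ) / 2 ^ 20⟩ : ℂ)‖ ≤ 1 / 1000 := by
  have h1 := Real.pi_gt_d6
  have h2 := Real.pi_lt_d6
  refine dir_aux 287978 ?_ ?_ ?_ ?_ ?_ ?_
  · rw [abs_le]; constructor <;> push_cast <;> linarith
  · norm_num
  · norm_num
  · norm_num [tcos, abs_le]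
  · norm_num [tsin, abs_le]
  · norm_num

theorem dir_ok9 : ‖Complex.exp (2 * Real.pi * ((2642164 / 40353264 : ℝ) : ℂ) * Complex.I) -
    (⟨((961086 : ℤ) : ℝ) / 2 ^ 20, ((419315 : ℤ) : ℝ) / 2 ^ 20⟩ : ℂ)‖ ≤ 1 / 1000 := by
  have h1 := Real.pi_gt_d6
  have h2 := Real.pi_lt_d6
  refine dir_aux 41140 ?_ ?_ ?_ ?_ ?_ ?_
  · rw [abs_le]; constructor <;> push_cast <;> linarith
  · norm_num
  · norm_num
  · norm_num [tcos, abs_le]
  · norm_num [tsin, abs_le]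
  · norm_num

theorem dir_ok10 : ‖Complex.exp (2 * Real.pi * ((20137516 / 40353264 : ℝ) : ℂ) * Complex.I) -
    (⟨((-1048557 : ℤ) : ℝ) / 2 ^ 20, ((6386 : ℤ) : ℝ) / 2 ^ 20⟩ : ℂ)‖ ≤ 1 / 1000 := by
  have h1 := Real.pi_gt_d6
  have h2 := Real.pi_lt_d6
  refine dir_aux 313550 ?_ ?_ ?_ ?_ ?_ ?_
  · rw [abs_le]; constructor <;> push_cast <;> linarith
  · norm_num
  · norm_num
  · norm_num [tcos, abs_le]
  · norm_num [tsin, abs_le]
  · norm_num

theorem dir_ok11 : ‖Complex.exp (2 * Real.pi * ((19902820 / 40353264 : ℝ) : ℂ) * Complex.I) -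
    (⟨((-1047623 : ℤ) : ℝ) / 2 ^ 20, ((44691 : ℤ) : ℝ) / 2 ^ 20⟩ : ℂ)‖ ≤ 1 / 1000 := by
  have h1 := Real.pi_gt_d6
  have h2 := Real.pi_lt_d6
  refine dir_aux 309896 ?_ ?_ ?_ ?_ ?_ ?_
  · rw [abs_le]; constructor <;> push_cast <;> linarith
  · norm_num
  · norm_num
  · norm_num [tcos, abs_le]
  · norm_num [tsin, abs_le]
  · norm_num

theorem dir_ok12 : ‖Complex.exp (2 * Real.pi * ((8612716 / 40353264 : ℝ) : ℂ) * Complex.I) -
    (⟨((238804 : ℤ) : ℝ) / 2 ^ 20, ((1021021 : ℤ) : ℝ) / 2 ^ 20⟩ : ℂ)‖ ≤ 1 / 1000 := by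
  have h1 := Real.pi_gt_d6
  have h2 := Real.pi_lt_d6
  refine dir_aux 134104 ?_ ?_ ?_ ?_ ?_ ?_
  · rw [abs_le]; constructor <;> push_cast <;> linarith
  · norm_num
  · norm_num
  · norm_num [tcos, abs_le]
  · norm_num [tsin, abs_le]
  · norm_num

theorem dir_ok13 : ‖Complex.exp (2 * Real.pi * ((19935748 / 40353264 : ℝ) : ℂ) * Complex.I) -
    (⟨((-1047839 : ℤ) : ℝ) / 2 ^ 20, ((39319 : ℤ) : ℝ) / 2 ^ 20⟩ : ℂ)‖ ≤ 1 / 1000 := by
  have h1 := Real.pi_gt_d6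
  have h2 := Real.pi_lt_d6
  refine dir_aux 310409 ?_ ?_ ?_ ?_ ?_ ?_
  · rw [abs_le]; constructor <;> push_cast <;> linarith
  · norm_num
  · norm_num
  · norm_num [tcos, abs_le]
  · norm_num [tsin, abs_le]
  · norm_num

theorem dir_ok14 : ‖Complex.exp (2 * Real.pi * ((14377468 / 40353264 : ℝ) : ℂ) * Complex.I) -
    (⟨((-649374 : ℤ) : ℝ) / 2 ^ 20, ((823301 : ℤ) : ℝ) / 2 ^ 20⟩ : ℂ)‖ ≤ 1 / 1000 := by
  have h1 := Real.pi_gt_d6
  have h2 := Real.pi_lt_d6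
  refine dir_aux 223864 ?_ ?_ ?_ ?_ ?_ ?_
  · rw [abs_le]; constructor <;> push_cast <;> linarith
  · norm_num
  · norm_num
  · norm_num [tcos, abs_le]
  · norm_num [tsin, abs_le]
  · norm_num

theorem dir_ok15 : ‖Complex.exp (2 * Real.pi * ((12490996 / 40353264 : ℝ) : ℂ) * Complex.I) -
    (⟨((-383194 : ℤ) : ℝ) / 2 ^ 20, ((976050 : ℤ) : ℝ) / 2 ^ 20⟩ : ℂ)‖ ≤ 1 / 1000 := by
  have h1 := Real.pi_gt_d6
  have h2 := Real.pi_lt_d6
  refine dir_aux 194490 ?_ ?_ ?_ ?_ ?_ ?_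
  · rw [abs_le]; constructor <;> push_cast <;> linarith
  · norm_num
  · norm_num
  · norm_num [tcos, abs_le]
  · norm_num [tsin, abs_le]
  · norm_num

theorem dir_ok16 : ‖Complex.exp (2 * Real.pi * ((6730444 / 40353264 : ℝ) : ℂ) * Complex.I) -
    (⟨((523595 : ℤ) : ℝ) / 2 ^ 20, ((908493 : ℤ) : ℝ) / 2 ^ 20⟩ : ℂ)‖ ≤ 1 / 1000 := by
  have h1 := Real.pi_gt_d6
  have h2 := Real.pi_lt_d6
  refine dir_aux 104796 ?_ ?_ ?_ ?_ ?_ ?_
  · rw [abs_le]; constructor <;> push_cast <;> linarith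
  · norm_num
  · norm_num
  · norm_num [tcos, abs_le]
  · norm_num [tsin, abs_le]
  · norm_num

theorem dir_ok17 : ‖Complex.exp (2 * Real.pi * ((6961528 / 40353264 : ℝ) : ℂ) * Complex.I) -
    (⟨((490575 : ℤ) : ℝ) / 2 ^ 20, ((926740 : ℤ) : ℝ) / 2 ^ 20⟩ : ℂ)‖ ≤ 1 / 1000 := by
  have h1 := Real.pi_gt_d6
  have h2 := Real.pi_lt_d6
  refine dir_aux 108394 ?_ ?_ ?_ ?_ ?_ ?_
  · rw [abs_le]; constructor <;> push_cast <;> linarith
  · norm_num
  · norm_num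
  · norm_num [tcos, abs_le]
  · norm_num [tsin, abs_le]
  · norm_num

theorem dir_ok18 : ‖Complex.exp (2 * Real.pi * ((8377432 / 40353264 : ℝ) : ℂ) * Complex.I) -
    (⟨((276041 : ℤ) : ℝ) / 2 ^ 20, ((1011589 : ℤ) : ℝ) / 2 ^ 20⟩ : ℂ)‖ ≤ 1 / 1000 := by
  have h1 := Real.pi_gt_d6
  have h2 := Real.pi_lt_d6
  refine dir_aux 130440 ?_ ?_ ?_ ?_ ?_ ?_
  · rw [abs_le]; constructor <;> push_cast <;> linarith
  · norm_num
  · norm_num
  · norm_num [tcos, abs_le]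
  · norm_num [tsin, abs_le]
  · norm_num

theorem dir_ok19 : ‖Complex.exp (2 * Real.pi * ((18288760 / 40353264 : ℝ) : ℂ) * Complex.I) -
    (⟨((-1003599 : ℤ) : ℝ) / 2 ^ 20, ((303809 : ℤ) : ℝ) / 2 ^ 20⟩ : ℂ)‖ ≤ 1 / 1000 := by
  have h1 := Real.pi_gt_d6
  have h2 := Real.pi_lt_d6
  refine dir_aux 284764 ?_ ?_ ?_ ?_ ?_ ?_
  · rw [abs_le]; constructor <;> push_cast <;> linarith
  · norm_num
  · norm_num
  · norm_num [tcos, abs_le]
  · norm_num [tsin, abs_le]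
  · norm_num

theorem dir_ok20 : ‖Complex.exp (2 * Real.pi * ((0 / 40353264 : ℝ) : ℂ) * Complex.I) -
    (⟨((1048576 : ℤ) : ℝ) / 2 ^ 20, ((0 : ℤ) : ℝ) / 2 ^ 20⟩ : ℂ)‖ ≤ 1 / 1000 := by
  have h1 := Real.pi_gt_d6
  have h2 := Real.pi_lt_d6
  refine dir_aux 0 ?_ ?_ ?_ ?_ ?_ ?_
  · rw [abs_le]; constructor <;> push_cast <;> linarith
  · norm_num
  · norm_num
  · norm_num [tcos, abs_le]
  · norm_num [tsin, abs_le]
  · norm_num

theorem dir_ok21 : ‖Complex.exp (2 * Real.pi * ((20176632 / 40353264 : ℝ) : ℂ) * Complex.I) -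
    (⟨((-1048576 : ℤ) : ℝ) / 2 ^ 20, ((0 : ℤ) : ℝ) / 2 ^ 20⟩ : ℂ)‖ ≤ 1 / 1000 := by
  have h1 := Real.pi_gt_d6
  have h2 := Real.pi_lt_d6
  refine dir_aux 314159 ?_ ?_ ?_ ?_ ?_ ?_
  · rw [abs_le]; constructor <;> push_cast <;> linarith
  · norm_num
  · norm_num
  · norm_num [tcos, abs_le]
  · norm_num [tsin, abs_le]
  · norm_num

theorem dir_ok' (i : Fin 22) :
    ‖Complex.exp (2 * Real.pi * (ang i : ℂ) * Complex.I) -
      (⟨(dxI i : ℝ) / 2 ^ 20, (dyI i : ℝ) / 2 ^ 20⟩ : ℂ)‖ ≤ 1 / 1000 := by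
  fin_cases i
  · have := dir_ok0
    simpa [ang, numI, dxI, dyI] using this
  · have := dir_ok1
    simpa [ang, numI, dxI, dyI] using this
  · have := dir_ok2
    simpa [ang, numI, dxI, dyI] using this
  · have := dir_ok3
    simpa [ang, numI, dxI, dyI] using this
  · have := dir_ok4
    simpa [ang, numI, dxI, dyI] using this
  · have := dir_ok5
    simpa [ang, numI, dxI, dyI] using this
  · have := dir_ok6
    simpa [ang, numI, dxI, dyI] using this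
  · have := dir_ok7
    simpa [ang, numI, dxI, dyI] using this
  · have := dir_ok8
    simpa [ang, numI, dxI, dyI] using this
  · have := dir_ok9
    simpa [ang, numI, dxI, dyI] using this
  · have := dir_ok10
    simpa [ang, numI, dxI, dyI] using this
  · have := dir_ok11
    simpa [ang, numI, dxI, dyI] using this
  · have := dir_ok12
    simpa [ang, numI, dxI, dyI] using this
  · have := dir_ok13
    simpa [ang, numI, dxI, dyI] using this
  · have := dir_ok14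
    simpa [ang, numI, dxI, dyI] using this
  · have := dir_ok15
    simpa [ang, numI, dxI, dyI] using this
  · have := dir_ok16
    simpa [ang, numI, dxI, dyI] using this
  · have := dir_ok17
    simpa [ang, numI, dxI, dyI] using this
  · have := dir_ok18
    simpa [ang, numI, dxI, dyI] using this
  · have := dir_ok19
    simpa [ang, numI, dxI, dyI] using this
  · have := dir_ok20
    simpa [ang, numI, dxI, dyI] using this
  · have := dir_ok21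
    simpa [ang, numI, dxI, dyI] using this

theorem dir_ok (i : Fin 22) :
    ‖(⟨(dxI i : ℝ) / 2 ^ 20, (dyI i : ℝ) / 2 ^ 20⟩ : ℂ) -
      Complex.exp (2 * Real.pi * (ang i : ℂ) * Complex.I)‖ ≤ 1 / 500 := by
  rw [norm_sub_rev]
  exact (dir_ok' i).trans (by norm_num)

end Pool.Agent.JH
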