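import Pool.Agent.Lib.MP_8ebc20_an.R.Def
import Pool.Agent.Lib.MP_8ebc20_an.Ifc

/-!
# R.EXT7: the exterior map of the polynomial of degree 7
-/

set_option autoImplicit false

namespace Pool.Agent.JH

open Polynomial Set Metric Filter Topology

/-- the rays are close to the straight rays far out -/
def FarB (ψ : ℂ → ℂ) : Prop := ∀ s t : ℝ, Real.log 192 ≤ s →
    ‖EE ψ s t - Complex.exp ((s : ℂ) + 2 * Real.pi * t * Complex.I)‖ ≤ 22 / 1000 * Real.exp s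

theorem g7_sub (z : ℂ) {R : ℝ} (hR : 1 ≤ R) (hz : R ≤ ‖z‖) :
    ‖ev g7 z - z ^ g7.natDegree‖ ≤
      (36 / 10 / R ^ 2 + 41 / 10 / R ^ 4 + 24 / 10 / R ^ 6) * ‖z‖ ^ g7.natDegree := by
  rw [natDegree_g7, ev_g7]
  have hR0 : 0 < R := by linarith
  have hz0 : 0 ≤ ‖z‖ := norm_nonneg z
  have e : gF z - z ^ 7 = ga * z ^ 5 + gb * z ^ 3 + gc * z := by
    unfold gF
    ring
  rw [e]
  have h1 : ‖ga * z ^ 5 + gb * z ^ 3 + gc * z‖ ≤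
      36 / 10 * ‖z‖ ^ 5 + 41 / 10 * ‖z‖ ^ 3 + 24 / 10 * ‖z‖ := by
    refine (norm_add₃_le).trans ?_
    rw [norm_mul, norm_mul, norm_mul, norm_pow, norm_pow]
    have := norm_ga
    have := norm_gb
    have := norm_gc
    gcongr
  have p2 : R ^ 2 ≤ ‖z‖ ^ 2 := pow_le_pow_left₀ hR0.le hz 2
  have p4 : R ^ 4 ≤ ‖z‖ ^ 4 := pow_le_pow_left₀ hR0.le hz 4
  have p6 : R ^ 6 ≤ ‖z‖ ^ 6 := pow_le_pow_left₀ hR0.le hz 6
  have q2 : 36 / 10 * ‖z‖ ^ 5 ≤ 36 / 10 / R ^ 2 * ‖z‖ ^ 7 := by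
    have q := mul_le_mul_of_nonneg_left p2 (show 0 ≤ 36 / 10 * ‖z‖ ^ 5 by positivity)
    rw [show 36 / 10 / R ^ 2 * ‖z‖ ^ 7 = (36 / 10 * ‖z‖ ^ 7) / R ^ 2 by ring,
      le_div_iff₀ (by positivity)]
    calc 36 / 10 * ‖z‖ ^ 5 * R ^ 2 ≤ 36 / 10 * ‖z‖ ^ 5 * ‖z‖ ^ 2 := q
      _ = 36 / 10 * ‖z‖ ^ 7 := by ring
  have q4 : 41 / 10 * ‖z‖ ^ 3 ≤ 41 / 10 / R ^ 4 * ‖z‖ ^ 7 := by
    have q := mul_le_mul_of_nonneg_left p4 (show 0 ≤ 41 / 10 * ‖z‖ ^ 3 by positivity)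
    rw [show 41 / 10 / R ^ 4 * ‖z‖ ^ 7 = (41 / 10 * ‖z‖ ^ 7) / R ^ 4 by ring,
      le_div_iff₀ (by positivity)]
    calc 41 / 10 * ‖z‖ ^ 3 * R ^ 4 ≤ 41 / 10 * ‖z‖ ^ 3 * ‖z‖ ^ 4 := q
      _ = 41 / 10 * ‖z‖ ^ 7 := by ring
  have q6 : 24 / 10 * ‖z‖ ≤ 24 / 10 / R ^ 6 * ‖z‖ ^ 7 := by
    have q := mul_le_mul_of_nonneg_left p6 (show 0 ≤ 24 / 10 * ‖z‖ by positivity)
    rw [show 24 / 10 / R ^ 6 * ‖z‖ ^ 7 = (24 / 10 * ‖z‖ ^ 7) / R ^ 6 by ring,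
      le_div_iff₀ (by positivity)]
    calc 24 / 10 * ‖z‖ * R ^ 6 ≤ 24 / 10 * ‖z‖ * ‖z‖ ^ 6 := q
      _ = 24 / 10 * ‖z‖ ^ 7 := by ring
  rw [add_mul, add_mul]
  linarith

theorem g7_near (z : ℂ) (hz : 8 ≤ ‖z‖) :
    ‖ev g7 z - z ^ g7.natDegree‖ ≤ 1 / 16 * ‖z‖ ^ g7.natDegree := by
  refine (g7_sub z (by norm_num) hz).trans ?_
  gcongr
  norm_num

theorem g7_far (z : ℂ) (hz : 259 / 10 ≤ ‖z‖) :
    ‖ev g7 z - z ^ g7.natDegree‖ ≤ 11 / 2000 * ‖z‖ ^ g7.natDegree := by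
  refine (g7_sub z (by norm_num) hz).trans ?_
  gcongr
  norm_num

theorem log_aux1 : Real.log 8 + 2 < Real.log 192 := by
  rw [Real.lt_log_iff_exp_lt (by norm_num), Real.exp_add, Real.exp_log (by norm_num)]
  have h1 : Real.exp 2 = Real.exp 1 * Real.exp 1 := by rw [← Real.exp_add]; norm_num
  have h2 := Real.exp_one_lt_d9
  have h3 := Real.exp_pos 1
  rw [h1]
  nlinarith

theorem log_aux2 : Real.log (259 / 10) + 2 ≤ Real.log 192 := by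
  rw [Real.le_log_iff_exp_le (by norm_num), Real.exp_add, Real.exp_log (by norm_num)]
  have h1 : Real.exp 2 = Real.exp 1 * Real.exp 1 := by rw [← Real.exp_add]; norm_num
  have h2 := Real.exp_one_lt_d9
  have h3 := Real.exp_pos 1
  rw [h1]
  nlinarith

/-- the exterior map of `g7` -/
theorem exists_g7_ext (hc : ∀ c : ℂ, g7.derivative.eval c = 0 → c ∈ KSet g7) :
    ∃ ψ ψi : ℂ → ℂ, ExtMap g7 ψ ψi ∧ FarB ψ ∧
      ∀ s t : ℝ, 0 < s → EE ψ s (t + 1 / 2) = -EE ψ s t := by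
  obtain ⟨ψ, ψi, h1, h2, h3⟩ := exists_ext (f := g7) (by rw [natDegree_g7]; norm_num) monic_g7 hc
    (ρ := 8) (by norm_num) g7_near
  refine ⟨ψ, ψi, h1, fun s t hs => ?_, h3 (by rw [natDegree_g7]; decide) (fun z => ?_)⟩
  · have := h2 (259 / 10) (11 / 2000) (by norm_num) g7_far s t (by linarith [log_aux1])
      (by linarith [log_aux2])
    refine this.trans (le_of_eq ?_)
    ring
  · rw [ev_g7]
    exact gF_neg z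

end Pool.Agent.JH
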