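import Pool.Agent.Lib.MP_8ebc20_an.R.Lev
import Pool.Agent.Lib.MP_8ebc20_an.R.Data

/-!
# R.START: the discs of level 0
-/

set_option autoImplicit false

namespace Pool.Agent.JH

open Set Metric Filter Topology

theorem lev0D_sound {z : ℝ → ℂ} {ux uy : ℤ} {e : ℂ} (he : ‖e‖ = 1)
    (hu : ‖(⟨(ux : ℝ) / 2 ^ 20, (uy : ℝ) / 2 ^ 20⟩ : ℂ) - e‖ ≤ 1 / 500) {hi lo : ℕ} (hlo : 192 ≤ lo)
    (hle : lo ≤ hi) (hz : ∀ s, Real.log 192 ≤ s → ‖z s - Real.exp s * e‖ ≤ 23 / 1000 * Real.exp s) :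
    ∀ s ∈ Icc (Real.log lo) (Real.log hi), z s ∈ (lev0D ux uy hi lo).B := by
  intro s hs
  have hlo' : (192 : ℝ) ≤ lo := by exact_mod_cast hlo
  have hhl : (lo : ℝ) ≤ hi := by exact_mod_cast hle
  have hhi : (192 : ℝ) ≤ hi := hlo'.trans hhl
  have hlo0 : (0 : ℝ) < lo := by linarith
  have hhi0 : (0 : ℝ) < hi := by linarith
  have hs192 : Real.log 192 ≤ s := (Real.log_le_log (by norm_num) hlo').trans hs.1
  have e1 : (lo : ℝ) ≤ Real.exp s := by
    rw [← Real.log_le_iff_le_exp hlo0]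
    exact hs.1
  have e2 : Real.exp s ≤ hi := by
    rw [← Real.le_log_iff_exp_le hhi0]
    exact hs.2
  set u : ℂ := ⟨(ux : ℝ) / 2 ^ 20, (uy : ℝ) / 2 ^ 20⟩ with hudef
  have hc : (lev0D ux uy hi lo).c = (((hi + lo) / 2 : ℝ) : ℂ) * u := by
    apply Complex.ext
    · simp only [Dd.c, cpt, lev0D, hudef, Complex.mul_re, Complex.ofReal_re, Complex.ofReal_im]
      push_cast
      ring
    · simp only [Dd.c, cpt, lev0D, hudef, Complex.mul_im, Complex.ofReal_re, Complex.ofReal_im]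
      push_cast
      ring
  have hr : (lev0D ux uy hi lo).R = ((hi : ℝ) - lo) / 2 + hi * (107374184 / 2 ^ 32) := by
    simp only [Dd.R, lev0D]
    push_cast [Nat.cast_sub hle]
    ring
  rw [Dd.B, mem_ball, dist_eq_norm, hc, hr]
  have e4 : z s - (((hi + lo) / 2 : ℝ) : ℂ) * u = (z s - ((Real.exp s : ℝ) : ℂ) * e) +
      ((Real.exp s - (hi + lo) / 2 : ℝ) : ℂ) * e - (((hi + lo) / 2 : ℝ) : ℂ) * (u - e) := by
    push_cast
    ring
  rw [e4]
  have f1 := hz s hs192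
  have f2 : ‖((Real.exp s - (hi + lo) / 2 : ℝ) : ℂ) * e‖ ≤ ((hi : ℝ) - lo) / 2 := by
    rw [norm_mul, Complex.norm_real, Real.norm_eq_abs, he, mul_one, abs_le]
    constructor <;> linarith
  have f3 : ‖(((hi + lo) / 2 : ℝ) : ℂ) * (u - e)‖ ≤ hi * (1 / 500) := by
    rw [norm_mul, Complex.norm_real, Real.norm_of_nonneg (by positivity)]
    have : ((hi : ℝ) + lo) / 2 ≤ hi := by linarith
    gcongr
  have f4 : ‖(z s - ((Real.exp s : ℝ) : ℂ) * e) + ((Real.exp s - (hi + lo) / 2 : ℝ) : ℂ) * e -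
      (((hi + lo) / 2 : ℝ) : ℂ) * (u - e)‖ ≤ ‖z s - ((Real.exp s : ℝ) : ℂ) * e‖ +
        ‖((Real.exp s - (hi + lo) / 2 : ℝ) : ℂ) * e‖ + ‖(((hi + lo) / 2 : ℝ) : ℂ) * (u - e)‖ :=
    (norm_sub_le _ _).trans (add_le_add (norm_add_le _ _) le_rfl)
  refine f4.trans_lt ?_
  have f5 : 23 / 1000 * Real.exp s ≤ 23 / 1000 * hi := by gcongr
  have f8 : (hi : ℝ) * (25 / 1000) < hi * (107374184 / 2 ^ 32) :=
    mul_lt_mul_of_pos_left (by norm_num) hhi0
  linarith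

theorem lev0_sound {z : ℝ → ℂ} {ux uy : ℤ} {e : ℂ} (he : ‖e‖ = 1)
    (hu : ‖(⟨(ux : ℝ) / 2 ^ 20, (uy : ℝ) / 2 ^ 20⟩ : ℂ) - e‖ ≤ 1 / 500)
    (hz : ∀ s, Real.log 192 ≤ s → ‖z s - Real.exp s * e‖ ≤ 23 / 1000 * Real.exp s) :
    ∀ (xs : List ℕ), xs ≠ [] → xs.Pairwise (fun a b => b ≤ a) → (∀ x ∈ xs, 192 ≤ x) →
      Along z (xs.map fun x : ℕ => Real.log x) (lev0 ux uy xs)
  | [], h, _, _ => absurd rfl h
  | [x], _, _, _ => trivial
  | hi :: lo :: xs, _, hp, h => by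
    refine ⟨lev0D_sound he hu (h lo (by simp)) ((List.pairwise_cons.mp hp).1 lo (by simp)) hz,
      lev0_sound he hu hz (lo :: xs) (by simp) (List.pairwise_cons.mp hp).2 fun x hx => h x ?_⟩
    exact List.mem_cons_of_mem _ hx

/-- check of the moduli -/
def chkXs : List Nat → Bool
  | hi :: lo :: xs => Nat.ble lo hi && Nat.ble 192 lo && chkXs (lo :: xs)
  | _ => true

theorem chkXs_pos : ∀ xs : List ℕ, chkXs xs = true → (∀ x, xs.head? = some x → 192 ≤ x) →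
    (xs.Pairwise fun a b => b ≤ a) ∧ ∀ x ∈ xs, 192 ≤ x
  | [], _, _ => ⟨List.Pairwise.nil, by simp⟩
  | [x], _, h => ⟨List.pairwise_singleton _ _, by simpa using h⟩
  | hi :: lo :: xs, hc, h => by
    simp only [chkXs, Bool.and_eq_true, Nat.ble_eq] at hc
    obtain ⟨h1, h2⟩ := chkXs_pos (lo :: xs) hc.2 (by simpa using hc.1.2)
    refine ⟨List.pairwise_cons.mpr ⟨fun b hb => ?_, h1⟩, fun x hx => ?_⟩
    · rcases List.mem_cons.mp hb with rfl | hb
      · exact hc.1.1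
      · exact ((List.pairwise_cons.mp h1).1 b hb).trans hc.1.1
    · rcases List.mem_cons.mp hx with rfl | hx
      · exact h x rfl
      · exact h2 x hx

theorem xs0_chk : chkXs xs0 = true := by decide +kernel

theorem xs0_ok : xs0 ≠ [] ∧ xs0.Pairwise (fun a b => b ≤ a) ∧ (∀ x ∈ xs0, 192 ≤ x) ∧
    xs0.head? = some (192 ^ 7) ∧ xs0.getLast? = some 192 := by
  obtain ⟨h1, h2⟩ := chkXs_pos xs0 xs0_chk (by simp [xs0])
  exact ⟨by simp [xs0], h1, h2, by decide +kernel, by decide +kernel⟩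

/-- the levels of the points of subdivision of level `0` -/
noncomputable def bs0 : List ℝ := xs0.map fun x : ℕ => Real.log (x : ℝ)

theorem start_along {z : ℝ → ℂ} {ux uy : ℤ} {e : ℂ} (he : ‖e‖ = 1)
    (hu : ‖(⟨(ux : ℝ) / 2 ^ 20, (uy : ℝ) / 2 ^ 20⟩ : ℂ) - e‖ ≤ 1 / 500)
    (hz : ∀ s, Real.log 192 ≤ s → ‖z s - Real.exp s * e‖ ≤ 23 / 1000 * Real.exp s) :
    Along z bs0 (lev0 ux uy xs0) :=
  lev0_sound he hu hz xs0 xs0_ok.1 xs0_ok.2.1 xs0_ok.2.2.1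

theorem bs0_dcr : Dcr bs0 := by
  obtain ⟨h1, h2⟩ := chkXs_pos xs0 xs0_chk (by simp [xs0])
  constructor
  · unfold bs0
    rw [List.pairwise_map]
    refine List.Pairwise.imp_of_mem (fun {a b} ha hb hab => ?_) h1
    have : (192 : ℝ) ≤ b := by exact_mod_cast h2 b hb
    exact Real.log_le_log (by linarith) (by exact_mod_cast hab)
  · intro b hb
    obtain ⟨x, hx, rfl⟩ := List.mem_map.mp hb
    have : (192 : ℝ) ≤ x := by exact_mod_cast h2 x hx
    exact Real.log_pos (by linarith)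

theorem bs0_last : bs0.getLast? = some (Real.log 192) := by
  unfold bs0
  rw [List.getLast?_map, xs0_ok.2.2.2.2]
  norm_num

theorem bs0_head : bs0.head? = some (7 * Real.log 192) := by
  unfold bs0
  rw [List.head?_map, xs0_ok.2.2.2.1]
  simp only [Option.map_some, Option.some.injEq]
  rw [Nat.cast_pow, Real.log_pow]
  norm_num

end Pool.Agent.JH
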