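import Pool.Agent.Lib.MP_8ebc20_an.R.Dir
import Pool.Agent.Lib.MP_8ebc20_an.R.Ext7
import Pool.Agent.Lib.MP_8ebc20_an.R.Start
import Pool.Agent.Lib.MP_8ebc20_an.R.Trap7
import Pool.Agent.Lib.MP_8ebc20_an_R.SLift
import Pool.Agent.Lib.MP_8ebc20_an.Ifc
import Pool.Agent.Lib.MP_8ebc20_an.Contr

/-!
# R.LAND: landing of the 22 rays
-/

set_option autoImplicit false

namespace Pool.Agent.JH

open Polynomial Set Metric Filter Topology

/-- the Böttcher map of `g7` -/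
theorem exists_ext7 : ∃ ψ ψi : ℂ → ℂ, ExtMap g7 ψ ψi ∧ FarB ψ ∧
    ∀ s t : ℝ, 0 < s → EE ψ s (t + 1 / 2) = -EE ψ s t := exists_g7_ext hyp7.crit

theorem lastL_eq : ∀ L : List (List Dd), lastL' L = lastL L
  | [] => rfl
  | [_] => rfl
  | _ :: L :: Ls => lastL_eq (L :: Ls)

theorem last_mem (i : Fin 22) {D : Dd} (hD : D ∈ lastL' (rayI i)) : D.CB ⊆ (tbI (ptI i)).B := by
  rw [lastL_eq] at hD
  exact in_sound (List.all_eq_true.mp (last_chk i) D hD)

variable {ψ ψi : ℂ → ℂ} {γ : ℝ → ℂ}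

theorem ray_img (hE : ExtMap g7 ψ ψi) (i : Fin 22) {s : ℝ} (hs : 0 < s) :
    gF (EE ψ s (ang i)) = EE ψ (7 * s) (ang (sigI i)) := by
  have h := hE.EE_it (by rw [natDegree_g7]; norm_num) hs (ang i) 1
  rw [ev_g7, natDegree_g7] at h
  obtain ⟨k, hk⟩ := ang7 i
  simp only [Function.iterate_one, pow_one, Nat.cast_ofNat] at h
  rw [h, hk, EE_int]

theorem ray_cont (hE : ExtMap g7 ψ ψi) (t : ℝ) : ContinuousOn (fun s => EE ψ s t) (Ioi 0) := by
  have h := hE.EE_cont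
  exact h.comp (f := fun s : ℝ => (s, t)) (by fun_prop) (fun s hs => hs)

theorem ray_start (hE : ExtMap g7 ψ ψi) (he : FarB ψ) :
    ∃ b : ℝ, 0 < b ∧ ∀ i : Fin 22, ∀ s ∈ Icc b (7 * b), EE ψ s (ang i) ∈ (tbI (ptI i)).B := by
  obtain ⟨b', hb', hfin⟩ := all_sound sigI (fun i s => EE ψ s (ang i)) (fun i => ray_cont hE _)
    (fun i s hs => ray_img hE i hs) gs0 rayI bs0 (Real.log 192)
    rayI_chk bs0_dcr bs0_last bs0_head
    (fun i => by
      obtain ⟨Ls, hLs⟩ := rayI_head i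
      refine ⟨_, Ls, hLs, ?_⟩
      refine start_along (e := Complex.exp (2 * Real.pi * (ang i : ℂ) * Complex.I)) ?_ (dir_ok i) ?_
      · rw [Complex.norm_exp]
        simp
      · intro s hs
        have := he s (ang i) hs
        rw [Complex.exp_add, ← Complex.ofReal_exp] at this
        exact this.trans (by have := Real.exp_pos s; linarith))
  refine ⟨b', hb', fun i s hs => ?_⟩
  obtain ⟨D, hD, hz⟩ := hfin i s hs
  exact last_mem i hD (ball_subset_closedBall hz)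

/-- the landing points -/
theorem land (hE : ExtMap g7 ψ ψi) (hl : IsLoop g7 (frontier (KSet g7)) ψ γ) (he : FarB ψ) :
    (∀ i : Fin 22, γ (ang i) ∈ (tbI (ptI i)).CB) ∧
      (∀ i : Fin 22, gF (γ (ang i)) = γ (ang (sigI i))) ∧
      ∀ i j : Fin 22, ptI i = ptI j → γ (ang i) = γ (ang j) := by
  obtain ⟨b, hb, hst⟩ := ray_start hE he
  have htl : ∀ p : Fin 12, ∃ l : ℝ, 0 < l ∧ (tbI (fpI p)).R + ‖gF (tbI p).c - (tbI (fpI p)).c‖ < l * (tbI p).R ∧
      ∀ x ∈ (tbI p).CB, ∀ y ∈ (tbI p).CB, l * ‖x - y‖ ≤ ‖gF x - gF y‖ := fun p => (tail_sound (tail_chk p)).2.2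
  choose μ hμ0 hμ1 hμ2 using htl
  have := rays_land (n := 22) (F := gF) (c := fun i s => EE ψ s (ang i)) (g := fun i => γ (ang i))
    (σ := sigI) (P := Fin 12) (π := ptI) (φ := fpI) (v := fun p => (tbI p).c) (ρ := fun p => (tbI p).R)
    (μ := μ) continuous_gF (fun i => ray_cont hE _) (fun i s hs => ray_img hE i hs) pt_sig
    (fun i => hμ0 _) (fun i => hμ2 _) (fun i => hμ1 _) (s₁ := 7 * b) (by positivity)
    (fun i s hs => by
      rw [mul_div_cancel_left₀ b (by norm_num : (7:ℝ) ≠ 0)] at hs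
      exact ball_subset_closedBall (hst i s hs))
    (fun i => by
      rw [Metric.tendsto_nhdsWithin_nhds]
      intro ε hε
      obtain ⟨s₀, hs₀, h⟩ := hl.lim ε hε
      refine ⟨s₀, hs₀, fun {s} hs hs' => ?_⟩
      rw [dist_eq_norm]
      refine h s (ang i) hs ?_
      rw [Real.dist_eq, sub_zero, abs_of_pos hs] at hs'
      exact hs')
  exact ⟨this.2.1, this.2.2.1, this.2.2.2⟩

end Pool.Agent.JH
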