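import Pool.Agent.Lib.MP_8ebc20_an.R.Snd

/-!
# R.LEV: soundness of the level checks

`Along z bs Ds`: with `bs = b₀ ≥ b₁ ≥ ...` the curve `z` maps `[b_{j+1}, b_j]` into the open disc `Ds[j]`.
-/

set_option autoImplicit false

namespace Pool.Agent.JH

open Set Metric Filter Topology

/-- the curve `z` runs through the discs -/
def Along (z : ℝ → ℂ) : List ℝ → List Dd → Prop
  | [_], [] => True
  | b :: b' :: bs, D :: Ds => (∀ s ∈ Icc b' b, z s ∈ D.B) ∧ Along z (b' :: bs) Ds
  | _, _ => False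

/-- the coarser partition -/
def coarse : List ℕ → List ℝ → List ℝ
  | [], bs => bs.take 1
  | g :: gs, bs => bs.take 1 ++ coarse gs (bs.drop g)

/-- positive and weakly decreasing -/
def Dcr (bs : List ℝ) : Prop := bs.Pairwise (fun a b => b ≤ a) ∧ ∀ b ∈ bs, 0 < b

theorem Along.cases {z : ℝ → ℂ} {bs : List ℝ} {Ds : List Dd} (h : Along z bs Ds) :
    (∃ b, bs = [b] ∧ Ds = []) ∨ ∃ b b' bs' D Ds', bs = b :: b' :: bs' ∧ Ds = D :: Ds' ∧
      (∀ s ∈ Icc b' b, z s ∈ D.B) ∧ Along z (b' :: bs') Ds' := by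
  rcases bs with _ | ⟨b, _ | ⟨b', bs⟩⟩
  · rcases Ds with _ | ⟨D, Ds⟩ <;> exact h.elim
  · rcases Ds with _ | ⟨D, Ds⟩
    · exact Or.inl ⟨b, rfl, rfl⟩
    · exact h.elim
  · rcases Ds with _ | ⟨D, Ds⟩
    · exact h.elim
    · exact Or.inr ⟨b, b', bs, D, Ds, rfl, rfl, h.1, h.2⟩

/-- dropping the first `g` segments -/
theorem Along.drop {z : ℝ → ℂ} : ∀ (g : ℕ) {bs : List ℝ} {Ds : List Dd}, Along z bs Ds →
    g ≤ Ds.length → ∃ b bs', bs.drop g = b :: bs' ∧ Along z (bs.drop g) (Ds.drop g) ∧
      (1 ≤ g → ∀ s, b ≤ s → (∀ a, bs.head? = some a → s ≤ a) → ∃ t ∈ Ds.take g, z s ∈ t.B)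
  | 0, bs, Ds, h, _ => by
    rcases h.cases with ⟨b, rfl, rfl⟩ | ⟨b, b', bs', D, Ds', rfl, rfl, h1, h2⟩
    · exact ⟨b, [], rfl, h, fun h => absurd h (by norm_num)⟩
    · exact ⟨b, b' :: bs', rfl, h, fun h => absurd h (by norm_num)⟩
  | g + 1, bs, Ds, h, hg => by
    rcases h.cases with ⟨b, rfl, rfl⟩ | ⟨b, b', bs', D, Ds', rfl, rfl, h1, h2⟩
    · simp at hg
    · obtain ⟨c, cs, e1, e2, e3⟩ := Along.drop g h2 (by simpa using hg)
      refine ⟨c, cs, by simpa using e1, by simpa using e2, fun _ s hs hs' => ?_⟩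
      have hsb : s ≤ b := hs' b rfl
      by_cases hb : b' ≤ s
      · exact ⟨D, by simp, h1 s ⟨hb, hsb⟩⟩
      · push Not at hb
        rcases Nat.eq_zero_or_pos g with rfl | hg0
        · simp only [List.drop_zero, List.cons.injEq] at e1
          rw [← e1.1] at hs
          exact absurd hs (not_le.mpr hb)
        · obtain ⟨t, ht, ht'⟩ := e3 hg0 s hs (fun a ha => by
            simp only [List.head?_cons, Option.some.injEq] at ha
            rw [← ha]; exact hb.le)
          exact ⟨t, by simp [List.take_succ_cons, ht], ht'⟩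

theorem coarse_cons (gs : List ℕ) (b : ℝ) (bs : List ℝ) :
    ∃ cs, coarse gs (b :: bs) = b :: cs := by
  cases gs with
  | nil => exact ⟨[], rfl⟩
  | cons g gs => exact ⟨coarse gs ((b :: bs).drop g), rfl⟩

theorem coarse_sublist : ∀ (gs : List ℕ) (bs : List ℝ), (∀ g ∈ gs, 1 ≤ g) → (coarse gs bs).Sublist bs
  | [], bs, _ => List.take_sublist 1 bs
  | g :: gs, bs, h => by
    have h1 := coarse_sublist gs (bs.drop g) (fun g' hg' => h g' (by simp [hg']))
    have hg : 1 ≤ g := h g (by simp)
    have h2 : (bs.drop g).Sublist (bs.drop 1) := by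
      have := List.drop_sublist_drop_left bs hg
      exact this
    have h3 : (bs.take 1 ++ bs.drop 1).Sublist bs := by
      rw [List.take_append_drop]
    exact ((List.Sublist.refl _).append (h1.trans h2)).trans h3

theorem Dcr.map {bs cs : List ℝ} (h : Dcr bs) (hs : cs.Sublist bs) : Dcr (cs.map (· / 7)) := by
  constructor
  · rw [List.pairwise_map]
    exact (h.1.sublist hs).imp (fun {a b} hab => by linarith)
  · intro b hb
    obtain ⟨a, ha, rfl⟩ := List.mem_map.mp hb
    have := h.2 a (hs.subset ha)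
    positivity


theorem Along.length {z : ℝ → ℂ} : ∀ {bs : List ℝ} {Ds : List Dd}, Along z bs Ds →
    bs.length = Ds.length + 1
  | bs, Ds, h => by
    rcases h.cases with ⟨b, rfl, rfl⟩ | ⟨b, b', bs', D, Ds', rfl, rfl, _, h2⟩
    · rfl
    · have := Along.length h2
      simp only [List.length_cons] at this ⊢
      omega
termination_by bs => bs.length

/-- one ray at one level -/
theorem ray_sound {z w : ℝ → ℂ} (hz : ContinuousOn z (Ioi 0))
    (hzw : ∀ s, 0 < s → gF (z s) = w (7 * s)) :
    ∀ (gs : List ℕ) (Ds tg : List Dd) (prev : Dd) (bs : List ℝ), chkRay prev tg gs Ds = true →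
      Along w bs tg → Dcr bs → (∀ b, bs.head? = some b → z (b / 7) ∈ prev.CB) →
      Along z ((coarse gs bs).map (· / 7)) Ds ∧ (coarse gs bs).getLast? = bs.getLast? ∧
        ∀ g ∈ gs, 1 ≤ g
  | [], Ds, tg, prev, bs, hc, ha, hd, hp => by
    cases tg with
    | cons T tg => simp [chkRay] at hc
    | nil =>
      cases Ds with
      | cons D Ds => simp [chkRay] at hc
      | nil =>
        rcases ha.cases with ⟨b, rfl, _⟩ | ⟨b, b', bs', D, Ds', _, h, _⟩
        · exact ⟨trivial, rfl, by simp⟩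
        · exact absurd h (by simp)
  | g :: gs, Ds, tg, prev, bs, hc, ha, hd, hp => by
    cases Ds with
    | nil => simp [chkRay] at hc
    | cons D Ds =>
      simp only [chkRay, Bool.and_eq_true, Nat.ble_eq] at hc
      obtain ⟨⟨⟨hg1, hg2⟩, hseg⟩, hrec⟩ := hc
      obtain ⟨c, cs, e1, e2, e3⟩ := Along.drop g ha hg2
      obtain ⟨R, hR1, hR2, hR3, hR4⟩ := seg_sound hseg
      have hdd : Dcr (bs.drop g) :=
        ⟨hd.1.sublist (List.drop_sublist g bs), fun b hb => hd.2 b ((List.drop_sublist g bs).subset hb)⟩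
      -- the head
      obtain ⟨b0, bs0, rfl⟩ : ∃ b0 bs0, bs = b0 :: bs0 := by
        cases bs with
        | nil => simp at e1
        | cons b bs => exact ⟨b, bs, rfl⟩
      have hb0 : 0 < b0 := hd.2 b0 (by simp)
      have hcmem : c ∈ (b0 :: bs0).drop g := by rw [e1]; simp
      have hcm : c ∈ bs0 := by
        obtain ⟨g', rfl⟩ : ∃ g', g = g' + 1 := ⟨g - 1, by omega⟩
        rw [List.drop_succ_cons] at hcmem
        exact (List.drop_sublist g' bs0).subset hcmem
      have hc0 : 0 < c := hd.2 c (by simp [hcm])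
      have hcb : c ≤ b0 := (List.pairwise_cons.mp hd.1).1 c hcm
      have hlift : ∀ s ∈ Icc (c / 7) (b0 / 7), z s ∈ ball D.c D.R := by
        refine lift_step (by linarith) (hz.mono fun s hs => ?_) hR2 hR3 (fun s hs => ?_) (hR1 (hp b0 rfl))
        · exact lt_of_lt_of_le (by positivity) hs.1
        · have hs0 : 0 < s := lt_of_lt_of_le (by positivity) hs.1
          obtain ⟨t, ht, ht'⟩ := e3 hg1 (7 * s) (by linarith [hs.1]) (fun a ha => by
            simp only [List.head?_cons, Option.some.injEq] at ha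
            linarith [hs.2])
          rw [hzw s hs0]
          exact hR4 t ht ht'
      have hrec' := ray_sound hz hzw gs Ds (tg.drop g) D ((b0 :: bs0).drop g) hrec e2 hdd (fun b hb => by
        rw [e1] at hb
        simp only [List.head?_cons, Option.some.injEq] at hb
        rw [← hb]
        exact ball_subset_closedBall (hlift (c / 7) ⟨le_rfl, by linarith⟩))
      obtain ⟨r1, r2, r3⟩ := hrec'
      obtain ⟨ds, hds⟩ := coarse_cons gs c cs
      rw [e1, hds] at r1
      have hco : coarse (g :: gs) (b0 :: bs0) = b0 :: c :: ds := by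
        simp only [coarse, e1, hds, List.take_succ_cons, List.take_zero, List.singleton_append]
      rw [hco]
      refine ⟨⟨hlift, r1⟩, ?_, ?_⟩
      · rw [e1, hds] at r2
        rw [List.getLast?_cons_cons, r2, ← e1]
        obtain ⟨g', rfl⟩ : ∃ g', g = g' + 1 := ⟨g - 1, by omega⟩
        rw [List.drop_succ_cons] at e1 ⊢
        cases bs0 with
        | nil => simp at e1
        | cons b1 bs1 =>
          rw [List.getLast?_cons_cons]
          have hlen : g' < (b1 :: bs1).length := by
            by_contra hcon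
            rw [List.drop_eq_nil_of_le (by omega)] at e1
            simp at e1
          rw [List.getLast?_drop, if_neg (by omega)]
      · intro g' hg'
        rcases List.mem_cons.mp hg' with rfl | h
        · exact hg1
        · exact r3 g' h

theorem Along.last {z : ℝ → ℂ} : ∀ {bs : List ℝ} {Ds : List Dd}, Along z bs Ds → Dcr bs →
    2 ≤ bs.length → ∀ b, bs.getLast? = some b → z b ∈ (lastD Ds).B
  | bs, Ds, h, hd, hl, b, hb => by
    rcases h.cases with ⟨b, rfl, rfl⟩ | ⟨b0, b1, bs', D, Ds', rfl, rfl, h1, h2⟩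
    · simp at hl
    · rcases h2.cases with ⟨b2, e, rfl⟩ | ⟨b2, b3, bs'', D', Ds'', e, rfl, _, _⟩
      · rw [List.cons.injEq] at e
        obtain ⟨rfl, rfl⟩ := e
        simp only [List.getLast?_cons_cons, List.getLast?_singleton, Option.some.injEq] at hb
        subst hb
        exact h1 b1 ⟨le_rfl, (List.pairwise_cons.mp hd.1).1 b1 (by simp)⟩
      · have hd' : Dcr (b1 :: bs') := ⟨(List.pairwise_cons.mp hd.1).2, fun b hb => hd.2 b (by simp [hb])⟩
        rw [List.getLast?_cons_cons] at hb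
        exact Along.last h2 hd' (by rw [e]; simp) b hb
termination_by bs => bs.length

/-- the discs of the last level -/
def lastL' : List (List Dd) → List Dd
  | [] => []
  | [L] => L
  | _ :: L :: Ls => lastL' (L :: Ls)

theorem Along.mem {z : ℝ → ℂ} : ∀ {bs : List ℝ} {Ds : List Dd}, Along z bs Ds → 2 ≤ bs.length →
    ∀ a b, bs.head? = some a → bs.getLast? = some b → ∀ s ∈ Icc b a, ∃ D ∈ Ds, z s ∈ D.B
  | bs, Ds, h, hl, a, b, ha, hb, s, hs => by
    rcases h.cases with ⟨b, rfl, rfl⟩ | ⟨b0, b1, bs', D, Ds', rfl, rfl, h1, h2⟩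
    · simp at hl
    · simp only [List.head?_cons, Option.some.injEq] at ha
      subst ha
      by_cases h3 : b1 ≤ s
      · exact ⟨D, by simp, h1 s ⟨h3, hs.2⟩⟩
      · push Not at h3
        rcases h2.cases with ⟨b2, e, rfl⟩ | ⟨b2, b3, bs'', D', Ds'', e, rfl, _, _⟩
        · rw [List.cons.injEq] at e
          obtain ⟨rfl, rfl⟩ := e
          simp only [List.getLast?_cons_cons, List.getLast?_singleton, Option.some.injEq] at hb
          subst hb
          exact absurd hs.1 (not_le.mpr h3)
        · rw [List.getLast?_cons_cons] at hb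
          obtain ⟨D1, hD1, hD1'⟩ := Along.mem h2 (by rw [e]; simp) b1 b rfl hb s ⟨hs.1, h3.le⟩
          exact ⟨D1, by simp only [List.mem_cons] at hD1 ⊢; tauto, hD1'⟩
termination_by bs => bs.length

/-- all levels -/
theorem all_sound {ι : Type} (σ : ι → ι) (z : ι → ℝ → ℂ) (hz : ∀ i, ContinuousOn (z i) (Ioi 0))
    (hzσ : ∀ (i : ι) (s : ℝ), 0 < s → gF (z i s) = z (σ i) (7 * s)) :
    ∀ (gs : List (List ℕ)) (L : ι → List (List Dd)) (bs : List ℝ) (b : ℝ),
      (∀ i, chkAll (L i) (L (σ i)) gs = true) → Dcr bs → bs.getLast? = some b →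
      bs.head? = some (7 * b) → (∀ i, ∃ L0 Ls, L i = L0 :: Ls ∧ Along (z i) bs L0) →
      ∃ b', 0 < b' ∧ ∀ i, ∀ s ∈ Icc b' (7 * b'), ∃ D ∈ lastL' (L i), z i s ∈ D.B
  | [], L, bs, b, hc, hd, hl, hh, h0 => by
    have hb : 0 < b := hd.2 b (List.mem_of_getLast? hl)
    refine ⟨b, hb, fun i s hs => ?_⟩
    obtain ⟨L0, Ls, e, ha⟩ := h0 i
    have hci := hc i
    rw [e] at hci
    cases Ls with
    | cons L1 Ls => simp [chkAll] at hci
    | nil =>
      rw [e]
      refine Along.mem ha ?_ (7 * b) b hh hl s hs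
      by_contra hcon
      rcases ha.cases with ⟨c, rfl, _⟩ | ⟨b0, b1, bs', D, Ds', rfl, _, _, _⟩
      · simp only [List.getLast?_singleton, List.head?_cons, Option.some.injEq] at hl hh
        linarith
      · simp at hcon
  | g :: gs, L, bs, b, hc, hd, hl, hh, h0 => by
    have hb : 0 < b := hd.2 b (List.mem_of_getLast? hl)
    have key : ∀ i, ∃ L0 L1 Ls, L i = L0 :: L1 :: Ls ∧ Along (z i) ((coarse g bs).map (· / 7)) L1 ∧
        (coarse g bs).getLast? = bs.getLast? ∧ (∀ g' ∈ g, 1 ≤ g') ∧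
        chkAll (L1 :: Ls) (L (σ i)).tail gs = true := by
      intro i
      obtain ⟨L0, Ls, e, ha⟩ := h0 i
      obtain ⟨T0, Ts, e', ha'⟩ := h0 (σ i)
      have hci := hc i
      rw [e, e'] at hci
      cases Ls with
      | nil => simp [chkAll] at hci
      | cons L1 Ls =>
        simp only [chkAll, Bool.and_eq_true] at hci
        have h2 : 2 ≤ bs.length := by
          by_contra hcon
          rcases ha.cases with ⟨c, rfl, _⟩ | ⟨b0, b1, bs', D, Ds', rfl, _, _, _⟩
          · simp only [List.getLast?_singleton, List.head?_cons, Option.some.injEq] at hl hh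
            linarith
          · simp at hcon
        obtain ⟨r1, r2, r3⟩ := ray_sound (hz i) (hzσ i) g L1 T0 (lastD L0) bs hci.1 ha' hd (fun c hc => by
          rw [hh] at hc
          simp only [Option.some.injEq] at hc
          rw [← hc, mul_div_cancel_left₀ b (by norm_num : (7:ℝ) ≠ 0)]
          exact ball_subset_closedBall (ha.last hd h2 b hl))
        exact ⟨L0, L1, Ls, e, r1, r2, r3, by rw [e']; exact hci.2⟩
    obtain ⟨i0⟩ | hι := isEmpty_or_nonempty ι
    · exact ⟨1, one_pos, fun i => isEmptyElim i⟩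
    obtain ⟨i0⟩ := hι
    obtain ⟨_, _, _, _, _, hlast, hg1, _⟩ := key i0
    obtain ⟨h7, bs7, rfl⟩ : ∃ a as, bs = a :: as := by
      cases bs with
      | nil => simp at hh
      | cons a as => exact ⟨a, as, rfl⟩
    obtain ⟨cs, hcs⟩ := coarse_cons g h7 bs7
    have hnext := all_sound σ z hz hzσ gs (fun i => (L i).tail) ((coarse g (h7 :: bs7)).map (· / 7)) (b / 7)
      (fun i => by
        obtain ⟨L0, L1, Ls, e, _, _, _, h5⟩ := key i
        simp only [e, List.tail_cons]
        exact h5)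
      (hd.map (coarse_sublist g _ hg1))
      (by rw [List.getLast?_map, hlast, hl]; rfl)
      (by
        rw [hcs]
        simp only [List.map_cons, List.head?_cons, Option.some.injEq] at hh ⊢
        rw [hh]; ring)
      (fun i => by
        obtain ⟨L0, L1, Ls, e, h1, _⟩ := key i
        exact ⟨L1, Ls, by rw [e]; rfl, h1⟩)
    obtain ⟨b', hb', hfin⟩ := hnext
    refine ⟨b', hb', fun i s hs => ?_⟩
    obtain ⟨L0, L1, Ls, e, _⟩ := key i
    have := hfin i s hs
    simp only [e, List.tail_cons] at this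
    rw [e]
    exact this

end Pool.Agent.JH
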