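import Pool.Agent.Lib.MP_8ebc20_an.R.Def

/-!
# R.LIFT: lifting curves into discs

PROOFS. `lift_step`: at `b`: `gF (z b) = gF x` with `x ∈ ball c r`; `z b` and `x` are both in the larger of the two closed
balls, on which `gF` is injective, so `z b = x ∈ ball c r`.  The set `S = {t ∈ Icc a b | z t ∈ ball c r}` is
relatively open, and relatively closed: if `t` is a limit of points of `S` then `z t ∈ closedBall c r` and
`gF (z t) = gF x'` with `x' ∈ ball c r`, so `z t = x' ∈ ball c r`.  `Icc a b` is preconnected.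
`lift_tail`: by induction on `n`: for all `i` and `s ∈ Icc (b / 7 ^ (n + 1)) (b / 7 ^ n)`, `z i s ∈ ball (c i) (r i)`: for
`n + 1` apply `lift_step` on `Icc (b / 7 ^ (n + 2)) (b / 7 ^ (n + 1))` with `R = r i`: the targets `gF (z i s) = z (σ i) (7 s)`
are in `ball (c (σ i)) (r (σ i))` by the induction hypothesis, and the upper end point is covered by the induction
hypothesis for `i`.  Every `s ∈ Ioc 0 b` is in one of these intervals (`b / 7 ^ n → 0`).
-/

set_option autoImplicit false

namespace Pool.Agent.JH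

open Set Metric Filter Topology

theorem lift_step {z : ℝ → ℂ} {a b : ℝ} (hab : a ≤ b) (hz : ContinuousOn z (Icc a b)) {c : ℂ}
    {r R : ℝ} (hR : InjOn gF (closedBall c R)) (hr : InjOn gF (closedBall c r))
    (htar : ∀ t ∈ Icc a b, gF (z t) ∈ gF '' ball c r) (hb : z b ∈ closedBall c R) :
    ∀ t ∈ Icc a b, z t ∈ ball c r := by
  have hbb : b ∈ Icc a b := right_mem_Icc.2 hab
  have h1 : z b ∈ ball c r := by
    obtain ⟨x, hx, hx2⟩ := htar b hbb
    rcases le_total r R with h | h
    · have := hR (closedBall_subset_closedBall h (ball_subset_closedBall hx)) hb hx2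
      rw [← this]; exact hx
    · have := hr (ball_subset_closedBall hx) (closedBall_subset_closedBall h hb) hx2
      rw [← this]; exact hx
  intro t ht
  by_contra hcon
  rw [mem_ball, not_lt] at hcon
  rw [mem_ball] at h1
  have hg : ContinuousOn (fun t => dist (z t) c) (Icc t b) :=
    (continuous_id.dist continuous_const).comp_continuousOn (hz.mono (Icc_subset_Icc_left ht.1))
  obtain ⟨u, hu, hue⟩ := intermediate_value_Icc' ht.2 hg ⟨h1.le, hcon⟩
  have hue' : dist (z u) c = r := hue
  obtain ⟨x, hx, hx2⟩ := htar u ⟨ht.1.trans hu.1, hu.2⟩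
  have h2 := hr (ball_subset_closedBall hx) (mem_closedBall.2 hue'.le) hx2
  rw [h2, mem_ball, hue'] at hx
  exact lt_irrefl _ hx

theorem lift_tail {ι : Type} (σ : ι → ι) (z : ι → ℝ → ℂ) (hz : ∀ i, ContinuousOn (z i) (Ioi 0))
    (hzσ : ∀ (i : ι) (s : ℝ), 0 < s → gF (z i s) = z (σ i) (7 * s)) (c : ι → ℂ) (r : ι → ℝ)
    (hinj : ∀ i, InjOn gF (closedBall (c i) (r i)))
    (hcov : ∀ i, ball (c (σ i)) (r (σ i)) ⊆ gF '' ball (c i) (r i)) {b : ℝ} (hb : 0 < b)
    (h0 : ∀ i, ∀ s ∈ Icc (b / 7) b, z i s ∈ ball (c i) (r i)) :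
    ∀ i, ∀ s ∈ Ioc 0 b, z i s ∈ ball (c i) (r i) := by
  have hlev : ∀ n : ℕ, ∀ i, ∀ s ∈ Icc (b / 7 ^ (n + 1)) (b / 7 ^ n), z i s ∈ ball (c i) (r i) := by
    intro n
    induction n with
    | zero =>
      intro i s hs
      apply h0 i s
      simpa using hs
    | succ n ih =>
      intro i
      have hpos : (0 : ℝ) < b / 7 ^ (n + 1 + 1) := by positivity
      have hle : b / 7 ^ (n + 1 + 1) ≤ b / 7 ^ (n + 1) := by
        apply div_le_div_of_nonneg_left hb.le (by positivity)
        exact pow_le_pow_right₀ (by norm_num) (by omega)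
      refine lift_step hle ((hz i).mono ?_) (hinj i) (hinj i) ?_ ?_
      · intro s hs
        exact hpos.trans_le hs.1
      · intro s hs
        have hs0 : 0 < s := hpos.trans_le hs.1
        rw [hzσ i s hs0]
        refine hcov i (ih (σ i) (7 * s) ⟨?_, ?_⟩)
        · have := hs.1
          rw [div_le_iff₀ (by positivity)] at this ⊢
          rw [pow_succ] at this
          linarith
        · have := hs.2
          rw [le_div_iff₀ (by positivity)] at this ⊢
          rw [pow_succ] at this
          linarith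
      · refine ball_subset_closedBall (ih i _ ⟨le_rfl, ?_⟩)
        apply div_le_div_of_nonneg_left hb.le (by positivity)
        exact pow_le_pow_right₀ (by norm_num) (by omega)
  intro i s hs
  have h1 : (1 : ℝ) ≤ b / s := (one_le_div hs.1).2 hs.2
  obtain ⟨n, hn1, hn2⟩ := exists_nat_pow_near h1 (by norm_num : (1 : ℝ) < 7)
  refine hlev n i s ⟨?_, ?_⟩
  · rw [div_le_iff₀ (by positivity)]
    rw [div_lt_iff₀ hs.1] at hn2
    linarith
  · rw [le_div_iff₀ (by positivity)]
    rw [le_div_iff₀ hs.1] at hn1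
    linarith

end Pool.Agent.JH
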