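import Pool.Agent.Lib.MP_8ebc20_an.R.Chk

/-!
# R.NUM: the integer square root bounds

PROOFS. `fN_eq`, `fZ_eq`: cases.  `le_nwt`: for `1 ≤ g`: `⌊S / g⌋ > S / g - 1`, and `⌊m / 2⌋ ≥ (m - 1) / 2`, so
`nwt S g ≥ (g + ⌊S / g⌋ - 1) / 2 + 1 > (g + S / g) / 2 ≥ √S` (AM-GM: `(g - √S)² ≥ 0`).
`upp`: unfold, `fN_eq`; the guess is `≥ 1`, and `nwt .. ≥ 1`.
`lon`: `⌊S / u⌋ ≤ S / u ≤ √S` because `√S ≤ u`.
-/

set_option autoImplicit false

namespace Pool.Agent.JH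

theorem fN_eq {α : Type} (n : Nat) (k : Nat → α) : fN n k = k n := by
  cases n <;> rfl

theorem fZ_eq {α : Type} (a : Int) (k : Int → α) : fZ a k = k a := by
  cases a <;> simp [fZ, fN_eq]

theorem le_nwt (S g : ℕ) (hg : 1 ≤ g) : Real.sqrt S ≤ nwt S g := by
  have h0 : nwt S g = (g + S / g) / 2 + 1 := rfl
  have hg0 : (0 : ℝ) < g := by exact_mod_cast hg
  set q : ℕ := S / g with hq
  set m : ℕ := (g + q) / 2 with hm
  have h1 : (S : ℝ) < g * (q + 1) := by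
    have : S < g * (q + 1) := by
      rw [hq]; exact Nat.lt_mul_div_succ S (by omega)
    exact_mod_cast this
  have h2 : (g : ℝ) + q ≤ 2 * m + 1 := by
    have : g + q ≤ 2 * m + 1 := by omega
    exact_mod_cast this
  rw [h0, Real.sqrt_le_left (by positivity)]
  push_cast
  have hm0 : (0 : ℝ) ≤ m := Nat.cast_nonneg _
  have hq0 : (0 : ℝ) ≤ q := Nat.cast_nonneg _
  have h3 : (g : ℝ) * (q + 1) ≤ ((m : ℝ) + 1) ^ 2 := by
    have h4 : (g : ℝ) + (q + 1) ≤ 2 * (m + 1) := by linarith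
    nlinarith [sq_nonneg ((g : ℝ) - (q + 1)), h4, hg0, hq0]
  linarith

theorem le_upp (p r : ℕ) : Real.sqrt ((p : ℝ) ^ 2 + (r : ℝ) ^ 2) ≤ upp p r := by
  have h0 : upp p r = nwt (p * p + r * r)
      (nwt (p * p + r * r) ((bif Nat.ble p r then r else p) + (bif Nat.ble p r then p else r) / 3 + 1)) := by
    unfold upp
    rw [fN_eq, fN_eq]
    rfl
  rw [h0]
  have h1 := le_nwt (p * p + r * r)
    (nwt (p * p + r * r) ((bif Nat.ble p r then r else p) + (bif Nat.ble p r then p else r) / 3 + 1))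
    (Nat.le_add_left 1 _)
  refine le_trans (le_of_eq ?_) h1
  push_cast
  ring_nf

theorem norm_le_upn (a b : ℤ) : ‖(⟨(a : ℝ), (b : ℝ)⟩ : ℂ)‖ ≤ upn a b := by
  have h0 : upn a b = upp a.natAbs b.natAbs := by
    unfold upn
    rw [fN_eq, fN_eq]
  rw [h0]
  refine le_trans (le_of_eq ?_) (le_upp _ _)
  rw [Complex.norm_def, Complex.normSq_mk]
  congr 1
  rw [Nat.cast_natAbs, Nat.cast_natAbs, Int.cast_abs, Int.cast_abs, sq_abs, sq_abs]
  ring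

theorem lon_le_norm (a b : ℤ) : (lon a b : ℝ) ≤ ‖(⟨(a : ℝ), (b : ℝ)⟩ : ℂ)‖ := by
  have h0 : lon a b = (a.natAbs * a.natAbs + b.natAbs * b.natAbs) / upp a.natAbs b.natAbs := by
    unfold lon
    rw [fN_eq, fN_eq]
    rfl
  have h1 := le_upp a.natAbs b.natAbs
  have h2 : ‖(⟨(a : ℝ), (b : ℝ)⟩ : ℂ)‖ = Real.sqrt ((a.natAbs : ℝ) ^ 2 + (b.natAbs : ℝ) ^ 2) := by
    rw [Complex.norm_def, Complex.normSq_mk]
    congr 1
    rw [Nat.cast_natAbs, Nat.cast_natAbs, Int.cast_abs, Int.cast_abs, sq_abs, sq_abs]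
    ring
  rw [h0, h2]
  set s : ℝ := Real.sqrt ((a.natAbs : ℝ) ^ 2 + (b.natAbs : ℝ) ^ 2) with hs
  have hs0 : 0 ≤ s := Real.sqrt_nonneg _
  have hs2 : s ^ 2 = (a.natAbs : ℝ) ^ 2 + (b.natAbs : ℝ) ^ 2 := Real.sq_sqrt (by positivity)
  refine le_trans Nat.cast_div_le ?_
  push_cast
  rcases eq_or_lt_of_le (Nat.cast_nonneg (α := ℝ) (upp a.natAbs b.natAbs)) with h | h
  · rw [← h, div_zero]; exact hs0
  · rw [div_le_iff₀ h]
    nlinarith [mul_le_mul_of_nonneg_left h1 hs0]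

end Pool.Agent.JH
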