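import Pool.Agent.Lib.MP_8ebc20_an.R.Land
import Pool.Agent.Lib.MP_8ebc20_an.Final

/-!
# R.REAL: the realization, except the cells
-/

set_option autoImplicit false

namespace Pool.Agent.JH

open Polynomial Set Metric Filter Topology

/-- one ray for every landing point -/
def rayP : Fin 12 → Fin 22 := ![0, 1, 2, 6, 7, 8, 9, 12, 13, 14, 17, 20]

theorem ptI_rayP (p : Fin 12) : ptI (rayP p) = p := by
  revert p
  decide

/-- the landing points -/
noncomputable def ptC (γ : ℝ → ℂ) (p : Fin 12) : ℂ := γ (ang (rayP p))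

/-- the cells -/
def Cells (pt : Fin 12 → ℂ) : Prop :=
  (∃ P : Set ℂ, P ⊆ interior (KSet g7) ∧ IsPreconnected P ∧ pt 0 ∈ closure P ∧ pt 3 ∈ closure P) ∧
  (∃ P : Set ℂ, P ⊆ interior (KSet g7) ∧ IsPreconnected P ∧ pt 4 ∈ closure P ∧ pt 6 ∈ closure P) ∧
  ∃ P : Set ℂ, P ⊆ interior (KSet g7) ∧ IsPreconnected P ∧ pt 7 ∈ closure P ∧ pt 9 ∈ closure P

variable {ψ ψi : ℂ → ℂ} {γ : ℝ → ℂ}

theorem ptC_fix (hE : ExtMap g7 ψ ψi) (hl : IsLoop g7 (frontier (KSet g7)) ψ γ) (he : FarB ψ)
    (p : Fin 12) : gF (ptC γ p) = ptC γ (fpI p) := by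
  obtain ⟨_, h2, h3⟩ := land hE hl he
  unfold ptC
  rw [h2]
  apply h3
  rw [pt_sig, ptI_rayP, ptI_rayP]

theorem ptC_mem (hE : ExtMap g7 ψ ψi) (hl : IsLoop g7 (frontier (KSet g7)) ψ γ) (he : FarB ψ)
    (p : Fin 12) : ptC γ p ∈ (tbI p).CB := by
  obtain ⟨h1, _, _⟩ := land hE hl he
  have := h1 (rayP p)
  rwa [ptI_rayP] at this

theorem real7_of (hE : ExtMap g7 ψ ψi) (hl : IsLoop g7 (frontier (KSet g7)) ψ γ) (he : FarB ψ)
    (ho : ∀ s t : ℝ, 0 < s → EE ψ s (t + 1 / 2) = -EE ψ s t) (hc : Cells (ptC γ)) :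
    Real7w g7 (frontier (KSet g7)) ψ ψi γ := by
  obtain ⟨h1, h2, h3⟩ := land hE hl he
  have hodd := hl.odd ho
  have hang : ∀ i : Fin 22, ang i = (numI i : ℝ) / 40353264 := fun i => rfl
  refine ⟨hyp7, hE, hl, natDegree_g7, hodd, ?_, ?_, ?_, ?_, ?_, ?_⟩
  · have e := h3 20 21 rfl
    have a : ang 20 = 0 := by rw [hang]; norm_num [numI]
    have b : ang 21 = 0 + 1 / 2 := by
      rw [hang]
      have : numI 21 = 20176632 := rfl
      rw [this]
      norm_num
    rw [b, hodd, a] at e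
    have : 2 * γ 0 = 0 := by
      linear_combination e
    simpa using this
  · have e := h2 17
    have e' := h3 (sigI 17) 17 rfl
    have a : ang 17 = 59 / 342 := by
      rw [hang]
      have : numI 17 = 6961528 := rfl
      rw [this]
      norm_num
    rw [e', a] at e
    rw [ev_g7]
    exact e
  · have e0 := h2 0
    have e1 := h2 (sigI 0)
    have e2 := h2 (sigI (sigI 0))
    have e3 := h3 (sigI (sigI (sigI 0))) 0 rfl
    have a : ang 0 = 18490444 / 40353264 := by
      rw [hang]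
      have : numI 0 = 18490444 := rfl
      rw [this]
      norm_num
    rw [ev_g7]
    simp only [Function.iterate_succ_apply, Function.iterate_zero_apply]
    rw [← a, e0, e1, e2, e3]
  · obtain ⟨⟨P, hP1, hP2, hP3, hP4⟩, _, _⟩ := hc
    refine ⟨P, hP1, hP2, ?_, ?_⟩
    · have a : ang 0 = 18490444 / 40353264 := by
        rw [hang]
        have : numI 0 = 18490444 := rfl
        rw [this]
        norm_num
      rw [← a]
      exact hP3
    · have a : ang 6 = 6960940 / 40353264 := by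
        rw [hang]
        have : numI 6 = 6960940 := rfl
        rw [this]
        norm_num
      rw [← a]
      exact hP4
  · obtain ⟨_, ⟨P, hP1, hP2, hP3, hP4⟩, _⟩ := hc
    refine ⟨P, hP1, hP2, ?_, ?_⟩
    · have a : ang 7 = 19936420 / 40353264 := by
        rw [hang]
        have : numI 7 = 19936420 := rfl
        rw [this]
        norm_num
      rw [← a]
      exact hP3
    · have a : ang 9 = 2642164 / 40353264 := by
        rw [hang]
        have : numI 9 = 2642164 := rfl
        rw [this]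
        norm_num
      rw [← a]
      exact hP4
  · obtain ⟨_, _, ⟨P, hP1, hP2, hP3, hP4⟩⟩ := hc
    refine ⟨P, hP1, hP2, ?_, ?_⟩
    · have a : ang 12 = 8612716 / 40353264 := by
        rw [hang]
        have : numI 12 = 8612716 := rfl
        rw [this]
        norm_num
      rw [← a]
      exact hP3
    · have a : ang 14 = 14377468 / 40353264 := by
        rw [hang]
        have : numI 14 = 14377468 := rfl
        rw [this]
        norm_num
      rw [← a]
      exact hP4

/-- the realization, given that the cells exist -/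
theorem exists_real7 (hc : ∀ pt : Fin 12 → ℂ, (∀ p, pt p ∈ (tbI p).CB) → (∀ p, gF (pt p) = pt (fpI p)) →
    Cells pt) : ∃ ψ ψi γ, Real7w g7 (frontier (KSet g7)) ψ ψi γ := by
  obtain ⟨ψ, ψi, hE, he, ho⟩ := exists_ext7
  obtain ⟨δ, C, lam, hr⟩ := hyp7.exists_hypRad
  obtain ⟨γ, hl⟩ := hE.exists_loop hyp7 hr
  exact ⟨ψ, ψi, γ, real7_of hE hl he ho (hc _ (ptC_mem hE hl he) (ptC_fix hE hl he))⟩

end Pool.Agent.JH
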