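import Pool.Agent.Lib.MP_8ebc20_an.R.Land
import Pool.Agent.Lib.MP_8ebc20_an.R.Cell
import Pool.Agent.Lib.MP_8ebc20_an.Final

/-!
# R.REALW: the realization
-/

set_option autoImplicit false

namespace Pool.Agent.JH

open Polynomial Set Metric Filter Topology

/-- a ray landing at the point -/
def rayOf : Fin 12 → Fin 22 := ![0, 1, 2, 6, 7, 8, 9, 12, 13, 14, 17, 20]

theorem ptI_rayOf (p : Fin 12) : ptI (rayOf p) = p := by
  revert p
  decide

theorem exists_real7w : ∃ (ψ ψi : ℂ → ℂ) (γ : ℝ → ℂ), Real7w g7 (frontier (KSet g7)) ψ ψi γ := by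
  obtain ⟨ψ, ψi, hE, hF, hO⟩ := exists_ext7
  obtain ⟨δ, C, lam, hr⟩ := hyp7.exists_hypRad
  obtain ⟨γ, hl⟩ := hE.exists_loop hyp7 hr
  obtain ⟨h1, h2, h3⟩ := land hE hl hF
  have hodd : ∀ t : ℝ, γ (t + 1 / 2) = -γ t := hl.odd hO
  have hpt : ∀ p : Fin 12, γ (ang (rayOf p)) ∈ (tbI p).CB := fun p => by
    have := h1 (rayOf p)
    rwa [ptI_rayOf] at this
  have hf : ∀ p : Fin 12, gF (γ (ang (rayOf p))) = γ (ang (rayOf (fpI p))) := fun p => by
    rw [h2]
    refine h3 _ _ ?_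
    rw [pt_sig, ptI_rayOf, ptI_rayOf]
  have a0 : ang 0 = 18490444 / 40353264 := by simp [ang, numI]
  have a6 : ang 6 = 6960940 / 40353264 := by simp [ang, numI]
  have a7 : ang 7 = 19936420 / 40353264 := by simp [ang, numI]
  have a9 : ang 9 = 2642164 / 40353264 := by simp [ang, numI]
  have a12 : ang 12 = 8612716 / 40353264 := by simp [ang, numI]
  have a14 : ang 14 = 14377468 / 40353264 := by simp [ang, numI]
  have a17 : ang 17 = 59 / 342 := by simp [ang, numI]; norm_num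
  have a20 : ang 20 = 0 := by simp [ang, numI]
  have a21 : ang 21 = 1 / 2 := by simp [ang, numI]; norm_num
  refine ⟨ψ, ψi, γ, ⟨hyp7, hE, hl, natDegree_g7, hodd, ?_, ?_, ?_, ?_, ?_, ?_⟩⟩
  · have e1 : γ (ang 20) = γ (ang 21) := h3 20 21 (by decide)
    have e2 := hodd 0
    rw [a20, a21] at e1
    rw [zero_add, ← e1] at e2
    have e3 : γ 0 + γ 0 = 0 := by nth_rewrite 1 [e2]; ring
    have e4 : (2 : ℂ) * γ 0 = 0 := by rw [two_mul]; exact e3
    exact (mul_eq_zero.mp e4).resolve_left two_ne_zero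
  · have e1 := h2 17
    rw [ev_g7, ← a17, e1]
    exact h3 _ _ (by decide)
  · have e1 : gF^[3] (γ (ang 0)) = γ (ang 3) := by
      simp only [Function.iterate_succ_apply, Function.iterate_zero, id_eq]
      rw [h2 0]
      have s0 : sigI 0 = 1 := by decide
      have s1 : sigI 1 = 2 := by decide
      have s2 : sigI 2 = 3 := by decide
      rw [s0, h2 1, s1, h2 2, s2]
    rw [ev_g7, ← a0, e1]
    exact h3 _ _ (by decide)
  · obtain ⟨P, p1, p2, p3, p4⟩ := cell_X hpt hf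
    have r0 : rayOf 0 = 0 := by decide
    have r3 : rayOf 3 = 6 := by decide
    rw [r0, a0] at p3
    rw [r3, a6] at p4
    exact ⟨P, p1, p2, p3, p4⟩
  · obtain ⟨P, p1, p2, p3, p4⟩ := cell_U hpt hf
    have r0 : rayOf 4 = 7 := by decide
    have r3 : rayOf 6 = 9 := by decide
    rw [r0, a7] at p3
    rw [r3, a9] at p4
    exact ⟨P, p1, p2, p3, p4⟩
  · obtain ⟨P, p1, p2, p3, p4⟩ := cell_W hpt hf
    have r0 : rayOf 7 = 12 := by decide
    have r3 : rayOf 9 = 14 := by decide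
    rw [r0, a12] at p3
    rw [r3, a14] at p4
    exact ⟨P, p1, p2, p3, p4⟩

end Pool.Agent.JH
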