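import Pool.Agent.Lib.MP_8ebc20_an.R.CoS
import Pool.Agent.Lib.MP_8ebc20_an.R.Lift

/-!
# R.SND: soundness of the elementary checks

PROOFS. All inequalities are multiplied by powers of `2 ^ 32` and `64` (`den = 64 * 2 ^ 192`).
`inj_sound`: `chkInj co R` says `co.bd.inj (R / 2 ^ 32) * (64 * 2 ^ 192) > 0`.
`cov_sound`: `chkCov co r t` says `(‖t.c - gF c‖ + t.R) * (64 * 2 ^ 224) ≤ co.bd.cov (r / 2 ^ 32) * (64 * 2 ^ 224)`
(`norm_le_upn` for `den * t.x - co.fx`, ...); then `TB.cover`.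
`in_sound`: triangle inequality, `norm_le_upn`.
`tail_sound`: `chkInj`, `chkCov`, `chkExp`; with `l = co.bd.inj B.R`, `chkExp` says `B'.R + ‖gF B.c - B'.c‖ < l * B.R`; `TB.expand`.
`stp_sound`: `gF z - gF c` is bounded by `bd.img`; the new centre differs from `gF c` by less than `2 / 2 ^ 32` (two floors), the
radius is rounded down by less than `1 / 2 ^ 32` (for `r / den` natural division); `+ 3` is enough.
`to_sound`: induction on `n`.  `path_sound`: induction on the list.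
`cen_sound`: `norm_le_upn`.
-/

set_option autoImplicit false

namespace Pool.Agent.JH

open Set Metric Filter Topology

/-- centre -/
noncomputable def Dd.c (D : Dd) : ℂ := cpt D.x D.y

/-- radius -/
noncomputable def Dd.R (D : Dd) : ℝ := (D.r : ℝ) / 2 ^ 32

/-- open disc -/
noncomputable def Dd.B (D : Dd) : Set ℂ := ball D.c D.R

/-- closed disc -/
noncomputable def Dd.CB (D : Dd) : Set ℂ := closedBall D.c D.R

theorem Dd.R_nonneg (D : Dd) : 0 ≤ D.R := by
  unfold Dd.R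
  positivity

private theorem cpt_sub (x y x' y' : ℤ) :
    cpt x y - cpt x' y' = ⟨(((x - x' : ℤ) : ℝ)) / 2 ^ 32, (((y - y' : ℤ) : ℝ)) / 2 ^ 32⟩ := by
  apply Complex.ext
  · simp only [cpt, Complex.sub_re]; push_cast; ring
  · simp only [cpt, Complex.sub_im]; push_cast; ring

private theorem mk_div (a b K : ℝ) (hK : 0 < K) : ‖(⟨a / K, b / K⟩ : ℂ)‖ = ‖(⟨a, b⟩ : ℂ)‖ / K := by
  have h : (⟨a / K, b / K⟩ : ℂ) = (⟨a, b⟩ : ℂ) / (K : ℂ) := by
    apply Complex.ext
    · rw [Complex.div_ofReal_re]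
    · rw [Complex.div_ofReal_im]
  rw [h, norm_div, Complex.norm_real, Real.norm_of_nonneg hK.le]

private theorem dist_cpt (x y x' y' : ℤ) :
    dist (cpt x y) (cpt x' y') ≤ (upn (x - x') (y - y') : ℝ) / 2 ^ 32 := by
  rw [dist_eq_norm, cpt_sub, mk_div _ _ _ (by positivity)]
  exact div_le_div_of_nonneg_right (norm_le_upn _ _) (by positivity)

theorem inj_sound {x y : ℤ} {co : Co} (h : CoOK x y co) {R : ℕ} (hc : chkInj co R = true) :
    0 < co.bd.inj ((R : ℝ) / 2 ^ 32) := by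
  have h1 : R * (2 * co.n2 + R * (3 * co.n3 + R * (4 * co.n4 + R * (5 * co.n5 + R * (6 * co.n6 + R * 448))))) < co.l1 :=
    Nat.le_of_ble_eq_true hc
  have h2 : ((R * (2 * co.n2 + R * (3 * co.n3 + R * (4 * co.n4 + R * (5 * co.n5 + R * (6 * co.n6 + R * 448))))) : ℕ) : ℝ) <
      (co.l1 : ℝ) := by exact_mod_cast h1
  have h3 : co.bd.inj ((R : ℝ) / 2 ^ 32) = ((co.l1 : ℝ) -
      ((R * (2 * co.n2 + R * (3 * co.n3 + R * (4 * co.n4 + R * (5 * co.n5 + R * (6 * co.n6 + R * 448))))) : ℕ) : ℝ)) /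
      (64 * 2 ^ 192) := by
    simp only [Bd.inj, Co.bd]
    push_cast
    ring
  rw [h3]
  exact div_pos (by linarith) (by positivity)

private theorem val_dist {D : Dd} {co : Co} (h : CoOK D.x D.y co) (t : Dd) :
    ‖t.c - gF (cpt D.x D.y)‖ ≤ (upn (den * t.x - co.fx) (den * t.y - co.fy) : ℝ) / (64 * 2 ^ 224) := by
  have h4 : t.c - gF (cpt D.x D.y) = ⟨((den * t.x - co.fx : ℤ) : ℝ) / (64 * 2 ^ 224),
      ((den * t.y - co.fy : ℤ) : ℝ) / (64 * 2 ^ 224)⟩ := by
    rw [h.val]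
    apply Complex.ext
    · simp only [Dd.c, cpt, Complex.sub_re]; push_cast [den]; ring
    · simp only [Dd.c, cpt, Complex.sub_im]; push_cast [den]; ring
  rw [h4, mk_div _ _ _ (by positivity)]
  exact div_le_div_of_nonneg_right (norm_le_upn _ _) (by positivity)

theorem cov_sound {D t : Dd} {co : Co} (h : CoOK D.x D.y co) (hc : chkCov co D.r t = true) :
    t.B ⊆ gF '' D.B := by
  have h1 : upn (den * t.x - co.fx) (den * t.y - co.fy) + t.r * den +
    D.r * (D.r * (co.n2 + D.r * (co.n3 + D.r * (co.n4 + D.r * (co.n5 + D.r * (co.n6 + D.r * 64)))))) ≤ co.l1 * D.r :=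
    Nat.le_of_ble_eq_true hc
  have h2 : ((upn (den * t.x - co.fx) (den * t.y - co.fy) : ℝ)) + t.r * (64 * 2 ^ 192) +
    (D.r : ℝ) * (D.r * (co.n2 + D.r * (co.n3 + D.r * (co.n4 + D.r * (co.n5 + D.r * (co.n6 + D.r * 64)))))) ≤
      co.l1 * D.r := by
    have h3 : ((den : ℕ) : ℝ) = 64 * 2 ^ 192 := by norm_num [den]
    rw [← h3]
    exact_mod_cast h1
  refine h.tb.cover D.R_nonneg ?_
  have h5 := val_dist h t
  have h6 : co.bd.cov D.R = ((co.l1 : ℝ) * D.r -
      (D.r : ℝ) * (D.r * (co.n2 + D.r * (co.n3 + D.r * (co.n4 + D.r * (co.n5 + D.r * (co.n6 + D.r * 64))))))) /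
      (64 * 2 ^ 224) := by
    simp only [Bd.cov, Co.bd, Dd.R]
    ring
  have h7 : t.R = (t.r * (64 * 2 ^ 192) : ℝ) / (64 * 2 ^ 224) := by
    simp only [Dd.R]; ring
  rw [h6, h7]
  refine le_trans (add_le_add h5 le_rfl) ?_
  rw [← add_div]
  refine div_le_div_of_nonneg_right ?_ (by positivity)
  linarith

theorem in_sound {D T : Dd} (hc : chkIn D T = true) : D.CB ⊆ T.B := by
  have h1 : upn (D.x - T.x) (D.y - T.y) + D.r < T.r := Nat.le_of_ble_eq_true hc
  have h2 : (upn (D.x - T.x) (D.y - T.y) : ℝ) + D.r < T.r := by exact_mod_cast h1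
  apply closedBall_subset_ball'
  have h3 := dist_cpt D.x D.y T.x T.y
  have h4 : (D.r : ℝ) / 2 ^ 32 + (upn (D.x - T.x) (D.y - T.y) : ℝ) / 2 ^ 32 < (T.r : ℝ) / 2 ^ 32 := by
    rw [← add_div]
    exact div_lt_div_of_pos_right (by linarith) (by positivity)
  exact lt_of_le_of_lt (add_le_add le_rfl h3) h4

theorem cen_sound {D D' : Dd} (hc : chkCen D D' = true) : D'.c ∈ D.CB := by
  have h1 : upn (D.x - D'.x) (D.y - D'.y) ≤ D.r := Nat.le_of_ble_eq_true hc
  have h2 : (upn (D.x - D'.x) (D.y - D'.y) : ℝ) ≤ D.r := by exact_mod_cast h1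
  rw [Dd.CB, mem_closedBall, dist_comm]
  exact (dist_cpt D.x D.y D'.x D'.y).trans (div_le_div_of_nonneg_right h2 (by positivity))

theorem seg_sound {prev D : Dd} {tgs : List Dd} (hc : chkSeg prev tgs D = true) :
    ∃ R : ℝ, prev.CB ⊆ closedBall D.c R ∧ InjOn gF (closedBall D.c R) ∧ InjOn gF D.CB ∧
      ∀ t ∈ tgs, t.B ⊆ gF '' D.B := by
  obtain ⟨co, hco, hk⟩ := coK_sound D.x D.y
  unfold chkSeg at hc
  rw [hk] at hc
  rw [fN_eq, Bool.and_eq_true, Bool.and_eq_true] at hc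
  obtain ⟨⟨h1, h2⟩, h3⟩ := hc
  refine ⟨((upn (D.x - prev.x) (D.y - prev.y) + prev.r : ℕ) : ℝ) / 2 ^ 32, ?_,
    hco.tb.injOn (inj_sound hco h1), hco.tb.injOn (inj_sound hco h2), ?_⟩
  · apply closedBall_subset_closedBall'
    have h4 := dist_cpt D.x D.y prev.x prev.y
    rw [dist_comm] at h4
    push_cast
    rw [add_div, add_comm]
    exact add_le_add h4 le_rfl
  · intro t ht
    exact cov_sound hco (List.all_eq_true.1 h3 t ht)

theorem tail_sound {B B' : Dd} (hc : chkTail B B' = true) :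
    InjOn gF B.CB ∧ B'.B ⊆ gF '' B.B ∧
      ∃ l : ℝ, 0 < l ∧ B'.R + ‖gF B.c - B'.c‖ < l * B.R ∧
        ∀ x ∈ B.CB, ∀ y ∈ B.CB, l * ‖x - y‖ ≤ ‖gF x - gF y‖ := by
  obtain ⟨co, hco, hk⟩ := coK_sound B.x B.y
  unfold chkTail at hc
  rw [hk] at hc
  rw [Bool.and_eq_true, Bool.and_eq_true] at hc
  obtain ⟨⟨h1, h2⟩, h3⟩ := hc
  have h4 : upn (den * B'.x - co.fx) (den * B'.y - co.fy) + B'.r * den +
    B.r * (B.r * (2 * co.n2 + B.r * (3 * co.n3 + B.r * (4 * co.n4 + B.r * (5 * co.n5 + B.r * (6 * co.n6 + B.r * 448))))))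
      < co.l1 * B.r := Nat.le_of_ble_eq_true h3
  have h5 : (upn (den * B'.x - co.fx) (den * B'.y - co.fy) : ℝ) + (B'.r : ℝ) * (64 * 2 ^ 192) +
    B.r * (B.r * (2 * co.n2 + B.r * (3 * co.n3 + B.r * (4 * co.n4 + B.r * (5 * co.n5 + B.r * (6 * co.n6 + B.r * 448))))))
      < co.l1 * B.r := by
    have h6 : ((den : ℕ) : ℝ) = 64 * 2 ^ 192 := by norm_num [den]
    rw [← h6]
    exact_mod_cast h4
  refine ⟨hco.tb.injOn (inj_sound hco h1), cov_sound hco h2, co.bd.inj B.R, inj_sound hco h1, ?_,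
    fun x hx y hy => hco.tb.expand hx hy⟩
  have h7 : co.bd.inj B.R * B.R = ((co.l1 : ℝ) * B.r -
    B.r * (B.r * (2 * co.n2 + B.r * (3 * co.n3 + B.r * (4 * co.n4 + B.r * (5 * co.n5 + B.r * (6 * co.n6 + B.r * 448)))))))
      / (64 * 2 ^ 224) := by
    simp only [Bd.inj, Co.bd, Dd.R]
    ring
  have h8 : B'.R = ((B'.r : ℝ) * (64 * 2 ^ 192)) / (64 * 2 ^ 224) := by
    simp only [Dd.R]; ring
  have h9 := val_dist hco B'
  rw [norm_sub_rev] at h9
  rw [h7, h8]
  have h10 : (B'.r : ℝ) * (64 * 2 ^ 192) / (64 * 2 ^ 224) +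
      (upn (den * B'.x - co.fx) (den * B'.y - co.fy) : ℝ) / (64 * 2 ^ 224) <
      ((co.l1 : ℝ) * B.r -
    B.r * (B.r * (2 * co.n2 + B.r * (3 * co.n3 + B.r * (4 * co.n4 + B.r * (5 * co.n5 + B.r * (6 * co.n6 + B.r * 448)))))))
      / (64 * 2 ^ 224) := by
    rw [← add_div]
    exact div_lt_div_of_pos_right (by linarith) (by positivity)
  exact lt_of_le_of_lt (add_le_add le_rfl h9) h10

theorem stp_sound (D : Dd) : ∃ D' : Dd, (∀ (α : Type) (k : Dd → α), stp D k = k D') ∧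
    MapsTo gF D.CB D'.CB := by
  obtain ⟨co, hco, hk⟩ := coK_sound D.x D.y
  refine ⟨⟨co.fx / den, co.fy / den, D.r * (co.n1 + D.r * (co.n2 + D.r * (co.n3 + D.r * (co.n4 + D.r * (co.n5 + D.r * (co.n6 + D.r * 64)))))) / den + 3⟩, ?_, ?_⟩
  · intro α k
    unfold stp
    rw [hk]
    rw [fZ_eq, fZ_eq, fN_eq]
  · intro z hz
    have h1 := hco.tb.image hz
    set M : ℕ := D.r * (co.n1 + D.r * (co.n2 + D.r * (co.n3 + D.r * (co.n4 + D.r * (co.n5 + D.r * (co.n6 + D.r * 64)))))) with hM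
    have hd : ((den : ℕ) : ℝ) = 64 * 2 ^ 192 := by norm_num [den]
    have h2 : co.bd.img D.R = (M : ℝ) / (64 * 2 ^ 224) := by
      rw [hM]
      simp only [Bd.img, Co.bd, Dd.R]
      push_cast
      ring
    have h3 : (M : ℝ) < ((M / den : ℕ) + 1) * (64 * 2 ^ 192) := by
      have : M < den * (M / den + 1) := Nat.lt_mul_div_succ M (by norm_num [den])
      rw [← hd]
      have h4 : (M : ℝ) < den * ((M / den : ℕ) + 1) := by exact_mod_cast this
      linarith
    have hfl : ∀ f : ℤ, |(f : ℝ) / (64 * 2 ^ 224) - ((f / (den : ℤ) : ℤ) : ℝ) / 2 ^ 32| ≤ 1 / 2 ^ 32 := by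
      intro f
      have h4 : (den : ℤ) * (f / den) ≤ f := Int.mul_ediv_self_le (by norm_num [den])
      have h5 : f < (den : ℤ) * (f / den) + den := Int.lt_mul_ediv_self_add (by norm_num [den])
      have h4' : (64 * 2 ^ 192 : ℝ) * ((f / (den : ℤ) : ℤ) : ℝ) ≤ f := by
        rw [← hd]; exact_mod_cast h4
      have h5' : (f : ℝ) < (64 * 2 ^ 192 : ℝ) * ((f / (den : ℤ) : ℤ) : ℝ) + 64 * 2 ^ 192 := by
        rw [← hd]; exact_mod_cast h5
      have h6 : (f : ℝ) / (64 * 2 ^ 224) - ((f / (den : ℤ) : ℤ) : ℝ) / 2 ^ 32 =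
          ((f : ℝ) - (64 * 2 ^ 192 : ℝ) * ((f / (den : ℤ) : ℤ) : ℝ)) / (64 * 2 ^ 224) := by ring
      rw [h6, abs_le]
      constructor
      · refine le_trans (by norm_num) (div_nonneg (by linarith) (by positivity))
      · rw [div_le_iff₀ (by positivity)]
        linarith
    have h7 : ‖gF (cpt D.x D.y) - cpt (co.fx / den) (co.fy / den)‖ ≤ 2 / 2 ^ 32 := by
      rw [hco.val]
      refine (Complex.norm_le_abs_re_add_abs_im _).trans ?_
      have ha := hfl co.fx
      have hb := hfl co.fy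
      simp only [cpt, Complex.sub_re, Complex.sub_im]
      refine (add_le_add ha hb).trans (le_of_eq ?_)
      ring
    change gF z ∈ closedBall (cpt (co.fx / den) (co.fy / den)) (((M / den + 3 : ℕ) : ℝ) / 2 ^ 32)
    rw [mem_closedBall, dist_eq_norm]
    have h8 : ‖gF z - cpt (co.fx / den) (co.fy / den)‖ ≤ ‖gF z - gF (cpt D.x D.y)‖ +
        ‖gF (cpt D.x D.y) - cpt (co.fx / den) (co.fy / den)‖ := by
      have : gF z - cpt (co.fx / den) (co.fy / den) = (gF z - gF (cpt D.x D.y)) +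
        (gF (cpt D.x D.y) - cpt (co.fx / den) (co.fy / den)) := by ring
      rw [this]; exact norm_add_le _ _
    have h9 : (M : ℝ) / (64 * 2 ^ 224) ≤ (((M / den : ℕ) : ℝ) + 1) / 2 ^ 32 := by
      rw [div_le_div_iff₀ (by positivity) (by positivity)]
      have : (M : ℝ) * 2 ^ 32 ≤ (((M / den : ℕ) + 1) * (64 * 2 ^ 192)) * 2 ^ 32 :=
        mul_le_mul_of_nonneg_right h3.le (by positivity)
      refine this.trans (le_of_eq ?_)
      ring
    rw [h2] at h1
    push_cast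
    have h10 : (((M / den : ℕ) : ℝ) + 3) / 2 ^ 32 = (((M / den : ℕ) : ℝ) + 1) / 2 ^ 32 + 2 / 2 ^ 32 := by
      ring
    have h11 : ((M / den : ℕ) : ℝ) = ((M / den : ℕ) : ℝ) := rfl
    linarith

theorem to_sound {n : ℕ} {D T : Dd} (hc : chkTo n D T = true) : ∀ z ∈ D.CB, gF^[n] z ∈ T.B := by
  induction n generalizing D with
  | zero => intro z hz; exact in_sound hc hz
  | succ n ih =>
    intro z hz
    obtain ⟨D', h1, h2⟩ := stp_sound D
    have h3 : chkTo n D' T = true := by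
      have h4 : (stp D fun D => itr n D fun D => chkIn D T) = true := hc
      rw [h1] at h4
      exact h4
    exact ih h3 _ (h2 hz)

theorem path_sound {D : Dd} {Ts : List Dd} (hc : chkPath D Ts = true) :
    ∀ z ∈ D.CB, ∀ (k : ℕ) (hk : k < Ts.length), gF^[k] z ∈ (Ts[k]).B := by
  induction Ts generalizing D with
  | nil => intro z _ k hk; exact absurd hk (by simp)
  | cons T Ts ih =>
    cases Ts with
    | nil =>
      intro z hz k hk
      have hk0 : k = 0 := by simpa using hk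
      subst hk0
      exact in_sound hc hz
    | cons T' Ts =>
      intro z hz k hk
      have h0 : (chkIn D T && stp D fun D => chkPath D (T' :: Ts)) = true := hc
      rw [Bool.and_eq_true] at h0
      obtain ⟨D', h1, h2⟩ := stp_sound D
      have h3 : chkPath D' (T' :: Ts) = true := by
        have h4 := h0.2
        rw [h1] at h4
        exact h4
      cases k with
      | zero => exact in_sound h0.1 hz
      | succ k =>
        have h5 := ih h3 (gF z) (h2 hz) k (by simpa using hk)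
        simpa using h5

end Pool.Agent.JH
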