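import Pool.Agent.Lib.MP_8ebc20_an.R.Lev
import Pool.Agent.Lib.MP_8ebc20_an.R.CI
import Pool.Agent.Lib.MP_8ebc20_an.R.C0
import Pool.Agent.Lib.MP_8ebc20_an.R.C1
import Pool.Agent.Lib.MP_8ebc20_an.R.C2
import Pool.Agent.Lib.MP_8ebc20_an.R.C3
import Pool.Agent.Lib.MP_8ebc20_an.R.C4
import Pool.Agent.Lib.MP_8ebc20_an.R.C5

/-!
# R.TAB: the tables of the 22 rays and 12 landing points
-/

set_option autoImplicit false

namespace Pool.Agent.JH

open Set Metric Filter Topology

/-- numerators of the angles over `40353264` -/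
def numI : Fin 22 → ℕ := ![18490444, 8373316, 18259948, 6759844, 6965644, 8406244, 6960940, 19936420, 18495148, 2642164, 20137516, 19902820, 8612716, 19935748, 14377468, 12490996, 6730444, 6961528, 8377432, 18288760, 0, 20176632]

/-- the angles -/
noncomputable def ang (i : Fin 22) : ℝ := (numI i : ℝ) / 40353264

/-- index of the image ray -/
def sigI : Fin 22 → Fin 22 := ![1, 2, 3, 4, 5, 0, 1, 8, 5, 8, 11, 2, 13, 0, 13, 16, 3, 18, 19, 17, 20, 21]

/-- index of the landing point -/
def ptI : Fin 22 → Fin 12 := ![0, 1, 2, 0, 1, 2, 3, 4, 5, 6, 4, 5, 7, 8, 9, 7, 8, 10, 10, 10, 11, 11]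

/-- image of the landing points -/
def fpI : Fin 12 → Fin 12 := ![1, 2, 0, 1, 5, 2, 5, 8, 0, 8, 10, 11]

/-- the tail balls -/
def tbI : Fin 12 → Dd := ![tb0, tb1, tb2, tb3, tb4, tb5, tb6, tb7, tb8, tb9, tb10, tb11]

/-- the discs of the rays -/
def rayI : Fin 22 → List (List Dd) := ![ray0, ray1, ray2, ray3, ray4, ray5, ray6, ray7, ray8, ray9, ray10, ray11, ray12, ray13, ray14, ray15, ray16, ray17, ray18, ray19, ray20, ray21]

/-- approximate directions, scaled by `2 ^ 20` -/
def dxI : Fin 22 → ℤ := ![-1012643, 276689, -1002226, 519431, 489981, 271500, 490660, -1047843, -1012842, 961086, -1048557, -1047623, 238804, -1047839, -649374, -383194, 523595, 490575, 276041, -1003599, 1048576, -1048576]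

/-- approximate directions, scaled by `2 ^ 20` -/
def dyI : Fin 22 → ℤ := ![272149, 1011412, 308309, 910881, 927055, 1012818, 926696, 39210, 271407, 419315, 6386, 44691, 1021021, 39319, 823301, 976050, 908493, 926740, 1011589, 303809, 0, 0]

theorem rayI_chk (i : Fin 22) : chkAll (rayI i) (rayI (sigI i)) gs0 = true := by
  fin_cases i
  · exact rc0
  · exact rc1
  · exact rc2
  · exact rc3
  · exact rc4
  · exact rc5
  · exact rc6
  · exact rc7
  · exact rc8
  · exact rc9
  · exact rc10
  · exact rc11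
  · exact rc12
  · exact rc13
  · exact rc14
  · exact rc15
  · exact rc16
  · exact rc17
  · exact rc18
  · exact rc19
  · exact rc20
  · exact rc21

theorem rayI_head (i : Fin 22) : ∃ Ls, rayI i = lev0 (dxI i) (dyI i) xs0 :: Ls := by
  fin_cases i <;> exact ⟨_, rfl⟩

theorem last_chk (i : Fin 22) : (lastL (rayI i)).all (fun D => chkIn D (tbI (ptI i))) = true := by
  fin_cases i
  · exact last_ok0
  · exact last_ok1
  · exact last_ok2
  · exact last_ok3
  · exact last_ok4
  · exact last_ok5
  · exact last_ok6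
  · exact last_ok7
  · exact last_ok8
  · exact last_ok9
  · exact last_ok10
  · exact last_ok11
  · exact last_ok12
  · exact last_ok13
  · exact last_ok14
  · exact last_ok15
  · exact last_ok16
  · exact last_ok17
  · exact last_ok18
  · exact last_ok19
  · exact last_ok20
  · exact last_ok21

theorem tail_chk (p : Fin 12) : chkTail (tbI p) (tbI (fpI p)) = true := by
  fin_cases p
  · exact tb_ok0
  · exact tb_ok1
  · exact tb_ok2
  · exact tb_ok3
  · exact tb_ok4
  · exact tb_ok5
  · exact tb_ok6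
  · exact tb_ok7
  · exact tb_ok8
  · exact tb_ok9
  · exact tb_ok10
  · exact tb_ok11

theorem pt_sig (i : Fin 22) : ptI (sigI i) = fpI (ptI i) := by
  revert i
  decide

theorem ang7 (i : Fin 22) : ∃ k : ℤ, 7 * ang i = ang (sigI i) + k := by
  have h : ∀ i : Fin 22, 7 * numI i = numI (sigI i) + 40353264 * (7 * numI i / 40353264) := by
    decide
  refine ⟨((7 * numI i / 40353264 : ℕ) : ℤ), ?_⟩
  have h1 : (7 : ℝ) * numI i = numI (sigI i) + 40353264 * ((7 * numI i / 40353264 : ℕ) : ℝ) := by
    exact_mod_cast h i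
  unfold ang
  rw [Int.cast_natCast, mul_div_assoc', h1]
  field_simp

end Pool.Agent.JH
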